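import Pool.Agent.Lib_helper78.FT.Cert

/-! # Base levels

`goodTuple_of` and `base_two_p` are due to helper15 (`Lib_helper15/FT_D`). -/

set_option autoImplicit false

namespace Pool.Agent.FT

theorem goodTuple_of (m : ℕ) (e : List ℤ) (hm : 0 < m)
    (h : e.length = 4 ∧ (∀ x ∈ e, ¬ (m : ℤ) ∣ x) ∧ (m : ℤ) ∣ e.sum ∧
      ∀ t ∈ Finset.range m, t.Coprime m → (e.map fun x => ((t : ℤ) * x) % m).sum = 2 * m) :
    GoodTuple m e := by
  obtain ⟨h1, h2, h3, h4⟩ := h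
  refine ⟨h1, h2, h3, fun t ht => ?_⟩
  have h5 := h4 (t % m) (Finset.mem_range.2 (Nat.mod_lt _ hm)) (by
    rw [Nat.Coprime, ← Nat.gcd_rec, Nat.gcd_comm]; exact ht)
  rw [← h5]
  congr 1
  apply List.map_congr_left
  intro x _
  push_cast
  rw [Int.mul_emod, Int.mul_emod ((t : ℤ) % m) x, Int.emod_emod_of_dvd _ dvd_rfl]

theorem base_two_p (p : ℕ) (hp : p.Prime) (hp3 : p ≠ 2) : Rigid (2 * p) [] := by
  have hodd : p % 2 = 1 := by
    rcases hp.eq_two_or_odd with h | h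
    · exact absurd h hp3
    · exact h
  have hp0 : 0 < p := hp.pos
  refine ⟨(Finset.range (p / 2)).image (fun k : ℕ => 2 * ((k : ℤ) + 1)), ?_, ?_⟩
  · have h1 : ((Finset.range (p / 2)).image (fun k : ℕ => 2 * ((k : ℤ) + 1))).card ≤ p / 2 := by
      refine Finset.card_image_le.trans ?_
      simp
    have h2 : (2 * p).totient = p - 1 := by
      rw [Nat.totient_mul_of_prime_of_not_dvd Nat.prime_two (by omega), Nat.totient_prime hp]
      omega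
    omega
  · intro Q _ f h _ hK
    have hK' : ∀ k : ℤ, 0 < k → 2 * k < p → f (2 * k) = 0 := by
      intro k h0 h1
      apply hK
      rw [Finset.mem_image]
      refine ⟨(k - 1).toNat, Finset.mem_range.2 (by omega), ?_⟩
      have : (((k - 1).toNat : ℕ) : ℤ) = k - 1 := Int.toNat_of_nonneg (by omega)
      rw [this]; ring
    have hev : ∀ k : ℤ, 0 ≤ k → k < p → f (2 * k) = 0 := by
      intro k h0 h1
      rcases h0.lt_or_eq with h2 | h2
      · rcases lt_or_ge (2 * k) p with h3 | h3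
        · exact hK' k h2 h3
        · have h4 := h.refl (2 * ((p : ℤ) - k))
          have h5 : ((2 * p : ℕ) : ℤ) - 2 * ((p : ℤ) - k) = 2 * k := by push_cast; ring
          rw [h5, hK' ((p : ℤ) - k) (by omega) (by omega), neg_zero] at h4
          exact h4
      · rw [← h2, mul_zero]; exact h.zero
    have heven : ∀ x : ℤ, f (2 * x) = 0 := by
      intro x
      rw [← h.emod]
      have h1 : (2 * x) % ((2 * p : ℕ) : ℤ) = 2 * (x % p) := by
        push_cast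
        rw [Int.mul_emod_mul_of_pos _ _ (by norm_num)]
      rw [h1]
      exact hev _ (Int.emod_nonneg _ (by positivity)) (Int.emod_lt_of_pos _ (by positivity))
    intro x
    rcases Int.even_or_odd' x with ⟨k, hk | hk⟩
    · rw [hk]; exact heven k
    · have h1 := h.dist 2 Nat.prime_two p rfl x
      simp only [Finset.sum_range_succ, Finset.sum_range_zero, zero_add, Nat.cast_zero, zero_mul,
        add_zero, Nat.cast_one, one_mul] at h1
      have h2 : x + p = 2 * (k + (p / 2 : ℕ) + 1) := by omega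
      rw [h2, heven] at h1
      have h3 : ((2 : ℕ) : ℤ) * x = 2 * x := by norm_num
      rw [h3, heven, add_zero] at h1
      exact h1

theorem base_60 : ∃ E, (∀ e ∈ E, GoodTuple 60 e) ∧ Rigid 60 E := by
  refine ⟨[[24, 26, 30, 40], [12, 29, 30, 49], [15, 20, 30, 55]], ?_, Cert.rigid_of_check 60 [[24, 26, 30, 40], [12, 29, 30, 49], [15, 20, 30, 55]] [15, 16, 18, 20, 21, 23, 26, 29] [(2, 0, 30), (2, 10, 10), (0, 2, 55), (2, 5, 35), (0, 0, 24), (2, 12, 12), (2, 6, 6), (3, 6, 46), (2, 14, 28), (3, 4, 4), (2, 4, 8), (2, 8, 38), (3, 2, 2), (2, 1, 1), (0, 1, 49), (2, 11, 41), (2, 9, 9), (3, 1, 3), (2, 3, 33), (2, 7, 7), (3, 3, 43), (5, 1, 13)] (by decide +kernel)⟩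
  intro e he
  simp only [List.mem_cons, List.not_mem_nil, or_false] at he
  rcases he with rfl | rfl | rfl <;> exact goodTuple_of 60 _ (by norm_num) (by decide +kernel)

theorem base_84 : ∃ E, (∀ e ∈ E, GoodTuple 84 e) ∧ Rigid 84 E := by
  refine ⟨[[22, 24, 42, 80], [15, 17, 63, 73], [28, 35, 42, 63]], ?_, Cert.rigid_of_check 84 [[22, 24, 42, 80], [15, 17, 63, 73], [28, 35, 42, 63]] [6, 9, 10, 13, 17, 18, 19, 22, 27, 28, 35, 36] [(2, 0, 42), (2, 9, 51), (2, 14, 14), (2, 7, 7), (0, 2, 63), (2, 18, 60), (2, 6, 12), (2, 12, 54), (3, 6, 34), (0, 0, 80), (3, 4, 32), (2, 10, 20), (3, 10, 38), (2, 4, 8), (2, 8, 16), (2, 16, 58), (3, 12, 40), (2, 2, 2), (2, 13, 55), (2, 19, 61), (2, 15, 15), (3, 9, 37), (2, 5, 5), (2, 17, 59), (0, 1, 73), (2, 11, 53), (3, 11, 39), (2, 3, 3), (3, 13, 41), (2, 1, 1)] (by decide +kernel)⟩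
  intro e he
  simp only [List.mem_cons, List.not_mem_nil, or_false] at he
  rcases he with rfl | rfl | rfl <;> exact goodTuple_of 84 _ (by norm_num) (by decide +kernel)

theorem base_66 : ∃ E, (∀ e ∈ E, GoodTuple 66 e) ∧ Rigid 66 E := by
  refine ⟨[[17, 22, 29, 64]], ?_, Cert.rigid_of_check 66 [[17, 22, 29, 64]] [1, 7, 8, 9, 22, 24, 26, 27, 31, 32] [(2, 0, 33), (2, 11, 11), (3, 9, 53), (2, 1, 2), (2, 2, 4), (2, 4, 37), (0, 0, 17), (2, 16, 16), (2, 8, 41), (2, 13, 46), (2, 9, 18), (3, 2, 6), (2, 6, 12), (2, 12, 45), (3, 6, 28), (2, 7, 14), (3, 7, 51), (2, 15, 30), (3, 5, 5), (2, 5, 10), (2, 10, 43), (3, 1, 3), (11, 1, 19)] (by decide +kernel)⟩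
  intro e he
  simp only [List.mem_cons, List.not_mem_nil, or_false] at he
  rcases he with rfl <;> exact goodTuple_of 66 _ (by norm_num) (by decide +kernel)

theorem base_78 : ∃ E, (∀ e ∈ E, GoodTuple 78 e) ∧ Rigid 78 E := by
  refine ⟨[[17, 23, 39, 77]], ?_, Cert.rigid_of_check 78 [[17, 23, 39, 77]] [2, 3, 5, 6, 10, 12, 17, 18, 24, 26, 30, 32] [(2, 0, 39), (2, 13, 13), (2, 9, 9), (2, 15, 15), (2, 12, 51), (2, 6, 45), (2, 3, 42), (2, 18, 57), (3, 5, 31), (2, 5, 44), (3, 10, 62), (2, 8, 8), (2, 16, 55), (3, 6, 58), (2, 10, 49), (2, 17, 56), (3, 9, 35), (0, 0, 77), (3, 1, 53), (2, 4, 4), (2, 1, 40), (2, 2, 41), (3, 2, 28), (2, 11, 11), (2, 14, 14), (2, 7, 7), (3, 7, 59)] (by decide +kernel)⟩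
  intro e he
  simp only [List.mem_cons, List.not_mem_nil, or_false] at he
  rcases he with rfl <;> exact goodTuple_of 78 _ (by norm_num) (by decide +kernel)

/-- Base level 68. -/
theorem rigid_68 : Rigid 68 [[9, 16, 20, 21, 26, 29, 33, 37, 49, 50, 57, 61]] :=
  Cert.rigid_of_check 68 [[9, 16, 20, 21, 26, 29, 33, 37, 49, 50, 57, 61]] [2, 3, 5, 8, 9, 10, 11, 15, 17, 18, 21, 24, 28, 31, 32, 33] [(2, 0, 34), (2, 16, 16), (2, 8, 42), (2, 2, 4), (2, 4, 38), (2, 1, 1), (2, 9, 43), (2, 15, 49), (2, 3, 6), (2, 5, 39), (2, 10, 20), (2, 6, 12), (2, 14, 14), (2, 12, 46), (2, 13, 13), (2, 11, 45), (0, 0, 61), (2, 7, 41)] (by decide +kernel)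

/-- Base level 102. -/
theorem rigid_102 : Rigid 102 [[1, 13, 20, 62, 68, 72, 73, 99]] :=
  Cert.rigid_of_check 102 [[1, 13, 20, 62, 68, 72, 73, 99]] [1, 2, 4, 6, 9, 21, 26, 28, 30, 31, 34, 36, 39, 41, 47, 48] [(2, 0, 51), (2, 17, 17), (2, 4, 8), (2, 2, 53), (2, 1, 52), (2, 21, 42), (2, 25, 25), (3, 8, 24), (2, 12, 12), (3, 13, 13), (2, 13, 64), (2, 6, 57), (2, 15, 15), (3, 2, 70), (2, 19, 19), (2, 9, 18), (2, 18, 69), (2, 3, 3), (2, 24, 75), (3, 16, 16), (2, 8, 59), (2, 16, 67), (3, 6, 40), (2, 20, 20), (3, 3, 37), (2, 14, 14), (0, 0, 73), (3, 5, 5), (2, 10, 10), (3, 7, 7), (2, 7, 58), (2, 22, 22), (2, 11, 11), (3, 12, 46), (2, 23, 23)] (by decide +kernel)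

/-- Base level 114. -/
theorem rigid_114 : Rigid 114 [[1, 13, 43, 57, 61, 90, 92, 99], [8, 65, 73, 82]] :=
  Cert.rigid_of_check 114 [[1, 13, 43, 57, 61, 90, 92, 99], [8, 65, 73, 82]] [3, 4, 8, 18, 20, 21, 24, 26, 28, 30, 32, 36, 37, 38, 41, 48, 51, 54] [(2, 0, 57), (2, 18, 75), (2, 21, 42), (2, 9, 9), (2, 15, 15), (2, 27, 27), (2, 19, 19), (2, 3, 6), (3, 1, 1), (2, 20, 40), (3, 18, 56), (2, 1, 2), (2, 28, 85), (3, 10, 10), (2, 10, 67), (3, 6, 44), (2, 16, 16), (3, 3, 79), (2, 22, 22), (2, 8, 65), (2, 2, 59), (2, 4, 61), (2, 24, 81), (3, 8, 46), (2, 11, 11), (2, 13, 13), (0, 0, 43), (2, 14, 14), (3, 5, 5), (2, 5, 62), (2, 26, 83), (2, 6, 12), (3, 13, 89), (3, 17, 17), (2, 17, 34), (2, 23, 23), (19, 2, 50), (2, 7, 7), (3, 7, 45)] (by decide +kernel)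

/-- Base level 132. -/
theorem rigid_132 : Rigid 132 [[6, 36, 102, 120], [10, 44, 92, 118], [14, 76, 80, 94], [22, 55, 88, 99], [3, 15, 24, 27, 99, 111, 123, 126]] :=
  Cert.rigid_of_check 132 [[6, 36, 102, 120], [10, 44, 92, 118], [14, 76, 80, 94], [22, 55, 88, 99], [3, 15, 24, 27, 99, 111, 123, 126]] [2, 6, 8, 12, 14, 17, 18, 19, 23, 24, 26, 39, 45, 48, 51, 53, 55, 56, 57, 59] [(2, 0, 66), (2, 18, 36), (2, 24, 90), (2, 21, 21), (2, 9, 9), (2, 12, 78), (2, 6, 72), (0, 0, 102), (3, 8, 52), (2, 26, 92), (3, 18, 62), (2, 4, 4), (2, 2, 68), (3, 2, 46), (2, 20, 20), (2, 10, 10), (3, 12, 100), (2, 32, 98), (2, 14, 28), (3, 14, 58), (0, 1, 44), (0, 2, 94), (3, 6, 50), (2, 16, 16), (2, 22, 22), (2, 11, 11), (0, 3, 99), (2, 13, 13), (2, 27, 27), (3, 13, 101), (2, 31, 97), (2, 15, 15), (0, 4, 3), (2, 3, 69), (2, 7, 7), (3, 15, 103), (2, 29, 95), (2, 19, 85), (3, 19, 107), (2, 25, 91), (2, 23, 89),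 (3, 21, 65), (2, 1, 1), (2, 17, 83), (3, 17, 61), (11, 5, 5)] (by decide +kernel)

/-- Base level 140. -/
theorem rigid_140 : Rigid 140 [[2, 40, 48, 84, 122, 124], [7, 28, 119, 126], [7, 56, 91, 126], [25, 65, 85, 105]] :=
  Cert.rigid_of_check 140 [[2, 40, 48, 84, 122, 124], [7, 28, 119, 126], [7, 56, 91, 126], [25, 65, 85, 105]] [1, 2, 6, 8, 9, 12, 17, 18, 20, 22, 23, 24, 26, 35, 36, 45, 49, 51, 57, 59, 62, 65, 67, 68] [(2, 0, 70), (2, 9, 79), (2, 18, 88), (2, 26, 96), (2, 34, 34), (2, 22, 92), (2, 2, 4), (2, 11, 11), (2, 1, 71), (2, 24, 94), (2, 13, 13), (2, 17, 87), (2, 12, 82), (2, 23, 93), (2, 4, 74), (2, 6, 76), (5, 8, 40), (2, 20, 90), (2, 8, 16), (5, 6, 30), (2, 30, 60), (2, 10, 10), (5, 4, 32), (2, 32, 102), (5, 2, 86), (0, 0, 84), (7, 4, 28), (2, 14, 14), (2, 28, 98), (2, 21, 21), (0, 2, 7), (2, 7, 77), (2, 5, 5), (2, 25, 25), (2, 19, 19), (5, 5, 33), (2, 33, 103), (2, 3, 3),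 (7, 7, 27), (2, 27, 97), (0, 3, 85), (2, 15, 15), (5, 1, 29), (5, 11, 39), (2, 31, 31), (7, 1, 41)] (by decide +kernel)

/-- Base level 156. -/
theorem rigid_156 : Rigid 156 [[2, 88, 110, 112], [8, 58, 106, 140], [2, 40, 118, 152], [4, 14, 146, 148], [22, 50, 112, 128], [3, 15, 51, 87, 99, 108, 123, 138], [26, 65, 104, 117]] :=
  Cert.rigid_of_check 156 [[2, 88, 110, 112], [8, 58, 106, 140], [2, 40, 118, 152], [4, 14, 146, 148], [22, 50, 112, 128], [3, 15, 51, 87, 99, 108, 123, 138], [26, 65, 104, 117]] [1, 9, 11, 12, 17, 18, 21, 28, 31, 32, 36, 42, 48, 49, 50, 52, 54, 55, 58, 59, 62, 63, 65, 71] [(2, 0, 78), (2, 18, 96), (2, 36, 72), (2, 26, 26), (2, 13, 13), (0, 6, 117), (2, 6, 6), (3, 6, 110), (2, 32, 64), (3, 20, 20), (2, 20, 40), (2, 30, 30), (2, 16, 16), (3, 10, 10), (2, 10, 88), (0, 1, 8), (2, 8, 86), (2, 24, 24), (3, 2, 2), (3, 18, 122), (2, 34, 112), (2, 12, 90), (2, 14, 14), (2,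 28, 56), (3, 24, 76), (0, 4, 22), (3, 22, 74), (2, 4, 4), (0, 2, 118), (2, 23, 23), (2, 7, 7), (2, 15, 15), (2, 29, 29), (2, 9, 87), (3, 3, 3), (2, 3, 81), (2, 21, 99), (2, 19, 19), (3, 7, 111), (2, 33, 33), (0, 5, 51), (2, 27, 27), (2, 17, 95), (3, 17, 121), (2, 35, 113), (2, 31, 109), (3, 21, 73), (2, 5, 5), (2, 11, 89), (3, 11, 115), (2, 37, 37), (2, 1, 79), (3, 1, 53), (13, 1, 25)] (by decide +kernel)

/-- Base level 204. -/
theorem rigid_204 : Rigid 204 [[17, 68, 153, 170], [2, 26, 40, 124, 136, 144, 146, 198], [10, 112, 122, 164], [27, 48, 60, 63, 78, 87, 99, 111, 147, 150, 171, 183]] :=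
  Cert.rigid_of_check 204 [[17, 68, 153, 170], [2, 26, 40, 124, 136, 144, 146, 198], [10, 112, 122, 164], [27, 48, 60, 63, 78, 87, 99, 111, 147, 150, 171, 183]] [4, 12, 13, 14, 15, 20, 21, 27, 28, 29, 32, 36, 40, 44, 51, 52, 53, 60, 63, 64, 65, 68, 69, 77, 79, 80, 91, 93, 95, 96, 98, 101] [(2, 0, 102), (2, 7, 7), (2, 14, 116), (2, 34, 34), (0, 0, 17), (2, 17, 119), (2, 44, 146), (2, 22, 22), (2, 29, 131), (2, 11, 11), (2, 32, 134), (2, 40, 142), (2, 20, 122), (3, 28, 84), (2, 42, 42), (3, 20, 156), (2, 48, 150), (3, 16, 16), (2, 16, 118), (2, 18, 18), (3, 32, 100), (2, 50, 50), (2, 6, 6), (3, 12, 148), (2, 28, 130), (2, 2, 2), (3, 4, 72), (2, 30, 30), (2, 36, 138), (0, 1, 26), (2, 26, 128), (2, 38, 38), (2, 4, 8), (3, 30, 90), (2, 12, 24), (3, 22, 158), (2, 46, 92), (2, 10, 10), (3, 10, 78), (17, 2, 110), (2, 9, 9), (2, 39, 39), (2, 15, 117), (3, 5, 5), (2, 5, 107), (2, 25, 25), (2, 27,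 129), (3, 9, 145), (2, 43, 43), (2, 21, 123), (3, 7, 143), (2, 41, 41), (2, 13, 115), (3, 13, 149), (2, 47, 47), (2, 23, 23), (2, 33, 33), (3, 23, 159), (2, 45, 147), (0, 3, 99), (2, 3, 3), (2, 49, 49), (3, 15, 83), (2, 19, 19), (2, 37, 37), (3, 3, 71), (2, 31, 31), (2, 1, 1), (3, 33, 169), (17, 5, 137)] (by decide +kernel)

/-- Base level 210. -/
theorem rigid_210 : Rigid 210 [[5, 30, 190, 195], [5, 75, 160, 180], [5, 30, 185, 200], [5, 55, 160, 200], [10, 40, 180, 190], [10, 90, 125, 195], [27, 66, 156, 171], [3, 60, 72, 126, 183, 186], [7, 84, 140, 189], [21, 70, 161, 168], [21, 91, 140, 168], [21, 126, 133, 140], [16, 121, 137, 146]] :=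
  Cert.rigid_of_check 210 [[5, 30, 190, 195], [5, 75, 160, 180], [5, 30, 185, 200], [5, 55, 160, 200], [10, 40, 180, 190], [10, 90, 125, 195], [27, 66, 156, 171], [3, 60, 72, 126, 183, 186], [7, 84, 140, 189], [21, 70, 161, 168], [21, 91, 140, 168], [21, 126, 133, 140], [16, 121, 137, 146]] [3, 4, 12, 15, 17, 18, 20, 27, 40, 54, 55, 56, 57, 67, 70, 71, 72, 81, 89, 94, 95, 101, 102, 103] [(2, 0, 105), (2, 10, 10), (2, 20, 125), (0, 4, 180), (2, 15, 120), (0, 0, 5), (2, 5, 110), (0, 2, 185), (2, 50, 50), (3, 15, 45), (2, 45, 150), (3, 25, 75), (3, 5, 145), (2, 40, 80), (2, 35, 35), (2, 51, 51), (2, 3, 6), (2, 27, 132), (2, 6, 111), (5, 12, 96), (2, 48, 48), (5, 15, 141), (2, 36, 36), (2, 24, 24), (2, 12, 117), (0, 7, 126), (2, 9, 9), (2, 18, 123), (5, 18, 144), (7, 12, 42), (2, 21, 21), (2, 42, 147), (0, 8, 7), (0, 9, 161), (0, 10, 91), (0, 11, 133), (2, 33, 33), (2, 39, 39), (2, 28, 28),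 (2, 49, 98), (3, 14, 14), (3, 33, 173), (2, 2, 2), (3, 4, 74), (2, 37, 142), (2, 34, 34), (3, 1, 1), (2, 1, 106), (2, 17, 122), (3, 17, 157), (2, 52, 52), (2, 4, 8), (3, 31, 31), (2, 31, 62), (3, 3, 73), (5, 17, 59), (3, 11, 11), (2, 11, 22), (3, 24, 164), (5, 10, 178), (2, 32, 64), (3, 32, 172), (2, 38, 76), (5, 8, 92), (7, 2, 152), (2, 29, 29), (2, 47, 47), (3, 12, 82), (3, 23, 23), (3, 29, 169), (2, 16, 16), (3, 19, 19), (5, 5, 131), (7, 1, 61), (2, 44, 44), (2, 22, 127), (3, 26, 26), (5, 2, 86), (2, 43, 43), (3, 27, 97), (7, 13, 13)] (by decide +kernel)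

end Pool.Agent.FT
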