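import Pool.Agent.Lib_helper78.FT.Defs

/-! # A verified checker for base levels

`Cert.check m E K steps` propagates zeros of an odd distribution of level `m` which kills the tuples
in `E` and vanishes on `K`.  A step `(p, y, t)` uses the distribution relation of the prime `p` at
`y` (or, if `p = 0`, the tuple number `y` of `E`); all its terms but `t` are already known to
vanish. -/

set_option autoImplicit false

namespace Pool.Agent.FT

theorem OddDist.refl {m : ℕ} {Q : Type*} [AddCommGroup Q] {f : ℤ → Q} (h : OddDist m f) (x : ℤ) :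
    f (m - x) = - f x := by
  rw [← h.neg, ← h.per (-x)]
  congr 1
  ring

theorem OddDist.half {m : ℕ} {Q : Type*} [AddCommGroup Q] {f : ℤ → Q} (h : OddDist m f) {n : ℕ}
    (hn : m = 2 * n) : f n = 0 := by
  have := h.dist 2 Nat.prime_two n hn 0
  simpa [Finset.sum_range_succ] using this

theorem OddDist.per_mul {m : ℕ} {Q : Type*} [AddCommGroup Q] {f : ℤ → Q} (h : OddDist m f)
    (x : ℤ) (k : ℕ) : f (x + m * k) = f x := by
  induction k with
  | zero => simp
  | succ k ih =>
    rw [← ih, ← h.per (x + m * k)]
    congr 1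
    push_cast
    ring

theorem OddDist.emod {m : ℕ} {Q : Type*} [AddCommGroup Q] {f : ℤ → Q} (h : OddDist m f)
    (x : ℤ) : f (x % m) = f x := by
  have hx := Int.emod_add_mul_ediv x m
  rcases le_or_gt 0 (x / m) with h0 | h0
  · obtain ⟨k, hk⟩ := Int.eq_ofNat_of_zero_le h0
    rw [hk] at hx
    conv_rhs => rw [← hx]
    exact (h.per_mul _ k).symm
  · obtain ⟨k, hk⟩ := Int.eq_ofNat_of_zero_le (by omega : 0 ≤ -(x / m))
    have h2 : x % m = x + m * k := by
      rw [← hk]; linear_combination hx
    rw [h2]
    exact h.per_mul x k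

theorem OddDist.all_zero {m : ℕ} {Q : Type*} [AddCommGroup Q] {f : ℤ → Q} (h : OddDist m f)
    (hm : 0 < m) (h2 : ∀ a : ℤ, 0 ≤ a → a < m → f a = 0) : ∀ x, f x = 0 := by
  intro x
  rw [← h.emod]
  exact h2 _ (Int.emod_nonneg _ (by positivity)) (Int.emod_lt_of_pos _ (by positivity))

namespace Cert

/-- The terms of the distribution relation of `p` at `y`, the right side being the last one. -/
def terms (m p y : ℕ) : List ℕ :=
  (List.range p).map (fun j => (y + j * (m / p)) % m)

/-- Primality of small numbers. -/
def primeList : List ℕ := [2, 3, 5, 7, 11, 13, 17, 19]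

theorem prime_of_mem {p : ℕ} (h : primeList.contains p = true) : p.Prime := by
  have h' : p ∈ primeList := by simpa using h
  simp only [primeList, List.mem_cons, List.not_mem_nil, or_false] at h'
  rcases h' with rfl | rfl | rfl | rfl | rfl | rfl | rfl | rfl <;> norm_num

/-- One step. -/
def stepOk (m : ℕ) (E : List (List ℕ)) (p y t Z : ℕ) : Bool :=
  match p with
  | 0 => (E.getD y []).filter (fun a => !Z.testBit a) == [t] && decide (t ≤ m)
  | _ => primeList.contains p && (m % p == 0) &&
      ((terms m p y ++ [(p * y) % m]).filter (fun a => !Z.testBit a) == [t]) && decide (t ≤ m)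

def run (m : ℕ) (E : List (List ℕ)) : List (ℕ × ℕ × ℕ) → ℕ → ℕ
  | [], Z => Z
  | (p, y, t) :: s, Z =>
    if stepOk m E p y t Z then run m E s ((Z ||| 2 ^ t) ||| 2 ^ (m - t)) else 0

def init (m : ℕ) : List ℕ → ℕ
  | [] => 1
  | k :: K => (init m K ||| 2 ^ k) ||| 2 ^ (m - k)

def check (m : ℕ) (E : List (List ℕ)) (K : List ℕ) (steps : List (ℕ × ℕ × ℕ)) : Bool :=
  decide (0 < m) && K.all (fun k => decide (k ≤ m)) && decide (2 * K.length ≤ m.totient) &&
    (List.range m).all (fun a => (run m E steps (init m K)).testBit a)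

/-- All numbers whose bit in `Z` is set are zeros of `f`. -/
def Inv {Q : Type*} [AddCommGroup Q] (f : ℤ → Q) (Z : ℕ) : Prop :=
  ∀ a : ℕ, Z.testBit a = true → f (a : ℤ) = 0

theorem Inv.insert {Q : Type*} [AddCommGroup Q] {m : ℕ} {f : ℤ → Q} (h : OddDist m f) {Z : ℕ}
    (hZ : Inv f Z) {t : ℕ} (ht : f (t : ℤ) = 0) (htm : t ≤ m) :
    Inv f ((Z ||| 2 ^ t) ||| 2 ^ (m - t)) := by
  intro a ha
  rw [Nat.testBit_or, Nat.testBit_or, Bool.or_eq_true, Bool.or_eq_true, Nat.testBit_two_pow,
    Nat.testBit_two_pow] at ha
  rcases ha with (ha | ha) | ha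
  · exact hZ a ha
  · have h2 : t = a := by simpa using ha
    rw [← h2]; exact ht
  · have h2 : m - t = a := by simpa using ha
    rw [← h2, Nat.cast_sub htm, h.refl, ht, neg_zero]

theorem inv_init {Q : Type*} [AddCommGroup Q] {m : ℕ} {f : ℤ → Q} (h : OddDist m f) :
    ∀ K : List ℕ, (∀ k ∈ K, k ≤ m) → (∀ k ∈ K, f (k : ℤ) = 0) → Inv f (init m K) := by
  intro K
  induction K with
  | nil =>
    intro _ _ a ha
    have h2 : a = 0 := by
      by_contra h3
      have h4 : Nat.testBit 1 a = false := by
        have := Nat.testBit_two_pow (n := 0) (m := a)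
        rw [pow_zero] at this
        rw [this]
        simp only [decide_eq_false_iff_not]
        exact fun h5 => h3 h5.symm
      simp [init, h4] at ha
    rw [h2]
    exact_mod_cast h.zero
  | cons k K ih =>
    intro h1 h2
    exact Inv.insert h (ih (fun x hx => h1 x (by simp [hx])) (fun x hx => h2 x (by simp [hx])))
      (h2 k (by simp)) (h1 k (by simp))

theorem sum_eq_of_filter {Q : Type*} [AddCommGroup Q] {f : ℤ → Q} {Z : ℕ} (hZ : Inv f Z) :
    ∀ L : List ℕ, (L.map (fun a : ℕ => f (a : ℤ))).sum =
      ((L.filter (fun a => !Z.testBit a)).map (fun a : ℕ => f (a : ℤ))).sum := by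
  intro L
  induction L with
  | nil => simp
  | cons a L ih =>
    cases hb : Z.testBit a with
    | false =>
      rw [List.filter_cons_of_pos (by simp [hb])]
      simp only [List.map_cons, List.sum_cons, ih]
    | true =>
      rw [List.filter_cons_of_neg (by simp [hb])]
      simp only [List.map_cons, List.sum_cons, ih, hZ a hb, zero_add]

theorem sum_terms {Q : Type*} [AddCommGroup Q] {m : ℕ} {f : ℤ → Q} (h : OddDist m f) {p y : ℕ}
    (hp : p.Prime) (hpm : m % p = 0) :
    ((terms m p y).map (fun a : ℕ => f (a : ℤ))).sum = f ((((p * y) % m : ℕ)) : ℤ) := by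
  have h1 : m = p * (m / p) := (Nat.mul_div_cancel' (Nat.dvd_of_mod_eq_zero hpm)).symm
  have h2 := h.dist p hp (m / p) h1 y
  have h3 : f ((((p * y) % m : ℕ)) : ℤ) = f ((p : ℤ) * y) := by
    rw [← h.emod ((p : ℤ) * y)]
    congr 1
  have h4 : ∀ g : ℕ → Q, ((List.range p).map g).sum = ∑ j ∈ Finset.range p, g j := by
    intro g
    rw [Finset.sum_eq_multiset_sum, Finset.range_val, ← Multiset.coe_range, Multiset.map_coe,
      Multiset.sum_coe]
  rw [h3, ← h2, terms, List.map_map, h4]
  apply Finset.sum_congr rfl
  intro j _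
  simp only [Function.comp_apply]
  rw [← h.emod ((y : ℤ) + j * ((m / p : ℕ) : ℤ))]
  congr 1

theorem inv_run {Q : Type*} [AddCommGroup Q] {m : ℕ} {f : ℤ → Q} (h : OddDist m f)
    (E : List (List ℕ)) (hE : ∀ e ∈ E, (e.map (fun a : ℕ => f (a : ℤ))).sum = 0) :
    ∀ (steps : List (ℕ × ℕ × ℕ)) (Z : ℕ), Inv f Z → Inv f (run m E steps Z) := by
  intro steps
  induction steps with
  | nil => intro Z hZ; exact hZ
  | cons s steps ih =>
    intro Z hZ
    obtain ⟨p, y, t⟩ := s
    rw [run]
    split_ifs with hs
    · apply ih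
      cases p with
      | zero =>
        simp only [stepOk, Bool.and_eq_true, beq_iff_eq, decide_eq_true_eq] at hs
        apply Inv.insert h hZ _ hs.2
        have h5 : ((E.getD y []).map (fun a : ℕ => f (a : ℤ))).sum = 0 := by
          rcases lt_or_ge y E.length with hy | hy
          · rw [List.getD_eq_getElem _ _ hy]
            exact hE _ (List.getElem_mem hy)
          · rw [List.getD_eq_default _ _ hy]
            simp
        rw [sum_eq_of_filter hZ, hs.1] at h5
        simpa using h5
      | succ p =>
        simp only [stepOk, Bool.and_eq_true, beq_iff_eq, decide_eq_true_eq] at hs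
        obtain ⟨⟨⟨h1, h2⟩, h3⟩, h4⟩ := hs
        have hp := prime_of_mem h1
        have h5 := sum_terms h (y := y) hp h2
        apply Inv.insert h hZ _ h4
        rw [List.filter_append] at h3
        rw [sum_eq_of_filter hZ] at h5
        rcases List.append_eq_singleton_iff.1 h3 with ⟨h6, h7⟩ | ⟨h6, h7⟩
        · rw [h6] at h5
          have h8 : ((p + 1) * y) % m = t := by
            by_cases hb : Z.testBit (((p + 1) * y) % m) = true
            · rw [List.filter_cons_of_neg (by simp [hb])] at h7
              simp at h7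
            · rw [List.filter_cons_of_pos (by simpa using hb)] at h7
              simpa using h7
          rw [h8] at h5
          simpa using h5.symm
        · rw [h6] at h5
          have h8 : f ((((p + 1) * y) % m : ℕ) : ℤ) = 0 := by
            by_cases hb : Z.testBit (((p + 1) * y) % m) = true
            · exact hZ _ hb
            · rw [List.filter_cons_of_pos (by simpa using hb)] at h7
              simp at h7
          rw [h8] at h5
          simpa using h5
    · intro a ha
      simp at ha

theorem rigid_of_check (m : ℕ) (E : List (List ℕ)) (K : List ℕ) (steps : List (ℕ × ℕ × ℕ))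
    (hc : check m E K steps = true) :
    Rigid m (E.map fun e => e.map fun a : ℕ => (a : ℤ)) := by
  simp only [check, Bool.and_eq_true, decide_eq_true_eq, List.all_eq_true, List.mem_range] at hc
  obtain ⟨⟨⟨h1, h2⟩, h3⟩, h4⟩ := hc
  refine ⟨(K.map fun k : ℕ => (k : ℤ)).toFinset, ?_, ?_⟩
  · have h5 := List.toFinset_card_le (K.map fun k : ℕ => (k : ℤ))
    rw [List.length_map] at h5
    omega
  · intro Q _ f h hE hK
    have hI : Inv f (run m E steps (init m K)) := by
      apply inv_run h
      · intro e he
        have h6 := hE (e.map fun a : ℕ => (a : ℤ)) (List.mem_map.2 ⟨e, he, rfl⟩)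
        rw [List.map_map] at h6
        exact h6
      · exact inv_init h K h2 (fun k hk => hK _ (by simpa using hk))
    refine h.all_zero h1 ?_
    intro a h0 ha
    obtain ⟨b, rfl⟩ := Int.eq_ofNat_of_zero_le h0
    exact hI b (h4 b (by exact_mod_cast ha))

end Cert

end Pool.Agent.FT
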