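import Pool.Agent.Lib_helper78.FT.Defs
import Pool.Agent.Lib_helper15.FT_E

/-! # The characters of Hodge type form a cycle system -/

set_option autoImplicit false

namespace Pool.Agent.FT

/-- The characters of Hodge type (of some degree). -/
def HodgeAll (s : Multiset ℚ) : Prop :=
  IsChar s ∧ ∃ m : ℕ, 0 < m ∧ HasDegree m s ∧ TateType m s

lemma sum_map_one_sub {α : Type*} (s : Multiset α) (f : α → ℚ) :
    (s.map fun a => 1 - f a).sum = (s.card : ℚ) - (s.map f).sum := by
  induction s using Multiset.induction_on with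
  | empty => simp
  | cons a s ih =>
    simp only [Multiset.map_cons, Multiset.sum_cons, Multiset.card_cons, ih]
    push_cast
    ring

lemma hodge_join : JoinClosed HodgeAll := by
  rintro s t ⟨⟨hs1, ks, hs2⟩, m, hm, hsd, hst⟩ ⟨⟨ht1, kt, ht2⟩, n, hn, htd, htt⟩
  refine ⟨⟨?_, ks + kt, ?_⟩, m * n, Nat.mul_pos hm hn, ?_, ?_⟩
  · intro a ha
    rcases Multiset.mem_add.1 ha with h | h
    · exact hs1 a h
    · exact ht1 a h
  · rw [Multiset.sum_add, hs2, ht2]; push_cast; ring
  · intro a ha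
    rcases Multiset.mem_add.1 ha with h | h
    · obtain ⟨k, hk⟩ := hsd a h
      exact ⟨n * k, by push_cast; rw [← hk]; ring⟩
    · obtain ⟨k, hk⟩ := htd a h
      exact ⟨m * k, by push_cast; rw [← hk]; ring⟩
  · intro u hu
    have h1 : u.Coprime m := Nat.Coprime.coprime_dvd_right (dvd_mul_right m n) hu
    have h2 : u.Coprime n := Nat.Coprime.coprime_dvd_right (dvd_mul_left n m) hu
    rw [Multiset.map_add, Multiset.sum_add, hst u h1, htt u h2, Multiset.card_add]
    push_cast
    ring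

lemma hodge_conj : ConjClosed HodgeAll := by
  rintro s ⟨⟨hs1, ks, hs2⟩, m, hm, hsd, hst⟩
  refine ⟨⟨?_, s.card - ks, ?_⟩, m, hm, ?_, ?_⟩
  · intro a ha
    obtain ⟨b, hb, rfl⟩ := Multiset.mem_map.1 ha
    have := hs1 b hb
    constructor <;> linarith
  · rw [sum_map_one_sub s (fun a => a)]
    have : (s.map fun a => a) = s := by simp
    rw [this, hs2]
    push_cast
    ring
  · intro a ha
    obtain ⟨b, hb, rfl⟩ := Multiset.mem_map.1 ha
    obtain ⟨k, hk⟩ := hsd b hb
    exact ⟨m - k, by rw [mul_sub, hk]; push_cast; ring⟩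
  · intro u hu
    rw [Multiset.map_map, Multiset.card_map]
    have h1 : (s.map ((fun a => Int.fract ((u : ℚ) * a)) ∘ fun a => 1 - a)).sum
        = (s.map fun a => 1 - Int.fract ((u : ℚ) * a)).sum := by
      congr 1
      apply Multiset.map_congr rfl
      intro a ha
      obtain ⟨k, hk⟩ := hsd a ha
      exact fract_mul_one_sub hu (hs1 a ha).1 (hs1 a ha).2 hk
    rw [h1, sum_map_one_sub s (fun a => Int.fract ((u : ℚ) * a)), hst u hu]
    ring

lemma hodge_cancel : PairCancel HodgeAll := by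
  rintro s a h0 h1 ⟨⟨hs1, ks, hs2⟩, m, hm, hsd, hst⟩
  have hma : a ∈ s + {a, 1 - a} := by simp
  obtain ⟨k, hk⟩ := hsd a hma
  refine ⟨⟨?_, ks - 1, ?_⟩, m, hm, ?_, ?_⟩
  · intro b hb
    exact hs1 b (Multiset.mem_add.2 (Or.inl hb))
  · rw [Multiset.sum_add] at hs2
    simp only [Multiset.insert_eq_cons, Multiset.sum_cons, Multiset.sum_singleton] at hs2
    push_cast
    linarith
  · intro b hb
    exact hsd b (Multiset.mem_add.2 (Or.inl hb))
  · intro u hu
    have h2 := hst u hu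
    rw [Multiset.map_add, Multiset.sum_add, tateType_pair h0 h1 hk u hu, Multiset.card_add] at h2
    push_cast at h2 ⊢
    linarith

lemma hodge_surface : ContainsSurfaces HodgeAll := by
  intro m s hm h1 h2 h3 _
  exact ⟨h1, m, hm, h2, h3⟩

lemma fract_pos_of_ne {x : ℚ} (h : ∀ l : ℤ, x ≠ l) : 0 < Int.fract x ∧ Int.fract x < 1 := by
  refine ⟨lt_of_le_of_ne (Int.fract_nonneg x) ?_, Int.fract_lt_one x⟩
  intro h0
  obtain ⟨l, hl⟩ := Int.fract_eq_zero_iff.1 h0.symm
  exact h l hl.symm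

lemma fract_mul_fract (u : ℕ) (x : ℚ) :
    Int.fract ((u : ℚ) * Int.fract x) = Int.fract ((u : ℚ) * x) := by
  have h : (u : ℚ) * x = (u : ℚ) * Int.fract x + ((u * ⌊x⌋ : ℤ) : ℚ) := by
    have := Int.fract_add_floor x
    push_cast
    linear_combination (-(u : ℚ)) * this
  rw [h, Int.fract_add_intCast]

lemma hodge_aoki : ContainsAoki HodgeAll := by
  intro p hp hp5 a h0 h1 hna
  have hp0 : (0 : ℚ) < p := by exact_mod_cast hp.pos
  have hna' : ∀ l : ℤ, (p : ℚ) * a ≠ l := fun l hl => hna ⟨l, hl⟩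
  have hneg : ∀ l : ℤ, -((p : ℚ) * a) ≠ l := fun l hl => hna' (-l) (by push_cast; rw [← hl]; ring)
  have hj : ∀ j : ℕ, ∀ l : ℤ, a + (j : ℚ) / p ≠ l := by
    intro j l hl
    apply hna' (p * l - j)
    push_cast
    rw [← hl]
    field_simp
    ring
  have hden : ((a.den : ℕ) : ℚ) * a = ((a.num : ℤ) : ℚ) := by
    rw [mul_comm]; exact_mod_cast Rat.mul_den_eq_num a
  have hodd : ∃ c : ℤ, (p : ℤ) = 2 * c + 1 := by
    obtain ⟨c, hc⟩ := hp.odd_of_ne_two (by omega)
    exact ⟨c, by exact_mod_cast hc⟩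
  have hkey : ∀ u : ℕ, u.Coprime (p * a.den) →
      (((Multiset.range p).map (fun j : ℕ => Int.fract (a + (j : ℚ) / p)) +
        {Int.fract (-((p : ℚ) * a))}).map fun b => Int.fract ((u : ℚ) * b)).sum =
        ((p : ℚ) + 1) / 2 := by
    intro u hu
    have hup : u.Coprime p := Nat.Coprime.coprime_dvd_right (dvd_mul_right _ _) hu
    have hud : u.Coprime a.den := Nat.Coprime.coprime_dvd_right (dvd_mul_left _ _) hu
    rw [Multiset.map_add, Multiset.sum_add, Multiset.map_map, Multiset.map_singleton,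
      Multiset.sum_singleton]
    have e1 : ((Multiset.range p).map ((fun b => Int.fract ((u : ℚ) * b)) ∘
        fun j : ℕ => Int.fract (a + (j : ℚ) / p))).sum
        = ∑ j ∈ Finset.range p, Int.fract ((u : ℚ) * a + (u : ℚ) * ((j : ℚ) / p)) := by
      have : ((Multiset.range p).map ((fun b => Int.fract ((u : ℚ) * b)) ∘
        fun j : ℕ => Int.fract (a + (j : ℚ) / p))).sum
          = ∑ j ∈ Finset.range p, Int.fract ((u : ℚ) * Int.fract (a + (j : ℚ) / p)) := rfl
      rw [this]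
      refine Finset.sum_congr rfl fun j _ => ?_
      rw [fract_mul_fract, mul_add]
    rw [e1, BE.sum_fract_mul p hp u hup, fract_mul_fract]
    have e2 : (u : ℚ) * -((p : ℚ) * a) = -((p : ℚ) * ((u : ℚ) * a)) := by ring
    rw [e2, Int.fract_neg]
    · ring
    · intro h3
      obtain ⟨l, hl⟩ := Int.fract_eq_zero_iff.1 h3
      -- `u * (p * a)` is not an integer
      have hc : IsCoprime (u : ℤ) (a.den : ℤ) := Nat.isCoprime_iff_coprime.2 hud
      obtain ⟨v, w, hvw⟩ := hc
      apply hna' (v * l + w * (p * a.num))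
      have h2 : ((v * u + w * (a.den : ℤ) : ℤ) : ℚ) = 1 := by rw [hvw]; norm_num
      push_cast at h2 ⊢
      rw [hl, ← hden]
      linear_combination (-(p : ℚ) * a) * h2
  have hcard : (((Multiset.range p).map (fun j : ℕ => Int.fract (a + (j : ℚ) / p)) +
        {Int.fract (-((p : ℚ) * a))}).card : ℚ) = (p : ℚ) + 1 := by
    rw [Multiset.card_add, Multiset.card_map, Multiset.card_range, Multiset.card_singleton]
    push_cast
    ring
  have hmem : ∀ b ∈ (Multiset.range p).map (fun j : ℕ => Int.fract (a + (j : ℚ) / p)) +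
        {Int.fract (-((p : ℚ) * a))}, 0 < b ∧ b < 1 := by
    intro b hb
    rcases Multiset.mem_add.1 hb with h | h
    · obtain ⟨j, _, rfl⟩ := Multiset.mem_map.1 h
      exact fract_pos_of_ne (hj j)
    · rw [Multiset.mem_singleton] at h
      subst h
      exact fract_pos_of_ne hneg
  refine ⟨⟨hmem, ?_⟩, p * a.den, Nat.mul_pos hp.pos a.pos, ?_, ?_⟩
  · obtain ⟨c, hc⟩ := hodd
    refine ⟨c + 1, ?_⟩
    have h2 := hkey 1 (Nat.coprime_one_left _)
    have h3 : ((Multiset.range p).map (fun j : ℕ => Int.fract (a + (j : ℚ) / p)) +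
        {Int.fract (-((p : ℚ) * a))}).map (fun b => Int.fract (((1 : ℕ) : ℚ) * b))
        = (Multiset.range p).map (fun j : ℕ => Int.fract (a + (j : ℚ) / p)) +
        {Int.fract (-((p : ℚ) * a))} := by
      conv_rhs => rw [← Multiset.map_id ((Multiset.range p).map
        (fun j : ℕ => Int.fract (a + (j : ℚ) / p)) + {Int.fract (-((p : ℚ) * a))})]
      apply Multiset.map_congr rfl
      intro b hb
      obtain ⟨h4, h5⟩ := hmem b hb
      rw [Nat.cast_one, one_mul, id_eq, Int.fract_eq_self]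
      exact ⟨h4.le, h5⟩
    rw [h3] at h2
    rw [h2]
    have h4 : (p : ℚ) = 2 * c + 1 := by exact_mod_cast hc
    rw [h4]
    push_cast
    ring
  · intro b hb
    rcases Multiset.mem_add.1 hb with h | h
    · obtain ⟨j, _, rfl⟩ := Multiset.mem_map.1 h
      refine ⟨p * a.num + a.den * j - p * a.den * ⌊a + (j : ℚ) / p⌋, ?_⟩
      have := Int.fract_add_floor (a + (j : ℚ) / p)
      have h6 : Int.fract (a + (j : ℚ) / p) = (a + (j : ℚ) / p) - ⌊a + (j : ℚ) / p⌋ := by
        linear_combination this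
      rw [h6]
      push_cast
      rw [← hden]
      field_simp
    · rw [Multiset.mem_singleton] at h
      subst h
      refine ⟨-(p * (p * a.num)) - p * a.den * ⌊-((p : ℚ) * a)⌋, ?_⟩
      have := Int.fract_add_floor (-((p : ℚ) * a))
      have h6 : Int.fract (-((p : ℚ) * a)) = -((p : ℚ) * a) - ⌊-((p : ℚ) * a)⌋ := by
        linear_combination this
      rw [h6]
      push_cast
      rw [← hden]
      ring
  · intro u hu
    rw [hkey u hu, hcard]

/-- The characters of Hodge type form a cycle system. -/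
theorem hodge_cycleSystem : CycleSystem HodgeAll :=
  ⟨hodge_join, hodge_conj, hodge_cancel, hodge_surface, hodge_aoki⟩

/-- Being of Hodge type does not depend on the degree. -/
theorem TateType.change {m n : ℕ} (hm : 0 < m) (hn : 0 < n) {s : Multiset ℚ}
    (h1 : HasDegree m s) (h2 : HasDegree n s) (h : TateType m s) : TateType n s := by
  intro u hu
  have hg : 0 < Nat.gcd m n := Nat.gcd_pos_of_pos_left n hm
  -- lift `u` modulo `gcd m n` to a unit modulo `m`
  have hug : u.Coprime (Nat.gcd m n) := Nat.Coprime.coprime_dvd_right (Nat.gcd_dvd_right m n) hu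
  haveI : NeZero m := ⟨hm.ne'⟩
  haveI : NeZero (Nat.gcd m n) := ⟨hg.ne'⟩
  obtain ⟨v, hv⟩ := ZMod.unitsMap_surjective (Nat.gcd_dvd_left m n) (ZMod.unitOfCoprime u hug)
  have hvm : ((v : ZMod m).val).Coprime m := ZMod.val_coe_unit_coprime v
  have hcong : (((v : ZMod m).val : ℕ) : ZMod (Nat.gcd m n)) = ((u : ℕ) : ZMod (Nat.gcd m n)) := by
    have h3 := congrArg Units.val hv
    rw [ZMod.coe_unitOfCoprime] at h3
    rw [← h3]
    rw [ZMod.unitsMap_val]
    simp [ZMod.natCast_val]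
  have hcong' : ((Nat.gcd m n : ℕ) : ℤ) ∣ (u : ℤ) - ((v : ZMod m).val : ℕ) := by
    have h3 : (((u : ℤ) - ((v : ZMod m).val : ℕ) : ℤ) : ZMod (Nat.gcd m n)) = 0 := by
      push_cast
      rw [hcong, sub_self]
    exact (ZMod.intCast_zmod_eq_zero_iff_dvd _ _).1 h3
  obtain ⟨w, hw⟩ := hcong'
  have h5 := h _ hvm
  rw [← h5]
  congr 1
  apply Multiset.map_congr rfl
  intro a ha
  obtain ⟨k, hk⟩ := h1 a ha
  obtain ⟨l, hl⟩ := h2 a ha
  -- `gcd m n * a` is an integer
  have hgcd : ((Nat.gcd m n : ℕ) : ℤ) = m * Nat.gcdA m n + n * Nat.gcdB m n := Nat.gcd_eq_gcd_ab m n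
  have h6 : ((u : ℚ)) * a = (((v : ZMod m).val : ℕ) : ℚ) * a +
      ((w * (Nat.gcdA m n * k + Nat.gcdB m n * l) : ℤ) : ℚ) := by
    have h7 : ((u : ℤ) : ℚ) - ((((v : ZMod m).val : ℕ) : ℤ) : ℚ) =
        ((m * Nat.gcdA m n + n * Nat.gcdB m n : ℤ) : ℚ) * w := by
      rw [← hgcd]; exact_mod_cast hw
    push_cast at h7 ⊢
    rw [← hk, ← hl]
    linear_combination a * h7
  rw [h6, Int.fract_add_intCast]

end Pool.Agent.FT
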