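import Pool.Agent.Lib_helper78.FT.Vanish

/-! # Block C, part 3: counting, and the induction step -/

set_option autoImplicit false

open Finset

namespace Pool.Agent.FT

lemma dvd_iff_full {g n : ℕ} (hg : g ≠ 0) (h : ∀ q : ℕ, q.Prime → q ∣ g → fp g q ∣ n) : g ∣ n := by
  rw [Nat.dvd_iff_prime_pow_dvd_dvd]
  intro q k hq hk
  rcases Nat.eq_zero_or_pos k with rfl | hk0
  · simp
  · have hqg : q ∣ g := (dvd_pow_self q hk0.ne').trans hk
    have h1 : q ^ k ∣ fp g q := by
      unfold fp
      exact pow_dvd_pow _ ((hq.pow_dvd_iff_le_factorization hg).1 hk)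
    exact h1.trans (h q hq hqg)

/-- The number of residues satisfying `TCond` is at most `φ(g)`. -/
lemma card_TCond (g : ℕ) (hg : g ≠ 0) [DecidablePred fun y : ℕ => TCond g (y : ℤ)] :
    ((range g).filter fun y : ℕ => TCond g (y : ℤ)).card ≤ g.totient := by
  classical
  have hex : ∀ y ∈ (range g).filter (fun y : ℕ => TCond g (y : ℤ)), ∃ u : ℕ,
      u ∈ (range g).filter (fun a => g.Coprime a) ∧
      ∀ q : ℕ, q.Prime → q ∣ g → ((q ∣ y ∧ u ≡ 1 [MOD fp g q]) ∨ (¬ q ∣ y ∧ u ≡ y [MOD fp g q])) := by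
    intro y hy
    rw [Finset.mem_filter, Finset.mem_range] at hy
    obtain ⟨hyg, hT⟩ := hy
    set d := Nat.gcd y g with hd
    have hdg : d ∣ g := Nat.gcd_dvd_right _ _
    have hdy : d ∣ y := Nat.gcd_dvd_left _ _
    have hd0 : d ≠ 0 := fun h0 => hg (by rw [h0] at hdg; exact zero_dvd_iff.1 hdg)
    obtain ⟨c, hc⟩ := hdg
    have hc0 : c ≠ 0 := by rintro rfl; simp at hc; exact hg hc
    -- full powers
    have hT' : ∀ q : ℕ, q.Prime → q ∣ g → q ∣ y → fp g q ∣ d := by
      intro q hq hqg hqy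
      rcases hT q hq hqg with h | ⟨h, _⟩
      · exact Nat.dvd_gcd (by exact_mod_cast h) (fp_dvd g q)
      · exact absurd (by exact_mod_cast hqy) h
    have hT2 : ∀ q : ℕ, q.Prime → q ∣ g → ¬ q ∣ y → fp g q ∣ c := by
      intro q hq hqg hqy
      have h1 : (fp g q).Coprime d := by
        unfold fp
        apply Nat.Coprime.pow_left
        rw [hq.coprime_iff_not_dvd]
        exact fun h => hqy (h.trans hdy)
      have h2 : fp g q ∣ d * c := hc ▸ fp_dvd g q
      exact h1.dvd_of_dvd_mul_left h2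
    have hco : c.Coprime d := by
      apply Nat.Coprime.symm
      apply Nat.coprime_of_dvd
      intro q hq hqd hqc
      have hqg : q ∣ g := by rw [hc]; exact hqd.mul_right _
      have h1 := hT' q hq hqg (hqd.trans hdy)
      -- v_q g = v_q d + v_q c > v_q d
      have h2 : g.factorization q = d.factorization q + c.factorization q := by
        rw [hc, Nat.factorization_mul hd0 hc0, Finsupp.add_apply]
      have h3 : 0 < c.factorization q := hq.factorization_pos_of_dvd hc0 hqc
      have h4 : g.factorization q ≤ d.factorization q := by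
        unfold fp at h1
        exact (hq.pow_dvd_iff_le_factorization hd0).1 h1
      omega
    obtain ⟨u, hu1, hu2⟩ := Nat.chineseRemainder hco y 1
    have huq : ∀ q : ℕ, q.Prime → q ∣ g →
        ((q ∣ y ∧ u ≡ 1 [MOD fp g q]) ∨ (¬ q ∣ y ∧ u ≡ y [MOD fp g q])) := by
      intro q hq hqg
      by_cases hqy : q ∣ y
      · exact Or.inl ⟨hqy, hu2.of_dvd (hT' q hq hqg hqy)⟩
      · exact Or.inr ⟨hqy, hu1.of_dvd (hT2 q hq hqg hqy)⟩
    refine ⟨u % g, ?_, ?_⟩
    · rw [Finset.mem_filter, Finset.mem_range]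
      refine ⟨Nat.mod_lt _ (Nat.pos_of_ne_zero hg), ?_⟩
      apply Nat.coprime_of_dvd
      intro q hq hqg hqu'
      have hqu : q ∣ u := (Nat.dvd_mod_iff hqg).1 hqu'
      have hqfp : q ∣ fp g q := dvd_fp hg hq hqg
      rcases huq q hq hqg with ⟨_, h⟩ | ⟨hqy, h⟩
      · have h1 := (h.of_dvd hqfp)
        have h2 : q ∣ 1 := (h1.dvd_iff (dvd_refl q)).1 hqu
        exact hq.one_lt.ne' (Nat.dvd_one.1 h2)
      · have h1 := (h.of_dvd hqfp)
        exact hqy ((h1.dvd_iff (dvd_refl q)).1 hqu)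
    · intro q hq hqg
      have hmod : u % g ≡ u [MOD fp g q] := (Nat.mod_modEq u g).of_dvd (fp_dvd g q)
      rcases huq q hq hqg with ⟨h1, h2⟩ | ⟨h1, h2⟩
      · exact Or.inl ⟨h1, hmod.trans h2⟩
      · exact Or.inr ⟨h1, hmod.trans h2⟩
  choose! u hu using hex
  have hcard : g.totient = ((range g).filter (fun a => g.Coprime a)).card := rfl
  rw [hcard]
  refine Finset.card_le_card_of_injOn u (fun y hy => (hu y hy).1) ?_
  intro y hy y' hy' huy
  have h1 := (hu y hy).2
  have h2 := (hu y' hy').2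
  rw [Finset.mem_coe, Finset.mem_filter, Finset.mem_range] at hy hy'
  have hiff : ∀ q : ℕ, q.Prime → q ∣ g → y ≡ y' [MOD fp g q] := by
    intro q hq hqg
    have aux : ∀ z : ℕ, z < g → TCond g (z : ℤ) → ¬ q ∣ z → ¬ z ≡ 1 [MOD fp g q] := by
      intro z _ hz hqz hz1
      rcases hz q hq hqg with h | ⟨_, h⟩
      · apply hqz
        have : fp g q ∣ z := by exact_mod_cast h
        exact (dvd_fp hg hq hqg).trans this
      · apply h
        exact (Nat.modEq_iff_dvd.1 hz1.symm)
    have full0 : ∀ z : ℕ, TCond g (z : ℤ) → q ∣ z → z ≡ 0 [MOD fp g q] := by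
      intro z hz hqz
      rcases hz q hq hqg with h | ⟨h, _⟩
      · have : fp g q ∣ z := by exact_mod_cast h
        exact (Nat.modEq_zero_iff_dvd).2 this
      · exact absurd (by exact_mod_cast hqz) h
    rcases h1 q hq hqg with ⟨a1, a2⟩ | ⟨a1, a2⟩ <;> rcases h2 q hq hqg with ⟨b1, b2⟩ | ⟨b1, b2⟩
    · exact (full0 y hy.2 a1).trans (full0 y' hy'.2 b1).symm
    · exfalso
      apply aux y' hy'.1 hy'.2 b1
      rw [← huy] at b2
      exact b2.symm.trans a2
    · exfalso
      apply aux y hy.1 hy.2 a1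
      rw [huy] at a2
      exact a2.symm.trans b2
    · rw [← huy] at b2
      exact a2.symm.trans b2
  have hmod : y ≡ y' [MOD g] := by
    rw [Nat.modEq_iff_dvd]
    have h3 : g ∣ ((y' : ℤ) - y).natAbs := by
      apply dvd_iff_full hg
      intro q hq hqg
      have := Nat.modEq_iff_dvd.1 (hiff q hq hqg)
      exact Int.natCast_dvd.1 this
    exact Int.natCast_dvd.2 h3
  have := Nat.ModEq.eq_of_lt_of_lt hmod hy.1 hy'.1
  exact this

/-- Counting the half system. -/
lemma card_half (p k : ℕ) (hp : p.Prime) (hk : 1 ≤ k) (h2 : p ≠ 2 ∨ 2 ≤ k)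
    [DecidablePred fun x : ℕ => ¬ (p : ℤ) ∣ (x : ℤ) ∧ PCond p (x : ℤ)] :
    2 * ((range (p ^ k)).filter fun x : ℕ => ¬ (p : ℤ) ∣ (x : ℤ) ∧ PCond p (x : ℤ)).card
      ≤ (p ^ k).totient := by
  classical
  set A := (range (p ^ k)).filter fun x : ℕ => ¬ (p : ℤ) ∣ (x : ℤ) ∧ PCond p (x : ℤ) with hA
  set U := (range (p ^ k)).filter fun a => (p ^ k).Coprime a with hU
  have hcop : ∀ x : ℕ, (p ^ k).Coprime x ↔ ¬ (p : ℤ) ∣ (x : ℤ) := by
    intro x
    rw [Nat.coprime_pow_left_iff (by omega), hp.coprime_iff_not_dvd, Int.natCast_dvd_natCast]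
  have hAU : A ⊆ U := by
    intro x hx
    rw [hA, Finset.mem_filter] at hx
    rw [hU, Finset.mem_filter, hcop]
    exact ⟨hx.1, hx.2.1⟩
  have hle : A.card ≤ (U \ A).card := by
    refine Finset.card_le_card_of_injOn (fun x => p ^ k - x) ?_ ?_
    · intro x hx
      rw [hA, Finset.mem_coe, Finset.mem_filter, Finset.mem_range] at hx
      obtain ⟨hxlt, hpx, hPx⟩ := hx
      have hx0 : x ≠ 0 := by rintro rfl; simp at hpx
      have hcast : ((p ^ k - x : ℕ) : ℤ) = (p : ℤ) ^ k - x := by
        rw [Nat.cast_sub hxlt.le]; push_cast; ring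
      have hpk : (p : ℤ) ∣ (p : ℤ) ^ k := dvd_pow_self _ (by omega)
      have hnd : ¬ (p : ℤ) ∣ ((p ^ k - x : ℕ) : ℤ) := by
        rw [hcast]
        intro h
        apply hpx
        have := dvd_sub hpk h
        simpa using this
      rw [Finset.mem_coe, Finset.mem_sdiff, hU, Finset.mem_filter, Finset.mem_range, hcop, hA,
        Finset.mem_filter]
      have hlt : p ^ k - x < p ^ k := by omega
      refine ⟨⟨hlt, hnd⟩, ?_⟩
      rintro ⟨_, _, hP'⟩
      -- both `x` and `p^k - x` satisfy PCond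
      have h4 : p = 2 → (4 : ℤ) ∣ (p : ℤ) ^ k := by
        intro hp2
        have hk2 : 2 ≤ k := by rcases h2 with h | h; exact absurd hp2 h; exact h
        rw [hp2]
        have : (2 : ℤ) ^ 2 ∣ 2 ^ k := pow_dvd_pow 2 hk2
        simpa using this
      have hPn : PCond p (-(x : ℤ)) := by
        apply PCond_congr hpk h4 _ hP'
        rw [hcast]
        exact ⟨1, by ring⟩
      unfold PCond at hPx hPn
      split_ifs at hPx hPn with hp2
      · omega
      · have hp0 : (0 : ℤ) < p := by exact_mod_cast hp.pos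
        have h1 : (-(x : ℤ)) % p = p - (x : ℤ) % p := by
          have h2 : (x : ℤ) % p ≠ 0 := fun h0 => hpx (Int.dvd_of_emod_eq_zero h0)
          have h3 := Int.emod_nonneg (x : ℤ) hp0.ne'
          have h4 := Int.emod_lt_of_pos (x : ℤ) hp0
          have h5 : -(x : ℤ) = (p - (x : ℤ) % p) + p * (-((x : ℤ) / p) - 1) := by
            have := Int.emod_add_mul_ediv (x : ℤ) p
            linear_combination this
          rw [h5, Int.add_mul_emod_self_left]
          exact Int.emod_eq_of_lt (by omega) (by omega)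
        rw [h1] at hPn
        omega
    · intro x hx y hy hxy
      rw [hA, Finset.mem_coe, Finset.mem_filter, Finset.mem_range] at hx hy
      have : p ^ k - x = p ^ k - y := hxy
      omega
  have hsum : A.card + (U \ A).card = U.card := by
    rw [Finset.card_sdiff_of_subset hAU]
    have := Finset.card_le_card hAU
    omega
  have hUc : U.card = (p ^ k).totient := rfl
  omega

/-- Block C: the induction step. -/
theorem rigid_step (m : ℕ) (hm : 0 < m) (E : List (List ℤ)) (p : ℕ) (hp : p.Prime) (hpm : p ∣ m)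
    (h2 : p ≠ 2 ∨ 4 ∣ m) (h : Rigid m E) :
    Rigid (p * m) (E.map (List.map (fun x => (p : ℤ) * x))) := by
  classical
  obtain ⟨K, hK, hKvan⟩ := h
  set N := p * m with hN
  have hN0 : N ≠ 0 := Nat.mul_ne_zero hp.ne_zero hm.ne'
  set e := N.factorization p with he
  have hem : e = m.factorization p + 1 := by
    rw [he, hN, Nat.factorization_mul hp.ne_zero hm.ne', Finsupp.add_apply, hp.factorization_self]
    ring
  have hm1 : 1 ≤ m.factorization p := hp.factorization_pos_of_dvd hm.ne' hpm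
  have he2 : 2 ≤ e := by omega
  have he3 : p ≠ 2 ∨ 3 ≤ e := by
    rcases h2 with h | h
    · exact Or.inl h
    · by_cases hp2 : p = 2
      · right
        have : 2 ≤ m.factorization 2 := by
          have : 2 ^ 2 ∣ m := by simpa using h
          exact (Nat.prime_two.pow_dvd_iff_le_factorization hm.ne').1 this
        rw [hem, hp2]
        omega
      · exact Or.inl hp2
  set g := N / p ^ e with hg
  have hNg : N = p ^ e * g := (Nat.ordProj_mul_ordCompl_eq_self N p).symm
  have hpg : p.Coprime g := Nat.coprime_ordCompl hp hN0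
  have hg0 : g ≠ 0 := by rintro h0; rw [h0, mul_zero] at hNg; exact hN0 hNg
  have hpe : p ^ e = p * p ^ (e - 1) := by rw [← pow_succ']; congr 1; omega
  have hmg : m = p ^ (e - 1) * g := by
    have : p * m = p * (p ^ (e - 1) * g) := by rw [← mul_assoc, ← hpe, ← hNg]
    exact Nat.eq_of_mul_eq_mul_left hp.pos this
  -- the reduced set
  set Red : Finset ℕ := (range N).filter (fun x : ℕ => ¬ (p : ℤ) ∣ (x : ℤ) ∧ PCond p (x : ℤ) ∧
    (p : ℤ) ^ (e - 1) ≤ (x : ℤ) % (p : ℤ) ^ e ∧ TCond g (x : ℤ)) with hRed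
  set P0 : Finset ℕ := (range (p ^ (e - 1))).filter
    (fun x : ℕ => ¬ (p : ℤ) ∣ (x : ℤ) ∧ PCond p (x : ℤ)) with hP0
  set T : Finset ℕ := (range g).filter fun y : ℕ => TCond g (y : ℤ) with hT
  have hTc : T.card ≤ g.totient := card_TCond g hg0
  have hP0c : 2 * P0.card ≤ (p ^ (e - 1)).totient := by
    apply card_half p (e - 1) hp (by omega)
    rcases he3 with h | h
    · exact Or.inl h
    · right; omega
  have hRedc : Red.card ≤ (P0 ×ˢ (Finset.Ico 1 p) ×ˢ T).card := by
    refine Finset.card_le_card_of_injOn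
      (fun x => (x % p ^ (e - 1), (x % p ^ e) / p ^ (e - 1), x % g)) ?_ ?_
    · intro x hx
      rw [hRed, Finset.mem_coe, Finset.mem_filter, Finset.mem_range] at hx
      obtain ⟨hxN, hpx, hPx, hDx, hTx⟩ := hx
      rw [Finset.mem_coe, Finset.mem_product, Finset.mem_product]
      refine ⟨?_, ?_, ?_⟩
      · rw [hP0, Finset.mem_filter, Finset.mem_range]
        have hdv : ((p ^ (e - 1) : ℕ) : ℤ) ∣ (x : ℤ) - ((x % p ^ (e - 1) : ℕ) : ℤ) := by
          push_cast
          exact Int.dvd_self_sub_emod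
        have hpp : (p : ℤ) ∣ ((p ^ (e - 1) : ℕ) : ℤ) := by
          have : p ∣ p ^ (e - 1) := dvd_pow_self p (by omega)
          exact_mod_cast this
        refine ⟨Nat.mod_lt _ (pow_pos hp.pos _), ?_, ?_⟩
        · show ¬ (p : ℤ) ∣ ((x % p ^ (e - 1) : ℕ) : ℤ)
          rw [← dvd_iff_of_cong hpp hdv]; exact hpx
        · show PCond p ((x % p ^ (e - 1) : ℕ) : ℤ)
          refine PCond_congr hpp ?_ hdv hPx
          intro hp2
          have he3' : 3 ≤ e := by rcases he3 with h | h; exact absurd hp2 h; exact h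
          have : 2 ^ 2 ∣ p ^ (e - 1) := by rw [hp2]; exact pow_dvd_pow 2 (by omega)
          have h4 : ((2 ^ 2 : ℕ) : ℤ) ∣ ((p ^ (e - 1) : ℕ) : ℤ) := by exact_mod_cast this
          simpa using h4
      · rw [Finset.mem_Ico]
        have hge : p ^ (e - 1) ≤ x % p ^ e := by
          have : ((p ^ (e - 1) : ℕ) : ℤ) ≤ ((x % p ^ e : ℕ) : ℤ) := by push_cast; exact hDx
          exact_mod_cast this
        constructor
        · exact (Nat.one_le_div_iff (pow_pos hp.pos _)).2 hge
        · apply Nat.div_lt_of_lt_mul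
          rw [mul_comm, ← hpe]
          exact Nat.mod_lt _ (pow_pos hp.pos _)
      · rw [hT, Finset.mem_filter, Finset.mem_range]
        refine ⟨Nat.mod_lt _ (Nat.pos_of_ne_zero hg0), ?_⟩
        have hdv : (g : ℤ) ∣ (x : ℤ) - ((x % g : ℕ) : ℤ) := by
          push_cast
          exact Int.dvd_self_sub_emod
        intro q hq hqg
        have hqg' : (q : ℤ) ∣ (g : ℤ) := by exact_mod_cast hqg
        have hfg : ((fp g q : ℕ) : ℤ) ∣ (g : ℤ) := by exact_mod_cast fp_dvd g q
        show ((fp g q : ℕ) : ℤ) ∣ ((x % g : ℕ) : ℤ) ∨ (¬ (q : ℤ) ∣ ((x % g : ℕ) : ℤ) ∧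
          ¬ ((fp g q : ℕ) : ℤ) ∣ ((x % g : ℕ) : ℤ) - 1)
        rw [← dvd_iff_of_cong hqg' hdv, ← dvd_iff_of_cong hfg hdv, ← dvd_sub_one_iff_of_cong hfg hdv]
        exact hTx q hq hqg
    · intro x hx y hy hxy
      rw [hRed, Finset.mem_coe, Finset.mem_filter, Finset.mem_range] at hx hy
      simp only [Prod.mk.injEq] at hxy
      obtain ⟨h1, h3, h4⟩ := hxy
      have h5 : x % p ^ e = y % p ^ e := by
        have a1 := Nat.div_add_mod (x % p ^ e) (p ^ (e - 1))
        have a2 := Nat.div_add_mod (y % p ^ e) (p ^ (e - 1))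
        have a3 : (x % p ^ e) % p ^ (e - 1) = x % p ^ (e - 1) :=
          Nat.mod_mod_of_dvd _ (pow_dvd_pow p (by omega))
        have a4 : (y % p ^ e) % p ^ (e - 1) = y % p ^ (e - 1) :=
          Nat.mod_mod_of_dvd _ (pow_dvd_pow p (by omega))
        rw [← a1, ← a2, a3, a4, h1, h3]
      have hcop : (p ^ e).Coprime g := Nat.Coprime.pow_left _ hpg
      have h6 : x ≡ y [MOD (p ^ e * g)] :=
        (Nat.modEq_and_modEq_iff_modEq_mul hcop).1 ⟨h5, h4⟩
      rw [← hNg] at h6
      exact Nat.ModEq.eq_of_lt_of_lt h6 hx.1 hy.1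
  have hprod : (P0 ×ˢ (Finset.Ico 1 p) ×ˢ T).card = P0.card * ((p - 1) * T.card) := by
    rw [Finset.card_product, Finset.card_product, Nat.card_Ico]
  -- totients
  have hphiN : N.totient = p * (p ^ (e - 1)).totient * g.totient := by
    rw [hNg, Nat.totient_mul (Nat.Coprime.pow_left _ hpg), hpe,
      Nat.totient_mul_of_prime_of_dvd hp (dvd_pow_self p (by omega))]
  have hphim : m.totient = (p ^ (e - 1)).totient * g.totient := by
    rw [hmg, Nat.totient_mul (Nat.Coprime.pow_left _ hpg)]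
  have hRed2 : 2 * Red.card + m.totient ≤ N.totient := by
    rw [hprod] at hRedc
    have h3 : 2 * (P0.card * ((p - 1) * T.card)) ≤ (p ^ (e - 1)).totient * ((p - 1) * g.totient) := by
      calc 2 * (P0.card * ((p - 1) * T.card)) = (2 * P0.card) * ((p - 1) * T.card) := by ring
        _ ≤ (p ^ (e - 1)).totient * ((p - 1) * g.totient) :=
          Nat.mul_le_mul hP0c (Nat.mul_le_mul_left _ hTc)
    have h4 : (p ^ (e - 1)).totient * ((p - 1) * g.totient) + m.totient = N.totient := by
      rw [hphim, hphiN]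
      obtain ⟨p', hp'⟩ : ∃ p', p = p' + 1 := ⟨p - 1, by have := hp.pos; omega⟩
      rw [show p - 1 = p' by omega]
      generalize (p ^ (e - 1)).totient = A
      rw [hp']
      ring
    omega
  refine ⟨K.image (fun x => (p : ℤ) * x) ∪ Red.image (fun x : ℕ => (x : ℤ)), ?_, ?_⟩
  · have h3 := Finset.card_union_le (K.image (fun x => (p : ℤ) * x)) (Red.image (fun x : ℕ => (x : ℤ)))
    have h4 : (K.image (fun x => (p : ℤ) * x)).card ≤ K.card := Finset.card_image_le
    have h5 : (Red.image (fun x : ℕ => (x : ℤ))).card ≤ Red.card := Finset.card_image_le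
    omega
  · intro Q _ f hf hE hvan
    have hp0 : ∀ x, f ((p : ℤ) * x) = 0 := by
      refine hKvan Q (fun x => f ((p : ℤ) * x)) ?_ ?_ ?_
      · refine ⟨fun x => ?_, ?_, fun x => ?_, fun q hq n hn y => ?_⟩
        · have : (p : ℤ) * (x + m) = (p : ℤ) * x + N := by rw [hN]; push_cast; ring
          rw [this, hf.per]
        · rw [mul_zero, hf.zero]
        · rw [mul_neg, hf.neg]
        · have h3 : N = q * (p * n) := by rw [hN, hn]; ring
          have h4 := hf.dist q hq (p * n) h3 ((p : ℤ) * y)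
          have h5 : (p : ℤ) * ((q : ℤ) * y) = (q : ℤ) * ((p : ℤ) * y) := by ring
          rw [h5, ← h4]
          refine Finset.sum_congr rfl fun j _ => ?_
          congr 1
          push_cast
          ring
      · intro l hl
        have := hE (l.map (fun x => (p : ℤ) * x)) (List.mem_map_of_mem hl)
        rw [List.map_map] at this
        exact this
      · intro k hk
        exact hvan _ (Finset.mem_union_left _ (Finset.mem_image_of_mem _ hk))
    refine vanish_all hNg hp he2 he3 hpg hg0 hf hp0 ?_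
    intro x hpx hPx hDx hTx
    -- reduce modulo N
    have hNpos : (0 : ℤ) < N := by exact_mod_cast Nat.pos_of_ne_zero hN0
    set x' : ℕ := (x % N).toNat with hx'
    have hx'c : (x' : ℤ) = x % N := by
      rw [hx', Int.toNat_of_nonneg (Int.emod_nonneg _ hNpos.ne')]
    have hcong : (N : ℤ) ∣ (x' : ℤ) - x := by
      rw [hx'c, ← neg_sub, dvd_neg]
      exact Int.dvd_self_sub_emod
    have hcong' : (N : ℤ) ∣ x - (x' : ℤ) := by
      rw [hx'c]; exact Int.dvd_self_sub_emod
    rw [hf.congr hcong']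
    apply hvan
    apply Finset.mem_union_right
    apply Finset.mem_image_of_mem
    rw [hRed, Finset.mem_filter, Finset.mem_range]
    have hpN : (p : ℤ) ∣ (N : ℤ) := by
      have : p ∣ N := dvd_mul_right _ _
      exact_mod_cast this
    have hpeN : (p : ℤ) ^ e ∣ (N : ℤ) := by
      have : p ^ e ∣ N := by rw [hNg]; exact dvd_mul_right _ _
      exact_mod_cast this
    have hgN : (g : ℤ) ∣ (N : ℤ) := by
      have : g ∣ N := by rw [hNg]; exact dvd_mul_left _ _
      exact_mod_cast this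
    refine ⟨?_, ?_, ?_, ?_, ?_⟩
    · have := Int.emod_lt_of_pos x hNpos
      rw [← hx'c] at this
      exact_mod_cast this
    · rw [dvd_iff_of_cong hpN hcong]; exact hpx
    · refine PCond_congr hpN ?_ hcong' hPx
      intro hp2
      have he3' : 3 ≤ e := by rcases he3 with h | h; exact absurd hp2 h; exact h
      have : (2 : ℤ) ^ 2 ∣ (p : ℤ) ^ e := by rw [hp2]; exact pow_dvd_pow 2 (by omega)
      have h4 : (4 : ℤ) ∣ (p : ℤ) ^ e := by simpa using this
      exact h4.trans hpeN
    · rw [emod_eq_of_cong hpeN hcong]; exact hDx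
    · intro q hq hqg
      have hqg' : (q : ℤ) ∣ (N : ℤ) := by
        have : (q : ℤ) ∣ (g : ℤ) := by exact_mod_cast hqg
        exact this.trans hgN
      have hfg : ((fp g q : ℕ) : ℤ) ∣ (N : ℤ) := by
        have : ((fp g q : ℕ) : ℤ) ∣ (g : ℤ) := by exact_mod_cast fp_dvd g q
        exact this.trans hgN
      rw [dvd_iff_of_cong hqg' hcong, dvd_iff_of_cong hfg hcong, dvd_sub_one_iff_of_cong hfg hcong]
      exact hTx q hq hqg

end Pool.Agent.FT
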