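import Pool.Agent.Lib_helper78.FT.Statement

/-! # Hodge classes on Fermat varieties: auxiliary definitions -/

set_option autoImplicit false

namespace Pool.Agent.FT

/-- A product `t * a` with `t` prime to the degree of `a` is not an integer if `a` is not. -/
theorem not_int_mul {m t : ℕ} (ht : t.Coprime m) {a : ℚ} (h0 : 0 < a) (h1 : a < 1) {k : ℤ}
    (hk : (m : ℚ) * a = k) : ∀ l : ℤ, (t : ℚ) * a ≠ l := by
  intro l hl
  have hc : IsCoprime (t : ℤ) (m : ℤ) := Nat.isCoprime_iff_coprime.2 ht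
  obtain ⟨u, v, huv⟩ := hc
  have h2 : ((u * t + v * m : ℤ) : ℚ) = 1 := by rw [huv]; norm_num
  have h3 : a = ((u * l + v * k : ℤ) : ℚ) := by
    push_cast at h2 ⊢
    rw [← hl, ← hk]
    linear_combination (-a) * h2
  rw [h3] at h0 h1
  have h4 : (0 : ℤ) < u * l + v * k := by exact_mod_cast h0
  have h5 : u * l + v * k < (1 : ℤ) := by exact_mod_cast h1
  omega

theorem fract_mul_one_sub {m t : ℕ} (ht : t.Coprime m) {a : ℚ} (h0 : 0 < a) (h1 : a < 1) {k : ℤ}
    (hk : (m : ℚ) * a = k) : Int.fract ((t : ℚ) * (1 - a)) = 1 - Int.fract ((t : ℚ) * a) := by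
  have h2 : (t : ℚ) * (1 - a) = -((t : ℚ) * a) + ((t : ℤ) : ℚ) := by push_cast; ring
  rw [h2, Int.fract_add_intCast]
  apply Int.fract_neg
  intro h3
  obtain ⟨l, hl⟩ := Int.fract_eq_zero_iff.1 h3
  exact not_int_mul ht h0 h1 hk l hl.symm

theorem tateType_pair {m : ℕ} {a : ℚ} (h0 : 0 < a) (h1 : a < 1) {k : ℤ}
    (hk : (m : ℚ) * a = k) : TateType m {a, 1 - a} := by
  intro t ht
  have h3 := fract_mul_one_sub ht h0 h1 hk
  simp only [Multiset.insert_eq_cons, Multiset.map_cons, Multiset.map_singleton,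
    Multiset.sum_cons, Multiset.sum_singleton, Multiset.card_cons, Multiset.card_singleton]
  rw [h3]
  push_cast
  ring

/-- Complementary pairs belong to every cycle system. -/
theorem CycleSystem.pair {𝒜 : Multiset ℚ → Prop} (h : CycleSystem 𝒜) (a : ℚ) (h0 : 0 < a)
    (h1 : a < 1) : 𝒜 {a, 1 - a} := by
  have hk : ((a.den : ℕ) : ℚ) * a = ((a.num : ℤ) : ℚ) := by
    rw [mul_comm]; exact_mod_cast Rat.mul_den_eq_num a
  apply h.cancel _ a h0 h1
  apply h.surface a.den _ a.pos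
  · refine ⟨?_, 2, ?_⟩
    · intro b hb
      simp only [Multiset.insert_eq_cons, Multiset.mem_add, Multiset.mem_cons,
        Multiset.mem_singleton] at hb
      rcases hb with (hb | hb) | (hb | hb) <;> subst hb <;> constructor <;> linarith
    · simp only [Multiset.insert_eq_cons, Multiset.sum_add, Multiset.sum_cons,
        Multiset.sum_singleton]
      push_cast
      ring
  · intro b hb
    simp only [Multiset.insert_eq_cons, Multiset.mem_add, Multiset.mem_cons,
      Multiset.mem_singleton] at hb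
    rcases hb with (hb | hb) | (hb | hb) <;> subst hb
    · exact ⟨_, hk⟩
    · exact ⟨a.den - a.num, by rw [mul_sub, hk]; push_cast; ring⟩
    · exact ⟨_, hk⟩
    · exact ⟨a.den - a.num, by rw [mul_sub, hk]; push_cast; ring⟩
  · intro t ht
    have h2 := tateType_pair h0 h1 hk t ht
    rw [Multiset.map_add, Multiset.sum_add, h2, Multiset.card_add]
    push_cast
    ring
  · simp

/-- The degrees which do not need the additional characters. -/
def GoodDegree (m : ℕ) : Prop :=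
  (∃ p k : ℕ, p.Prime ∧ m ∣ 2 * p ^ k) ∨ (∃ a b c : ℕ, m ∣ 2 ^ a * 3 ^ b * 5 ^ c) ∨
  (∃ a b c : ℕ, m ∣ 2 ^ a * 3 ^ b * 7 ^ c) ∨ (∃ b c : ℕ, m ∣ 2 * 3 ^ b * 11 ^ c) ∨
  (∃ b c : ℕ, m ∣ 2 * 3 ^ b * 13 ^ c)

/-- An odd (ordinary, weight 0) distribution of level `m`, as an `m`-periodic function on `ℤ`;
`f x` stands for the symbol `[x/m]`. -/
structure OddDist (m : ℕ) {Q : Type*} [AddCommGroup Q] (f : ℤ → Q) : Prop where
  per : ∀ x, f (x + m) = f x
  zero : f 0 = 0
  neg : ∀ x, f (-x) = - f x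
  dist : ∀ p : ℕ, p.Prime → ∀ n : ℕ, m = p * n → ∀ y : ℤ,
    ∑ j ∈ Finset.range p, f (y + j * n) = f (p * y)

/-- The odd distributions of level `m` that kill the tuples in `E` are determined by their values
on a set of at most `φ(m)/2` integers. -/
def Rigid (m : ℕ) (E : List (List ℤ)) : Prop :=
  ∃ K : Finset ℤ, 2 * K.card ≤ m.totient ∧
    ∀ (Q : Type) [AddCommGroup Q] (f : ℤ → Q), OddDist m f → (∀ e ∈ E, (e.map f).sum = 0) →
      (∀ k ∈ K, f k = 0) → ∀ x, f x = 0

/-- A four-term tuple of Tate type in degree `m` (entries as numerators over `m`). -/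
def GoodTuple (m : ℕ) (e : List ℤ) : Prop :=
  e.length = 4 ∧ (∀ x ∈ e, ¬ (m : ℤ) ∣ x) ∧ (m : ℤ) ∣ e.sum ∧
    ∀ t : ℕ, t.Coprime m → (e.map fun x => ((t : ℤ) * x) % m).sum = 2 * m

/-- The sawtooth (Stickelberger) map. -/
noncomputable def stq (m : ℕ) [NeZero m] (D : ZMod m → ℤ) (t : (ZMod m)ˣ) : ℚ :=
  ∑ x : ZMod m, (D x : ℚ) * ((((t : ZMod m) * x).val : ℚ) / m - if x = 0 then 0 else 1 / 2)

end Pool.Agent.FT
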