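import Pool.Agent.Lib_helper15.FT_E3

/-! # The closure argument with further members of the cycle system as relations -/

set_option autoImplicit false

open Finset

namespace Pool.Agent.FT

namespace BE

variable {M : ℕ} [NeZero M] {𝒜 : Multiset ℚ → Prop}

/-- Good lists. -/
def GoodL (M : ℕ) [NeZero M] (𝒜 : Multiset ℚ → Prop) (e : List ℤ) : Prop :=
  Good M 𝒜 ((e : Multiset ℤ).map (rt M))

/-- a way to produce good lists -/
theorem goodL_of {e : List ℤ} (c : ℕ) (h1 : e.length = 2 * c) (h2 : ∀ x ∈ e, ¬ (M : ℤ) ∣ x)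
    (h4 : ∀ t ∈ Finset.range M, t.Coprime M → (e.map fun x => ((t : ℤ) * x) % M).sum = c * M)
    (hmem : 𝒜 ((e : Multiset ℤ).map (rt M))) : GoodL M 𝒜 e := by
  have hM1 : 1 ≤ M := Nat.pos_of_ne_zero (NeZero.ne M)
  have hM := M_pos (M := M)
  have h4' : ∀ t : ℕ, t.Coprime M → (e.map fun x => ((t : ℤ) * x) % M).sum = c * M := by
    intro t ht
    have h5 := h4 (t % M) (Finset.mem_range.2 (Nat.mod_lt _ hM1)) (by
      rwa [Nat.Coprime, ← Nat.gcd_rec, Nat.gcd_comm])
    rw [← h5]
    congr 1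
    apply List.map_congr_left
    intro x _
    rw [Int.mul_emod, Int.mul_emod ((t % M : ℕ) : ℤ) x]
    congr 2
    push_cast
    rw [Int.emod_emod_of_dvd _ (dvd_refl _)]
  apply good_of _ ?_ hM1 ?_ ?_ ?_
  · intro z hz
    exact h2 z (by simpa using hz)
  · intro t ht
    have h5 := h4' t ht
    rw [Multiset.map_coe, Multiset.sum_coe, Multiset.coe_card, h1]
    have h6 : (e.map fun y => rt M ((t : ℤ) * y)).sum =
        (((e.map fun x => ((t : ℤ) * x) % M).sum : ℤ) : ℚ) / M := by
      clear h1 h2 h4 h4' h5 hmem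
      induction e with
      | nil => simp
      | cons a l ih =>
        rw [List.map_cons, List.sum_cons, List.map_cons, List.sum_cons, ih]
        unfold rt
        push_cast
        ring
    rw [h6, h5]
    push_cast
    field_simp
  · rw [Multiset.coe_card, h1]
    exact ⟨c, by ring⟩
  · intro hc hd ht
    exact hmem

theorem rt_scale {p : ℕ} (hp : 0 < p) [NeZero (p * M)] (x : ℤ) :
    rt (p * M) ((p : ℤ) * x) = rt M x := by
  have hM := M_pos (M := M)
  have hp' : (0 : ℚ) < p := by exact_mod_cast hp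
  unfold rt
  have h1 : ((p : ℤ) * x) % ((p * M : ℕ) : ℤ) = p * (x % M) := by
    push_cast
    exact Int.mul_emod_mul_of_pos _ _ (by exact_mod_cast hp)
  rw [h1]
  push_cast
  field_simp

theorem GoodL.scale {p : ℕ} (hp : 0 < p) [NeZero (p * M)] {e : List ℤ} (h : GoodL M 𝒜 e) :
    GoodL (p * M) 𝒜 (e.map (fun x => (p : ℤ) * x)) := by
  have he : (((e.map (fun x => (p : ℤ) * x) : List ℤ) : Multiset ℤ).map (rt (p * M)))
      = (e : Multiset ℤ).map (rt M) := by
    rw [Multiset.map_coe, Multiset.map_coe, List.map_map]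
    congr 1
    apply List.map_congr_left
    intro x _
    exact rt_scale hp x
  obtain ⟨h1, h2, h3, h4⟩ := h
  unfold GoodL
  rw [he]
  refine ⟨h1, h2, ?_, ?_⟩
  · intro a ha
    obtain ⟨k, hk⟩ := h3 a ha
    exact ⟨p * k, by push_cast; rw [← hk]; ring⟩
  · intro t ht
    exact h4 t (Nat.Coprime.coprime_dvd_right (dvd_mul_left M p) ht)

theorem rel_mem_TT' {m : ℕ} (h : CycleSystem 𝒜) (hm : M = 2 * m) {E : List (List ℤ)}
    (hE : ∀ e ∈ E, GoodL M 𝒜 e) {D : ZMod M → ℤ} (hD : IsRel M E D) : D ∈ TT M m h := by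
  cases hD with
  | zero => exact zero_mem_TT h
  | neg y => exact neg_mem_TT h y
  | dist p n y hp hMn => exact dist_mem_TT h hm hp hMn y
  | tup e he =>
    refine mem_TT _ 0 (hE e he) (Good.zero h) 0 0 ?_
    rw [cls_list, cls_zero]
    simp

end BE

/-- Closure, for relations given by arbitrary good lists. -/
theorem of_rigid' (M : ℕ) [NeZero M] (hM : 3 ≤ M) (hM2 : 2 ∣ M) (E : List (List ℤ))
    (𝒜 : Multiset ℚ → Prop) (h : CycleSystem 𝒜)
    (hE : ∀ e ∈ E, BE.GoodL M 𝒜 e) (hR : Rigid M E)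
    (s : Multiset ℚ) (hs : IsChar s) (hd : HasDegree M s) (ht : TateType M s) : 𝒜 s := by
  classical
  obtain ⟨m, hm⟩ := hM2
  obtain ⟨K, hK, hprop⟩ := hR
  set R : AddSubgroup (ZMod M → ℤ) := AddSubgroup.closure {D | BE.IsRel M E D} with hRdef
  have hrel : ∀ D, BE.IsRel M E D → D ∈ R := fun D hD => AddSubgroup.subset_closure hD
  have hRT : R ≤ BE.TT M m h := by
    rw [hRdef, AddSubgroup.closure_le]
    intro D hD
    exact BE.rel_mem_TT' h hm hE hD
  set R' : AddSubgroup (ZMod M → ℤ) :=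
    R ⊔ AddSubgroup.closure ((fun k : ℤ => (Pi.single (k : ZMod M) 1 : ZMod M → ℤ)) '' K)
    with hR'
  have hgen : ∀ x : ZMod M, (Pi.single x 1 : ZMod M → ℤ) ∈ R' := by
    let Q := (ZMod M → ℤ) ⧸ R'
    let f : ℤ → Q := fun y => QuotientAddGroup.mk (BE.dl M y)
    have hmk : ∀ D : ZMod M → ℤ, D ∈ R' → (QuotientAddGroup.mk D : Q) = 0 :=
      fun D hD => (QuotientAddGroup.eq_zero_iff D).2 hD
    have hle : R ≤ R' := le_sup_left
    have hf : OddDist M f := by
      refine ⟨?_, ?_, ?_, ?_⟩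
      · intro x
        show (QuotientAddGroup.mk (BE.dl M (x + M)) : Q) = QuotientAddGroup.mk (BE.dl M x)
        rw [BE.dl_congr (y := x + M) (z := x) ⟨1, by ring⟩]
      · exact hmk _ (hle (hrel _ BE.IsRel.zero))
      · intro x
        have h1 : (QuotientAddGroup.mk (BE.dl M x + BE.dl M (-x)) : Q) = 0 :=
          hmk _ (hle (hrel _ (BE.IsRel.neg x)))
        have h2 : f x + f (-x) = 0 := h1
        exact (neg_eq_of_add_eq_zero_right h2).symm
      · intro p hp n hMn y
        have h1 : (QuotientAddGroup.mk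
            (∑ j ∈ range p, BE.dl M (y + j * n) - BE.dl M (p * y)) : Q) = 0 :=
          hmk _ (hle (hrel _ (BE.IsRel.dist p n y hp hMn)))
        have h2 : (QuotientAddGroup.mk' R' (∑ j ∈ range p, BE.dl M (y + j * n)
            - BE.dl M (p * y))) = 0 := h1
        rw [map_sub, map_sum] at h2
        exact sub_eq_zero.1 h2
    have hfE : ∀ e ∈ E, (e.map f).sum = 0 := by
      intro e he
      have h1 : (QuotientAddGroup.mk' R') ((e.map (BE.dl M)).sum) = 0 :=
        hmk _ (hle (hrel _ (BE.IsRel.tup e he)))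
      rw [map_list_sum, List.map_map] at h1
      exact h1
    have hfK : ∀ k ∈ K, f k = 0 := by
      intro k hk
      apply hmk
      apply (le_sup_right : _ ≤ R')
      apply AddSubgroup.subset_closure
      exact ⟨k, hk, rfl⟩
    have hall := hprop Q f hf hfE hfK
    intro x
    have h1 := hall (x.val : ℤ)
    have h2 : BE.dl M (x.val : ℤ) ∈ R' := (QuotientAddGroup.eq_zero_iff _).1 h1
    have h3 : BE.dl M (x.val : ℤ) = Pi.single x 1 := by
      unfold BE.dl
      congr 1
      push_cast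
      rw [ZMod.natCast_zmod_val]
    rwa [h3] at h2
  have hstR : ∀ D ∈ R, ∀ t : (ZMod M)ˣ, stq M D t = 0 :=
    fun D hD t => BE.stq_TT h hm (hRT hD) t
  have hst : ∀ t : (ZMod M)ˣ, stq M (BE.cls M s) t = 0 := by
    intro t
    rw [BE.stq_cls s hs.1 hd t, ht _ (BE.coprime_val t)]
    ring
  have hmem : BE.cls M s ∈ R := ker_le M hM R K hK hgen hstR _ hst
  exact BE.of_mem_TT h hm hs hd (hRT hmem)

end Pool.Agent.FT
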