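import Pool.Agent.Lib_helper78.FT.MainU
import Pool.Agent.Lib_helper78.FT.Converse

/-! # Final statement -/

set_option autoImplicit false
set_option maxRecDepth 4000

namespace Pool.Agent.FT

lemma hodge_of_list (M : ℕ) [NeZero M] {e : List ℤ} (c : ℕ) (h1 : e.length = 2 * c)
    (h2 : ∀ x ∈ e, ¬ (M : ℤ) ∣ x)
    (h4 : ∀ t ∈ Finset.range M, t.Coprime M → (e.map fun x => ((t : ℤ) * x) % M).sum = c * M) :
    HodgeAll ((e : Multiset ℤ).map (BE.rt M)) := by
  obtain ⟨_, h5, h6, h7⟩ := BE.goodL_of (𝒜 := fun _ => True) c h1 h2 h4 trivial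
  exact ⟨h5, M, Nat.pos_of_ne_zero (NeZero.ne M), h6, h7⟩

/-- The additional characters are of Tate type. -/
theorem hodge_fourfolds (m : ℕ) : ContainsUniruled m HodgeAll := by
  refine ⟨fun _ => ?_, fun _ => ?_, fun _ => ?_, fun _ => ?_, fun _ => ?_, fun _ => ?_⟩
  · have h := hodge_of_list 70 (e := [1, 20, 24, 42, 61, 62]) 3 rfl (by decide +kernel)
      (by decide +kernel)
    have e : ((([1, 20, 24, 42, 61, 62] : List ℤ) : Multiset ℤ).map (BE.rt 70))
        = (({1, 20, 24, 42, 61, 62} : Multiset ℚ).map fun x => x / 70) := by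
      decide +kernel
    rwa [e] at h
  · have h := hodge_of_list 44 (e := [1, 8, 37, 42, 5, 9, 33, 41]) 4 rfl (by decide +kernel)
      (by decide +kernel)
    have e : ((([1, 8, 37, 42, 5, 9, 33, 41] : List ℤ) : Multiset ℤ).map (BE.rt 44))
        = (({1, 8, 37, 42, 5, 9, 33, 41} : Multiset ℚ).map fun x => x / 44) := by
      decide +kernel
    rwa [e] at h
  · have h := hodge_of_list 52 (e := [1, 5, 17, 29, 33, 36, 41, 46]) 4 rfl (by decide +kernel)
      (by decide +kernel)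
    have e : ((([1, 5, 17, 29, 33, 36, 41, 46] : List ℤ) : Multiset ℤ).map (BE.rt 52))
        = (({1, 5, 17, 29, 33, 36, 41, 46} : Multiset ℚ).map fun x => x / 52) := by
      decide +kernel
    rwa [e] at h
  · have h := hodge_of_list 102 (e := [1, 13, 20, 68, 62, 72, 73, 99]) 4 rfl (by decide +kernel)
      (by decide +kernel)
    have e : ((([1, 13, 20, 68, 62, 72, 73, 99] : List ℤ) : Multiset ℤ).map (BE.rt 102))
        = (({1, 13, 20, 68, 62, 72, 73, 99} : Multiset ℚ).map fun x => x / 102) := by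
      decide +kernel
    rwa [e] at h
  · have h := hodge_of_list 114 (e := [1, 13, 43, 57, 61, 90, 92, 99]) 4 rfl (by decide +kernel)
      (by decide +kernel)
    have e : ((([1, 13, 43, 57, 61, 90, 92, 99] : List ℤ) : Multiset ℤ).map (BE.rt 114))
        = (({1, 13, 43, 57, 61, 90, 92, 99} : Multiset ℚ).map fun x => x / 114) := by
      decide +kernel
    rwa [e] at h
  · have h := hodge_of_list 68 (e := [9, 16, 20, 21, 26, 29, 33, 37, 49, 50, 57, 61]) 6 rfl (by decide +kernel)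
      (by decide +kernel)
    have e : ((([9, 16, 20, 21, 26, 29, 33, 37, 49, 50, 57, 61] : List ℤ) : Multiset ℤ).map (BE.rt 68))
        = (({9, 16, 20, 21, 26, 29, 33, 37, 49, 50, 57, 61} : Multiset ℚ).map fun x => x / 68) := by
      decide +kernel
    rwa [e] at h

lemma coveredDegree'_of_le (m : ℕ) (h0 : 0 < m) (h1 : m ≤ 54) : CoveredDegree' m := by
  interval_cases m
  · exact Or.inl ⟨2, 0, by norm_num, by norm_num⟩
  · exact Or.inl ⟨2, 0, by norm_num, by norm_num⟩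
  · exact Or.inl ⟨3, 1, by norm_num, by norm_num⟩
  · exact Or.inr (Or.inl ⟨5, 2, 0, 0, by norm_num, by norm_num⟩)
  · exact Or.inl ⟨5, 1, by norm_num, by norm_num⟩
  · exact Or.inl ⟨3, 1, by norm_num, by norm_num⟩
  · exact Or.inl ⟨7, 1, by norm_num, by norm_num⟩
  · exact Or.inr (Or.inl ⟨5, 3, 0, 0, by norm_num, by norm_num⟩)
  · exact Or.inl ⟨3, 2, by norm_num, by norm_num⟩
  · exact Or.inl ⟨5, 1, by norm_num, by norm_num⟩
  · exact Or.inl ⟨11, 1, by norm_num, by norm_num⟩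
  · exact Or.inr (Or.inl ⟨5, 2, 1, 0, by norm_num, by norm_num⟩)
  · exact Or.inl ⟨13, 1, by norm_num, by norm_num⟩
  · exact Or.inl ⟨7, 1, by norm_num, by norm_num⟩
  · exact Or.inr (Or.inl ⟨5, 0, 1, 1, by norm_num, by norm_num⟩)
  · exact Or.inr (Or.inl ⟨5, 4, 0, 0, by norm_num, by norm_num⟩)
  · exact Or.inl ⟨17, 1, by norm_num, by norm_num⟩
  · exact Or.inl ⟨3, 2, by norm_num, by norm_num⟩
  · exact Or.inl ⟨19, 1, by norm_num, by norm_num⟩
  · exact Or.inr (Or.inl ⟨5, 2, 0, 1, by norm_num, by norm_num⟩)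
  · exact Or.inr (Or.inl ⟨7, 0, 1, 1, by norm_num, by norm_num⟩)
  · exact Or.inl ⟨11, 1, by norm_num, by norm_num⟩
  · exact Or.inl ⟨23, 1, by norm_num, by norm_num⟩
  · exact Or.inr (Or.inl ⟨5, 3, 1, 0, by norm_num, by norm_num⟩)
  · exact Or.inl ⟨5, 2, by norm_num, by norm_num⟩
  · exact Or.inl ⟨13, 1, by norm_num, by norm_num⟩
  · exact Or.inl ⟨3, 3, by norm_num, by norm_num⟩
  · exact Or.inr (Or.inl ⟨7, 2, 0, 1, by norm_num, by norm_num⟩)
  · exact Or.inl ⟨29, 1, by norm_num, by norm_num⟩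
  · exact Or.inr (Or.inl ⟨5, 1, 1, 1, by norm_num, by norm_num⟩)
  · exact Or.inl ⟨31, 1, by norm_num, by norm_num⟩
  · exact Or.inr (Or.inl ⟨5, 5, 0, 0, by norm_num, by norm_num⟩)
  · exact Or.inr (Or.inl ⟨11, 0, 1, 1, by norm_num, by norm_num⟩)
  · exact Or.inl ⟨17, 1, by norm_num, by norm_num⟩
  · exact Or.inr (Or.inr (Or.inl ⟨0, 1, 1, by norm_num⟩))
  · exact Or.inr (Or.inl ⟨5, 2, 2, 0, by norm_num, by norm_num⟩)
  · exact Or.inl ⟨37, 1, by norm_num, by norm_num⟩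
  · exact Or.inl ⟨19, 1, by norm_num, by norm_num⟩
  · exact Or.inr (Or.inl ⟨13, 0, 1, 1, by norm_num, by norm_num⟩)
  · exact Or.inr (Or.inl ⟨5, 3, 0, 1, by norm_num, by norm_num⟩)
  · exact Or.inl ⟨41, 1, by norm_num, by norm_num⟩
  · exact Or.inr (Or.inl ⟨7, 1, 1, 1, by norm_num, by norm_num⟩)
  · exact Or.inl ⟨43, 1, by norm_num, by norm_num⟩
  · exact Or.inr (Or.inl ⟨11, 2, 0, 1, by norm_num, by norm_num⟩)
  · exact Or.inr (Or.inl ⟨5, 0, 2, 1, by norm_num, by norm_num⟩)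
  · exact Or.inl ⟨23, 1, by norm_num, by norm_num⟩
  · exact Or.inl ⟨47, 1, by norm_num, by norm_num⟩
  · exact Or.inr (Or.inl ⟨5, 4, 1, 0, by norm_num, by norm_num⟩)
  · exact Or.inl ⟨7, 2, by norm_num, by norm_num⟩
  · exact Or.inl ⟨5, 2, by norm_num, by norm_num⟩
  · exact Or.inr (Or.inl ⟨17, 0, 1, 1, by norm_num, by norm_num⟩)
  · exact Or.inr (Or.inl ⟨13, 2, 0, 1, by norm_num, by norm_num⟩)
  · exact Or.inl ⟨53, 1, by norm_num, by norm_num⟩
  · exact Or.inl ⟨3, 3, by norm_num, by norm_num⟩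

lemma CoveredDegree.out {m : ℕ} (h : CoveredDegree m) : CoveredDegree' m := by
  rcases h with ⟨h0, h1⟩ | h
  · exact coveredDegree'_of_le m h0 h1
  · exact h

lemma CoveredDegree'.pos {m : ℕ} (h : CoveredDegree' m) : 0 < m := by
  rcases Nat.eq_zero_or_pos m with h0 | h0
  · subst h0
    rcases h with ⟨p, k, hp, h⟩ | ⟨q, a, b, c, hq, h⟩ | ⟨a, b, c, h⟩ | ⟨a, b, c, h⟩ | ⟨a, b, h⟩
    · have h1 : 2 * p ^ k = 0 := zero_dvd_iff.1 h
      have : 0 < 2 * p ^ k := Nat.mul_pos (by norm_num) (pow_pos hp.pos k)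
      omega
    · rw [zero_dvd_iff] at h
      rcases hq with rfl | rfl | rfl | rfl | rfl <;> simp at h
    · rw [zero_dvd_iff] at h
      simp at h
    · rw [zero_dvd_iff] at h
      simp at h
    · rw [zero_dvd_iff] at h
      simp at h
  · exact h0

/-- In the degrees covered, the generated characters are exactly those of Tate type. -/
theorem generated_iff (m : ℕ) (hm : CoveredDegree m) (s : Multiset ℚ) (hd : HasDegree m s) :
    Generated m s ↔ IsChar s ∧ TateType m s := by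
  constructor
  · intro h
    obtain ⟨h1, n, hn, hdn, htn⟩ := h _ hodge_cycleSystem (hodge_fourfolds m)
    exact ⟨h1, htn.change hn hm.out.pos hdn hd⟩
  · rintro ⟨h1, h2⟩ 𝒜 h𝒜 hU
    exact mainU m hm.out 𝒜 h𝒜 hU s h1 hd h2

end Pool.Agent.FT
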