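import Pool.Agent.Lib_helper78.FT.Count
import Pool.Agent.Lib_helper78.FT.Bases
import Pool.Agent.Lib_helper15.FT_E3

/-! # Assembly: the families of degrees -/

set_option autoImplicit false

namespace Pool.Agent.FT

def GR (m : ℕ) : Prop := ∃ E : List (List ℤ), (∀ e ∈ E, GoodTuple m e) ∧ Rigid m E

lemma GoodTuple.scale {m : ℕ} {e : List ℤ} (h : GoodTuple m e) (p : ℕ) (hp : 0 < p) :
    GoodTuple (p * m) (e.map (fun x => (p : ℤ) * x)) := by
  obtain ⟨h1, h2, h3, h4⟩ := h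
  have hp0 : (p : ℤ) ≠ 0 := by exact_mod_cast hp.ne'
  refine ⟨by rw [List.length_map, h1], ?_, ?_, ?_⟩
  · intro y hy
    rw [List.mem_map] at hy
    obtain ⟨x, hx, rfl⟩ := hy
    intro hd
    apply h2 x hx
    push_cast at hd
    exact (mul_dvd_mul_iff_left hp0).1 hd
  · have : (e.map (fun x => (p : ℤ) * x)).sum = p * e.sum := List.sum_map_mul_left e (fun x => x) (p : ℤ) |>.trans (by simp)
    rw [this]
    push_cast
    exact mul_dvd_mul_left _ h3
  · intro t ht
    have ht' : t.Coprime m := Nat.Coprime.coprime_dvd_right (dvd_mul_left m p) ht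
    have h5 := h4 t ht'
    rw [List.map_map]
    have h6 : (fun x : ℤ => (t : ℤ) * x % ((p * m : ℕ) : ℤ)) ∘ (fun x => (p : ℤ) * x)
        = fun x => (p : ℤ) * ((t : ℤ) * x % m) := by
      funext x
      simp only [Function.comp]
      have : (t : ℤ) * ((p : ℤ) * x) = p * (t * x) := by ring
      rw [this]
      push_cast
      rw [Int.mul_emod_mul_of_pos]
      exact_mod_cast hp
    rw [h6]
    have h7 : (e.map (fun x => (p : ℤ) * ((t : ℤ) * x % m))).sum
        = p * (e.map (fun x => (t : ℤ) * x % m)).sum :=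
      List.sum_map_mul_left e (fun x => (t : ℤ) * x % m) (p : ℤ)
    rw [h7, h5]
    push_cast
    ring

lemma GR.step {m : ℕ} (h : GR m) (hm : 0 < m) (p : ℕ) (hp : p.Prime) (hpm : p ∣ m)
    (h2 : p ≠ 2 ∨ 4 ∣ m) : GR (p * m) := by
  obtain ⟨E, hE, hR⟩ := h
  refine ⟨_, ?_, rigid_step m hm E p hp hpm h2 hR⟩
  intro e he
  rw [List.mem_map] at he
  obtain ⟨e', he', rfl⟩ := he
  exact (hE e' he').scale p hp.pos

lemma GR.pow {m : ℕ} (h : GR m) (hm : 0 < m) (p : ℕ) (hp : p.Prime) (hpm : p ∣ m)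
    (h2 : p ≠ 2 ∨ 4 ∣ m) (k : ℕ) : GR (p ^ k * m) := by
  induction k with
  | zero => simpa using h
  | succ k ih =>
    have e : p ^ (k + 1) * m = p * (p ^ k * m) := by ring
    rw [e]
    refine ih.step (Nat.mul_pos (pow_pos hp.pos _) hm) p hp (hpm.mul_left _) ?_
    rcases h2 with h | h
    · exact Or.inl h
    · exact Or.inr (h.mul_left _)

lemma good_exists (m : ℕ) (hm : GoodDegree m) : ∃ M : ℕ, m ∣ M ∧ 3 ≤ M ∧ 2 ∣ M ∧ GR M := by
  have h60 : GR 60 := base_60
  have h84 : GR 84 := base_84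
  have h66 : GR 66 := base_66
  have h78 : GR 78 := base_78
  have caseB : ∀ a b c : ℕ, m ∣ 2 ^ a * 3 ^ b * 5 ^ c → ∃ M : ℕ, m ∣ M ∧ 3 ≤ M ∧ 2 ∣ M ∧ GR M := by
    intro a b c h
    refine ⟨5 ^ c * (3 ^ b * (2 ^ a * 60)), ?_, ?_, ?_, ?_⟩
    · have : 5 ^ c * (3 ^ b * (2 ^ a * 60)) = (2 ^ a * 3 ^ b * 5 ^ c) * 60 := by ring
      rw [this]; exact h.mul_right _
    · have h1 : 0 < 5 ^ c := by positivity
      have h2 : 0 < 3 ^ b := by positivity
      have h3 : 0 < 2 ^ a := by positivity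
      have : 0 < 5 ^ c * (3 ^ b * 2 ^ a) := by positivity
      nlinarith
    · exact Dvd.dvd.mul_left (Dvd.dvd.mul_left (Dvd.dvd.mul_left (by norm_num) _) _) _
    · refine GR.pow (GR.pow (GR.pow h60 (by norm_num) 2 Nat.prime_two (by norm_num)
        (Or.inr (by norm_num)) a) (by positivity) 3 Nat.prime_three ?_ (Or.inl (by norm_num)) b)
        (by positivity) 5 Nat.prime_five ?_ (Or.inl (by norm_num)) c
      · exact Dvd.dvd.mul_left (by norm_num) _
      · exact Dvd.dvd.mul_left (Dvd.dvd.mul_left (by norm_num) _) _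
  rcases hm with ⟨p, k, hp, h⟩ | ⟨a, b, c, h⟩ | ⟨a, b, c, h⟩ | ⟨b, c, h⟩ | ⟨b, c, h⟩
  · by_cases hp2 : p = 2
    · subst hp2
      apply caseB (k + 1) 0 0
      have : 2 ^ (k + 1) * 3 ^ 0 * 5 ^ 0 = 2 * 2 ^ k := by ring
      rwa [this]
    · have hp3 : 3 ≤ p := by
        have := hp.two_le
        omega
      have hb : GR (2 * p) := ⟨[], by simp, base_two_p p hp hp2⟩
      refine ⟨p ^ k * (2 * p), ?_, ?_, ?_, ?_⟩
      · have : p ^ k * (2 * p) = (2 * p ^ k) * p := by ring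
        rw [this]; exact h.mul_right _
      · have h1 : 0 < p ^ k := pow_pos hp.pos _
        nlinarith
      · exact Dvd.dvd.mul_left (dvd_mul_right _ _) _
      · exact hb.pow (by positivity) p hp (dvd_mul_left _ _) (Or.inl hp2) k
  · exact caseB a b c h
  · refine ⟨7 ^ c * (3 ^ b * (2 ^ a * 84)), ?_, ?_, ?_, ?_⟩
    · have : 7 ^ c * (3 ^ b * (2 ^ a * 84)) = (2 ^ a * 3 ^ b * 7 ^ c) * 84 := by ring
      rw [this]; exact h.mul_right _
    · have h1 : 0 < 7 ^ c := by positivity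
      have : 0 < 7 ^ c * (3 ^ b * 2 ^ a) := by positivity
      nlinarith
    · exact Dvd.dvd.mul_left (Dvd.dvd.mul_left (Dvd.dvd.mul_left (by norm_num) _) _) _
    · refine GR.pow (GR.pow (GR.pow h84 (by norm_num) 2 Nat.prime_two (by norm_num)
        (Or.inr (by norm_num)) a) (by positivity) 3 Nat.prime_three ?_ (Or.inl (by norm_num)) b)
        (by positivity) 7 (by norm_num) ?_ (Or.inl (by norm_num)) c
      · exact Dvd.dvd.mul_left (by norm_num) _
      · exact Dvd.dvd.mul_left (Dvd.dvd.mul_left (by norm_num) _) _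
  · refine ⟨11 ^ c * (3 ^ b * 66), ?_, ?_, ?_, ?_⟩
    · have : 11 ^ c * (3 ^ b * 66) = (2 * 3 ^ b * 11 ^ c) * 33 := by ring
      rw [this]; exact h.mul_right _
    · have : 0 < 11 ^ c * 3 ^ b := by positivity
      nlinarith
    · exact Dvd.dvd.mul_left (Dvd.dvd.mul_left (by norm_num) _) _
    · refine GR.pow (GR.pow h66 (by norm_num) 3 Nat.prime_three (by norm_num)
        (Or.inl (by norm_num)) b) (by positivity) 11 (by norm_num) ?_ (Or.inl (by norm_num)) c
      exact Dvd.dvd.mul_left (by norm_num) _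
  · refine ⟨13 ^ c * (3 ^ b * 78), ?_, ?_, ?_, ?_⟩
    · have : 13 ^ c * (3 ^ b * 78) = (2 * 3 ^ b * 13 ^ c) * 39 := by ring
      rw [this]; exact h.mul_right _
    · have : 0 < 13 ^ c * 3 ^ b := by positivity
      nlinarith
    · exact Dvd.dvd.mul_left (Dvd.dvd.mul_left (by norm_num) _) _
    · refine GR.pow (GR.pow h78 (by norm_num) 3 Nat.prime_three (by norm_num)
        (Or.inl (by norm_num)) b) (by positivity) 13 (by norm_num) ?_ (Or.inl (by norm_num)) c
      exact Dvd.dvd.mul_left (by norm_num) _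

/-- Main theorem. -/
theorem main (m : ℕ) (hm : GoodDegree m) (𝒜 : Multiset ℚ → Prop) (h : CycleSystem 𝒜)
    (s : Multiset ℚ) (hs : IsChar s) (hd : HasDegree m s) (ht : TateType m s) : 𝒜 s := by
  obtain ⟨M, hmM, hM3, hM2, E, hE, hR⟩ := good_exists m hm
  refine of_rigid M hM3 hM2 E hE hR 𝒜 h s hs ?_ ?_
  · intro a ha
    obtain ⟨k, hk⟩ := hd a ha
    obtain ⟨c, rfl⟩ := hmM
    refine ⟨c * k, ?_⟩
    push_cast
    rw [← hk]
    ring
  · intro t htM
    exact ht t (Nat.Coprime.coprime_dvd_right hmM htM)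

end Pool.Agent.FT
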