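import Pool.Agent.Lib_helper78.FT.Main
import Pool.Agent.Lib_helper78.FT.Ext

/-! # The families of degrees covered with the uniruled fourfolds -/

set_option autoImplicit false
set_option maxRecDepth 4000

namespace Pool.Agent.FT

/-- Rigid by good lists. -/
def GRU (𝒜 : Multiset ℚ → Prop) (m : ℕ) : Prop :=
  ∃ (_ : NeZero m) (E : List (List ℤ)), (∀ e ∈ E, BE.GoodL m 𝒜 e) ∧ Rigid m E

lemma GR.toGRU {m : ℕ} (hm : 0 < m) (h : GR m) {𝒜 : Multiset ℚ → Prop} (h𝒜 : CycleSystem 𝒜) :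
    GRU 𝒜 m := by
  obtain ⟨E, hE, hR⟩ := h
  exact ⟨⟨hm.ne'⟩, E, fun e he => @BE.good_tuple m ⟨hm.ne'⟩ 𝒜 h𝒜 e (hE e he), hR⟩

lemma GRU.step {𝒜 : Multiset ℚ → Prop} {m : ℕ} (h : GRU 𝒜 m) (p : ℕ) (hp : p.Prime)
    (hpm : p ∣ m) (h2 : p ≠ 2 ∨ 4 ∣ m) : GRU 𝒜 (p * m) := by
  obtain ⟨hm, E, hE, hR⟩ := h
  haveI := hm
  have hm0 : 0 < m := Nat.pos_of_ne_zero hm.out
  haveI : NeZero (p * m) := ⟨(Nat.mul_pos hp.pos hm0).ne'⟩
  refine ⟨inferInstance, _, ?_, rigid_step m hm0 E p hp hpm h2 hR⟩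
  intro e he
  rw [List.mem_map] at he
  obtain ⟨e', he', rfl⟩ := he
  exact (hE e' he').scale hp.pos

lemma GRU.pow {𝒜 : Multiset ℚ → Prop} {m : ℕ} (h : GRU 𝒜 m) (p : ℕ) (hp : p.Prime)
    (hpm : p ∣ m) (h2 : p ≠ 2 ∨ 4 ∣ m) (k : ℕ) : GRU 𝒜 (p ^ k * m) := by
  induction k with
  | zero => simpa using h
  | succ k ih =>
    have e : p ^ (k + 1) * m = p * (p ^ k * m) := by ring
    rw [e]
    refine ih.step p hp (hpm.mul_left _) ?_
    rcases h2 with h | h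
    · exact Or.inl h
    · exact Or.inr (h.mul_left _)

lemma gru_102 {𝒜 : Multiset ℚ → Prop} (h : CycleSystem 𝒜)
    (hU : 𝒜 (({1, 13, 20, 68, 62, 72, 73, 99} : Multiset ℚ).map fun x => x / 102)) :
    GRU 𝒜 102 := by
  haveI : NeZero ((102 : ℕ)) := ⟨by norm_num⟩
  refine ⟨inferInstance, _, ?_, rigid_102⟩
  intro e he
  simp only [List.mem_cons, List.not_mem_nil, or_false] at he
  rcases he with rfl
  · refine BE.goodL_of 4 rfl (by decide +kernel) (by decide +kernel) ?_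
    have e : ((([1, 13, 20, 62, 68, 72, 73, 99] : List ℤ) : Multiset ℤ).map (BE.rt 102))
        = (({1, 13, 20, 68, 62, 72, 73, 99} : Multiset ℚ).map fun x => x / 102) := by decide +kernel
    rw [e]
    exact hU

lemma gru_114 {𝒜 : Multiset ℚ → Prop} (h : CycleSystem 𝒜)
    (hU : 𝒜 (({1, 13, 43, 57, 61, 90, 92, 99} : Multiset ℚ).map fun x => x / 114)) :
    GRU 𝒜 114 := by
  haveI : NeZero ((114 : ℕ)) := ⟨by norm_num⟩
  refine ⟨inferInstance, _, ?_, rigid_114⟩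
  intro e he
  simp only [List.mem_cons, List.not_mem_nil, or_false] at he
  rcases he with rfl | rfl
  · refine BE.goodL_of 4 rfl (by decide +kernel) (by decide +kernel) ?_
    have e : ((([1, 13, 43, 57, 61, 90, 92, 99] : List ℤ) : Multiset ℤ).map (BE.rt 114))
        = (({1, 13, 43, 57, 61, 90, 92, 99} : Multiset ℚ).map fun x => x / 114) := by decide +kernel
    rw [e]
    exact hU
  · exact BE.good_tuple h (goodTuple_of 114 _ (by norm_num) (by decide +kernel))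

lemma gru_132 {𝒜 : Multiset ℚ → Prop} (h : CycleSystem 𝒜)
    (hU : 𝒜 (({1, 8, 37, 42, 5, 9, 33, 41} : Multiset ℚ).map fun x => x / 44)) :
    GRU 𝒜 132 := by
  haveI : NeZero ((132 : ℕ)) := ⟨by norm_num⟩
  refine ⟨inferInstance, _, ?_, rigid_132⟩
  intro e he
  simp only [List.mem_cons, List.not_mem_nil, or_false] at he
  rcases he with rfl | rfl | rfl | rfl | rfl
  · exact BE.good_tuple h (goodTuple_of 132 _ (by norm_num) (by decide +kernel))
  · exact BE.good_tuple h (goodTuple_of 132 _ (by norm_num) (by decide +kernel))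
  · exact BE.good_tuple h (goodTuple_of 132 _ (by norm_num) (by decide +kernel))
  · exact BE.good_tuple h (goodTuple_of 132 _ (by norm_num) (by decide +kernel))
  · refine BE.goodL_of 4 rfl (by decide +kernel) (by decide +kernel) ?_
    have e : ((([3, 15, 24, 27, 99, 111, 123, 126] : List ℤ) : Multiset ℤ).map (BE.rt 132))
        = (({1, 8, 37, 42, 5, 9, 33, 41} : Multiset ℚ).map fun x => x / 44) := by decide +kernel
    rw [e]
    exact hU

lemma gru_140 {𝒜 : Multiset ℚ → Prop} (h : CycleSystem 𝒜)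
    (hU : 𝒜 (({1, 20, 24, 42, 61, 62} : Multiset ℚ).map fun x => x / 70)) :
    GRU 𝒜 140 := by
  haveI : NeZero ((140 : ℕ)) := ⟨by norm_num⟩
  refine ⟨inferInstance, _, ?_, rigid_140⟩
  intro e he
  simp only [List.mem_cons, List.not_mem_nil, or_false] at he
  rcases he with rfl | rfl | rfl | rfl
  · refine BE.goodL_of 3 rfl (by decide +kernel) (by decide +kernel) ?_
    have e : ((([2, 40, 48, 84, 122, 124] : List ℤ) : Multiset ℤ).map (BE.rt 140))
        = (({1, 20, 24, 42, 61, 62} : Multiset ℚ).map fun x => x / 70) := by decide +kernel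
    rw [e]
    exact hU
  · exact BE.good_tuple h (goodTuple_of 140 _ (by norm_num) (by decide +kernel))
  · exact BE.good_tuple h (goodTuple_of 140 _ (by norm_num) (by decide +kernel))
  · exact BE.good_tuple h (goodTuple_of 140 _ (by norm_num) (by decide +kernel))

lemma gru_156 {𝒜 : Multiset ℚ → Prop} (h : CycleSystem 𝒜)
    (hU : 𝒜 (({1, 5, 17, 29, 33, 36, 41, 46} : Multiset ℚ).map fun x => x / 52)) :
    GRU 𝒜 156 := by
  haveI : NeZero ((156 : ℕ)) := ⟨by norm_num⟩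
  refine ⟨inferInstance, _, ?_, rigid_156⟩
  intro e he
  simp only [List.mem_cons, List.not_mem_nil, or_false] at he
  rcases he with rfl | rfl | rfl | rfl | rfl | rfl | rfl
  · exact BE.good_tuple h (goodTuple_of 156 _ (by norm_num) (by decide +kernel))
  · exact BE.good_tuple h (goodTuple_of 156 _ (by norm_num) (by decide +kernel))
  · exact BE.good_tuple h (goodTuple_of 156 _ (by norm_num) (by decide +kernel))
  · exact BE.good_tuple h (goodTuple_of 156 _ (by norm_num) (by decide +kernel))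
  · exact BE.good_tuple h (goodTuple_of 156 _ (by norm_num) (by decide +kernel))
  · refine BE.goodL_of 4 rfl (by decide +kernel) (by decide +kernel) ?_
    have e : ((([3, 15, 51, 87, 99, 108, 123, 138] : List ℤ) : Multiset ℤ).map (BE.rt 156))
        = (({1, 5, 17, 29, 33, 36, 41, 46} : Multiset ℚ).map fun x => x / 52) := by decide +kernel
    rw [e]
    exact hU
  · exact BE.good_tuple h (goodTuple_of 156 _ (by norm_num) (by decide +kernel))

lemma gru_210 {𝒜 : Multiset ℚ → Prop} (h : CycleSystem 𝒜)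
    (hU : 𝒜 (({1, 20, 24, 42, 61, 62} : Multiset ℚ).map fun x => x / 70)) :
    GRU 𝒜 210 := by
  haveI : NeZero ((210 : ℕ)) := ⟨by norm_num⟩
  refine ⟨inferInstance, _, ?_, rigid_210⟩
  intro e he
  simp only [List.mem_cons, List.not_mem_nil, or_false] at he
  rcases he with rfl | rfl | rfl | rfl | rfl | rfl | rfl | rfl | rfl | rfl | rfl | rfl | rfl
  · exact BE.good_tuple h (goodTuple_of 210 _ (by norm_num) (by decide +kernel))
  · exact BE.good_tuple h (goodTuple_of 210 _ (by norm_num) (by decide +kernel))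
  · exact BE.good_tuple h (goodTuple_of 210 _ (by norm_num) (by decide +kernel))
  · exact BE.good_tuple h (goodTuple_of 210 _ (by norm_num) (by decide +kernel))
  · exact BE.good_tuple h (goodTuple_of 210 _ (by norm_num) (by decide +kernel))
  · exact BE.good_tuple h (goodTuple_of 210 _ (by norm_num) (by decide +kernel))
  · exact BE.good_tuple h (goodTuple_of 210 _ (by norm_num) (by decide +kernel))
  · refine BE.goodL_of 3 rfl (by decide +kernel) (by decide +kernel) ?_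
    have e : ((([3, 60, 72, 126, 183, 186] : List ℤ) : Multiset ℤ).map (BE.rt 210))
        = (({1, 20, 24, 42, 61, 62} : Multiset ℚ).map fun x => x / 70) := by decide +kernel
    rw [e]
    exact hU
  · exact BE.good_tuple h (goodTuple_of 210 _ (by norm_num) (by decide +kernel))
  · exact BE.good_tuple h (goodTuple_of 210 _ (by norm_num) (by decide +kernel))
  · exact BE.good_tuple h (goodTuple_of 210 _ (by norm_num) (by decide +kernel))
  · exact BE.good_tuple h (goodTuple_of 210 _ (by norm_num) (by decide +kernel))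
  · exact BE.good_tuple h (goodTuple_of 210 _ (by norm_num) (by decide +kernel))

lemma gru_68 {𝒜 : Multiset ℚ → Prop} (h : CycleSystem 𝒜)
    (hU : 𝒜 (({9, 16, 20, 21, 26, 29, 33, 37, 49, 50, 57, 61} : Multiset ℚ).map fun x => x / 68)) :
    GRU 𝒜 68 := by
  haveI : NeZero ((68 : ℕ)) := ⟨by norm_num⟩
  refine ⟨inferInstance, _, ?_, rigid_68⟩
  intro e he
  simp only [List.mem_cons, List.not_mem_nil, or_false] at he
  rcases he with rfl
  · refine BE.goodL_of 6 rfl (by decide +kernel) (by decide +kernel) ?_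
    have e : ((([9, 16, 20, 21, 26, 29, 33, 37, 49, 50, 57, 61] : List ℤ) : Multiset ℤ).map (BE.rt 68))
        = (({9, 16, 20, 21, 26, 29, 33, 37, 49, 50, 57, 61} : Multiset ℚ).map fun x => x / 68) := by decide +kernel
    rw [e]
    exact hU

lemma gru_204 {𝒜 : Multiset ℚ → Prop} (h : CycleSystem 𝒜)
    (hU : 𝒜 (({9, 16, 20, 21, 26, 29, 33, 37, 49, 50, 57, 61} : Multiset ℚ).map fun x => x / 68))
    (hV : 𝒜 (({1, 13, 20, 68, 62, 72, 73, 99} : Multiset ℚ).map fun x => x / 102)) :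
    GRU 𝒜 204 := by
  haveI : NeZero ((204 : ℕ)) := ⟨by norm_num⟩
  refine ⟨inferInstance, _, ?_, rigid_204⟩
  intro e he
  simp only [List.mem_cons, List.not_mem_nil, or_false] at he
  rcases he with rfl | rfl | rfl | rfl
  · exact BE.good_tuple h (goodTuple_of 204 _ (by norm_num) (by decide +kernel))
  · refine BE.goodL_of 4 rfl (by decide +kernel) (by decide +kernel) ?_
    have e : ((([2, 26, 40, 124, 136, 144, 146, 198] : List ℤ) : Multiset ℤ).map (BE.rt 204))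
        = (({1, 13, 20, 68, 62, 72, 73, 99} : Multiset ℚ).map fun x => x / 102) := by decide +kernel
    rw [e]
    exact hV
  · exact BE.good_tuple h (goodTuple_of 204 _ (by norm_num) (by decide +kernel))
  · refine BE.goodL_of 6 rfl (by decide +kernel) (by decide +kernel) ?_
    have e : ((([27, 48, 60, 63, 78, 87, 99, 111, 147, 150, 171, 183] : List ℤ) : Multiset ℤ).map (BE.rt 204))
        = (({9, 16, 20, 21, 26, 29, 33, 37, 49, 50, 57, 61} : Multiset ℚ).map fun x => x / 68) := by decide +kernel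
    rw [e]
    exact hU

lemma exists_68 {𝒜 : Multiset ℚ → Prop} (h : GRU 𝒜 68) {m a c : ℕ}
    (hm : m ∣ 2 ^ a * 17 ^ c) : ∃ M : ℕ, m ∣ M ∧ 3 ≤ M ∧ 2 ∣ M ∧ GRU 𝒜 M := by
  refine ⟨17 ^ c * (2 ^ a * 68), ?_, ?_, ?_, ?_⟩
  · have : 17 ^ c * (2 ^ a * 68) = (2 ^ a * 17 ^ c) * 68 := by ring
    rw [this]; exact hm.mul_right _
  · have h1 : 0 < 17 ^ c * 2 ^ a := by positivity
    nlinarith
  · exact Dvd.dvd.mul_left (Dvd.dvd.mul_left (by norm_num) _) _
  · refine GRU.pow (GRU.pow h 2 Nat.prime_two (by norm_num)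
      (Or.inr (by norm_num)) a) 17 (by norm_num) ?_ (Or.inl (by norm_num)) c
    exact Dvd.dvd.mul_left (by norm_num) _

lemma exists_204 {𝒜 : Multiset ℚ → Prop} (h : GRU 𝒜 204) {m a b c : ℕ}
    (hm : m ∣ 2 ^ a * 3 ^ b * 17 ^ c) : ∃ M : ℕ, m ∣ M ∧ 3 ≤ M ∧ 2 ∣ M ∧ GRU 𝒜 M := by
  refine ⟨17 ^ c * (3 ^ b * (2 ^ a * 204)), ?_, ?_, ?_, ?_⟩
  · have : 17 ^ c * (3 ^ b * (2 ^ a * 204)) = (2 ^ a * 3 ^ b * 17 ^ c) * 204 := by ring
    rw [this]; exact hm.mul_right _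
  · have h1 : 0 < 17 ^ c * (3 ^ b * 2 ^ a) := by positivity
    nlinarith
  · exact Dvd.dvd.mul_left (Dvd.dvd.mul_left (Dvd.dvd.mul_left (by norm_num) _) _) _
  · refine GRU.pow (GRU.pow (GRU.pow h 2 Nat.prime_two (by norm_num)
      (Or.inr (by norm_num)) a) 3 Nat.prime_three ?_ (Or.inl (by norm_num)) b)
      17 (by norm_num) ?_ (Or.inl (by norm_num)) c
    · exact Dvd.dvd.mul_left (by norm_num) _
    · exact Dvd.dvd.mul_left (Dvd.dvd.mul_left (by norm_num) _) _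

lemma exists_132 {𝒜 : Multiset ℚ → Prop} (h : GRU 𝒜 132) {m a b c : ℕ}
    (hm : m ∣ 2 ^ a * 3 ^ b * 11 ^ c) : ∃ M : ℕ, m ∣ M ∧ 3 ≤ M ∧ 2 ∣ M ∧ GRU 𝒜 M := by
  refine ⟨11 ^ c * (3 ^ b * (2 ^ a * 132)), ?_, ?_, ?_, ?_⟩
  · have : 11 ^ c * (3 ^ b * (2 ^ a * 132)) = (2 ^ a * 3 ^ b * 11 ^ c) * 132 := by ring
    rw [this]; exact hm.mul_right _
  · have h1 : 0 < 11 ^ c * (3 ^ b * 2 ^ a) := by positivity
    nlinarith
  · exact Dvd.dvd.mul_left (Dvd.dvd.mul_left (Dvd.dvd.mul_left (by norm_num) _) _) _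
  · refine GRU.pow (GRU.pow (GRU.pow h 2 Nat.prime_two (by norm_num)
      (Or.inr (by norm_num)) a) 3 Nat.prime_three ?_ (Or.inl (by norm_num)) b)
      11 (by norm_num) ?_ (Or.inl (by norm_num)) c
    · exact Dvd.dvd.mul_left (by norm_num) _
    · exact Dvd.dvd.mul_left (Dvd.dvd.mul_left (by norm_num) _) _

lemma exists_156 {𝒜 : Multiset ℚ → Prop} (h : GRU 𝒜 156) {m a b c : ℕ}
    (hm : m ∣ 2 ^ a * 3 ^ b * 13 ^ c) : ∃ M : ℕ, m ∣ M ∧ 3 ≤ M ∧ 2 ∣ M ∧ GRU 𝒜 M := by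
  refine ⟨13 ^ c * (3 ^ b * (2 ^ a * 156)), ?_, ?_, ?_, ?_⟩
  · have : 13 ^ c * (3 ^ b * (2 ^ a * 156)) = (2 ^ a * 3 ^ b * 13 ^ c) * 156 := by ring
    rw [this]; exact hm.mul_right _
  · have h1 : 0 < 13 ^ c * (3 ^ b * 2 ^ a) := by positivity
    nlinarith
  · exact Dvd.dvd.mul_left (Dvd.dvd.mul_left (Dvd.dvd.mul_left (by norm_num) _) _) _
  · refine GRU.pow (GRU.pow (GRU.pow h 2 Nat.prime_two (by norm_num)
      (Or.inr (by norm_num)) a) 3 Nat.prime_three ?_ (Or.inl (by norm_num)) b)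
      13 (by norm_num) ?_ (Or.inl (by norm_num)) c
    · exact Dvd.dvd.mul_left (by norm_num) _
    · exact Dvd.dvd.mul_left (Dvd.dvd.mul_left (by norm_num) _) _

lemma exists_140 {𝒜 : Multiset ℚ → Prop} (h : GRU 𝒜 140) {m a b c : ℕ}
    (hm : m ∣ 2 ^ a * 5 ^ b * 7 ^ c) : ∃ M : ℕ, m ∣ M ∧ 3 ≤ M ∧ 2 ∣ M ∧ GRU 𝒜 M := by
  refine ⟨7 ^ c * (5 ^ b * (2 ^ a * 140)), ?_, ?_, ?_, ?_⟩
  · have : 7 ^ c * (5 ^ b * (2 ^ a * 140)) = (2 ^ a * 5 ^ b * 7 ^ c) * 140 := by ring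
    rw [this]; exact hm.mul_right _
  · have h1 : 0 < 7 ^ c * (5 ^ b * 2 ^ a) := by positivity
    nlinarith
  · exact Dvd.dvd.mul_left (Dvd.dvd.mul_left (Dvd.dvd.mul_left (by norm_num) _) _) _
  · refine GRU.pow (GRU.pow (GRU.pow h 2 Nat.prime_two (by norm_num)
      (Or.inr (by norm_num)) a) 5 (by norm_num) ?_ (Or.inl (by norm_num)) b)
      7 (by norm_num) ?_ (Or.inl (by norm_num)) c
    · exact Dvd.dvd.mul_left (by norm_num) _
    · exact Dvd.dvd.mul_left (Dvd.dvd.mul_left (by norm_num) _) _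

lemma exists_210 {𝒜 : Multiset ℚ → Prop} (h : GRU 𝒜 210) {m b c d : ℕ}
    (hm : m ∣ 2 * 3 ^ b * 5 ^ c * 7 ^ d) : ∃ M : ℕ, m ∣ M ∧ 3 ≤ M ∧ 2 ∣ M ∧ GRU 𝒜 M := by
  refine ⟨7 ^ d * (5 ^ c * (3 ^ b * 210)), ?_, ?_, ?_, ?_⟩
  · have : 7 ^ d * (5 ^ c * (3 ^ b * 210)) = (2 * 3 ^ b * 5 ^ c * 7 ^ d) * 105 := by ring
    rw [this]; exact hm.mul_right _
  · have h1 : 0 < 7 ^ d * (5 ^ c * 3 ^ b) := by positivity
    nlinarith
  · exact Dvd.dvd.mul_left (Dvd.dvd.mul_left (Dvd.dvd.mul_left (by norm_num) _) _) _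
  · refine GRU.pow (GRU.pow (GRU.pow h 3 Nat.prime_three (by norm_num)
      (Or.inl (by norm_num)) b) 5 (by norm_num) ?_ (Or.inl (by norm_num)) c)
      7 (by norm_num) ?_ (Or.inl (by norm_num)) d
    · exact Dvd.dvd.mul_left (by norm_num) _
    · exact Dvd.dvd.mul_left (Dvd.dvd.mul_left (by norm_num) _) _

lemma exists_102 {𝒜 : Multiset ℚ → Prop} (h : GRU 𝒜 102) {m b c : ℕ}
    (hm : m ∣ 2 * 3 ^ b * 17 ^ c) : ∃ M : ℕ, m ∣ M ∧ 3 ≤ M ∧ 2 ∣ M ∧ GRU 𝒜 M := by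
  refine ⟨17 ^ c * (3 ^ b * 102), ?_, ?_, ?_, ?_⟩
  · have : 17 ^ c * (3 ^ b * 102) = (2 * 3 ^ b * 17 ^ c) * 51 := by ring
    rw [this]; exact hm.mul_right _
  · have : 0 < 17 ^ c * 3 ^ b := by positivity
    nlinarith
  · exact Dvd.dvd.mul_left (Dvd.dvd.mul_left (by norm_num) _) _
  · refine GRU.pow (GRU.pow h 3 Nat.prime_three (by norm_num)
      (Or.inl (by norm_num)) b) 17 (by norm_num) ?_ (Or.inl (by norm_num)) c
    exact Dvd.dvd.mul_left (by norm_num) _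

lemma exists_114 {𝒜 : Multiset ℚ → Prop} (h : GRU 𝒜 114) {m b c : ℕ}
    (hm : m ∣ 2 * 3 ^ b * 19 ^ c) : ∃ M : ℕ, m ∣ M ∧ 3 ≤ M ∧ 2 ∣ M ∧ GRU 𝒜 M := by
  refine ⟨19 ^ c * (3 ^ b * 114), ?_, ?_, ?_, ?_⟩
  · have : 19 ^ c * (3 ^ b * 114) = (2 * 3 ^ b * 19 ^ c) * 57 := by ring
    rw [this]; exact hm.mul_right _
  · have : 0 < 19 ^ c * 3 ^ b := by positivity
    nlinarith
  · exact Dvd.dvd.mul_left (Dvd.dvd.mul_left (by norm_num) _) _
  · refine GRU.pow (GRU.pow h 3 Nat.prime_three (by norm_num)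
      (Or.inl (by norm_num)) b) 19 (by norm_num) ?_ (Or.inl (by norm_num)) c
    exact Dvd.dvd.mul_left (by norm_num) _

/-- If the prime `q` does not divide `m` it may be dropped from a multiple of `m`. -/
lemma dvd_of_not_dvd {m n q k : ℕ} (hq : q.Prime) (h : ¬ q ∣ m) (hm : m ∣ n * q ^ k) : m ∣ n := by
  have : Nat.Coprime m (q ^ k) := Nat.Coprime.pow_right k ((Nat.Prime.coprime_iff_not_dvd hq).2 h).symm
  exact this.dvd_of_dvd_mul_right hm

/-- If `4` does not divide `m` then a power of two may be replaced by `2`. -/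
lemma dvd_two_mul {m a n : ℕ} (h : ¬ 4 ∣ m) (hm : m ∣ 2 ^ a * n) (hn : n % 2 = 1) : m ∣ 2 * n := by
  have hn0 : n ≠ 0 := by rintro rfl; simp at hn
  have hm0 : m ≠ 0 := by
    rintro rfl
    have := Nat.eq_zero_of_zero_dvd hm
    rcases Nat.mul_eq_zero.1 this with h1 | h1
    · exact absurd h1 (by positivity)
    · exact hn0 h1
  obtain ⟨r, k, hk, rfl⟩ : ∃ r k : ℕ, ¬ 2 ∣ k ∧ m = 2 ^ r * k :=
    Nat.exists_eq_pow_mul_and_not_dvd hm0 2 (by norm_num)
  have hr : r ≤ 1 := by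
    by_contra hr
    apply h
    have : 2 ^ 2 ∣ 2 ^ r := pow_dvd_pow 2 (by omega)
    exact (Dvd.dvd.mul_right (by simpa using this) k)
  have hkn : k ∣ n := by
    have h1 : k ∣ 2 ^ a * n := (dvd_mul_left k _).trans hm
    have h2 : Nat.Coprime k (2 ^ a) :=
      Nat.Coprime.pow_right a ((Nat.Prime.coprime_iff_not_dvd Nat.prime_two).2 hk).symm
    exact h2.dvd_of_dvd_mul_left h1
  have h3 : 2 ^ r ∣ 2 := by
    have : 2 ^ r ∣ 2 ^ 1 := pow_dvd_pow 2 hr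
    simpa using this
  exact mul_dvd_mul h3 hkn

lemma base_case {𝒜 : Multiset ℚ → Prop} (h : CycleSystem 𝒜) {m : ℕ} (hm : GoodDegree m) :
    ∃ M : ℕ, m ∣ M ∧ 3 ≤ M ∧ 2 ∣ M ∧ GRU 𝒜 M := by
  obtain ⟨M, h1, h2, h3, h4⟩ := good_exists m hm
  exact ⟨M, h1, h2, h3, h4.toGRU (by omega) h⟩

/-- The degrees of the theorem, without the redundant condition `m ≤ 54`. -/
def CoveredDegree' (m : ℕ) : Prop :=
  (∃ p k : ℕ, p.Prime ∧ m ∣ 2 * p ^ k) ∨
  (∃ q a b c : ℕ, (q = 5 ∨ q = 7 ∨ q = 11 ∨ q = 13 ∨ q = 17) ∧ m ∣ 2 ^ a * 3 ^ b * q ^ c) ∨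
  (∃ a b c : ℕ, m ∣ 2 ^ a * 5 ^ b * 7 ^ c) ∨
  (∃ a b c : ℕ, m ∣ 2 * 3 ^ a * 5 ^ b * 7 ^ c) ∨
  (∃ a b : ℕ, m ∣ 2 * 3 ^ a * 19 ^ b)

lemma odd_pow_mul {q c b : ℕ} (hq : q % 2 = 1) : (3 ^ b * q ^ c) % 2 = 1 := by
  rw [Nat.mul_mod, Nat.pow_mod, Nat.pow_mod q, hq]
  norm_num

lemma cover_17 {𝒜 : Multiset ℚ → Prop} (h : CycleSystem 𝒜) (m : ℕ)
    (h51 : 51 ∣ m → 𝒜 (({1, 13, 20, 68, 62, 72, 73, 99} : Multiset ℚ).map fun x => x / 102))
    (h68 : 68 ∣ m → 𝒜 (({9, 16, 20, 21, 26, 29, 33, 37, 49, 50, 57, 61} : Multiset ℚ).map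
      fun x => x / 68)) {a b c : ℕ} (hm : m ∣ 2 ^ a * 3 ^ b * 17 ^ c) :
    ∃ M : ℕ, m ∣ M ∧ 3 ≤ M ∧ 2 ∣ M ∧ GRU 𝒜 M := by
  by_cases h17 : 17 ∣ m
  · by_cases h4 : 4 ∣ m
    · have h68m : 68 ∣ m := Nat.Coprime.mul_dvd_of_dvd_of_dvd (by norm_num) h4 h17
      by_cases h3 : 3 ∣ m
      · have h51m : 51 ∣ m := Nat.Coprime.mul_dvd_of_dvd_of_dvd (by norm_num) h3 h17
        exact exists_204 (gru_204 h (h68 h68m) (h51 h51m)) hm
      · have e : 2 ^ a * 3 ^ b * 17 ^ c = (2 ^ a * 17 ^ c) * 3 ^ b := by ring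
        rw [e] at hm
        exact exists_68 (gru_68 h (h68 h68m)) (dvd_of_not_dvd (by norm_num) h3 hm)
    · have hm2 : m ∣ 2 * 3 ^ b * 17 ^ c := by
        have := dvd_two_mul (n := 3 ^ b * 17 ^ c) h4 (by rw [← mul_assoc]; exact hm)
          (odd_pow_mul (by norm_num))
        rwa [← mul_assoc] at this
      by_cases h3 : 3 ∣ m
      · have h51m : 51 ∣ m := Nat.Coprime.mul_dvd_of_dvd_of_dvd (by norm_num) h3 h17
        exact exists_102 (gru_102 h (h51 h51m)) hm2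
      · refine base_case h (Or.inl ⟨17, c, by norm_num, ?_⟩)
        have e : 2 * 3 ^ b * 17 ^ c = (2 * 17 ^ c) * 3 ^ b := by ring
        rw [e] at hm2
        exact dvd_of_not_dvd (by norm_num) h3 hm2
  · exact base_case h (Or.inr (Or.inl ⟨a, b, 0, by
      simpa using dvd_of_not_dvd (by norm_num) h17 hm⟩))

lemma cover_exists {𝒜 : Multiset ℚ → Prop} (h : CycleSystem 𝒜) (m : ℕ)
    (hU : ContainsUniruled m 𝒜) (hm : CoveredDegree' m) :
    ∃ M : ℕ, m ∣ M ∧ 3 ≤ M ∧ 2 ∣ M ∧ GRU 𝒜 M := by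
  obtain ⟨h35, h44, h52, h51, h57, h68⟩ := hU
  rcases hm with ⟨p, k, hp, hm⟩ | ⟨q, a, b, c, hq, hm⟩ | ⟨a, b, c, hm⟩ | ⟨b, c, d, hm⟩ |
    ⟨b, c, hm⟩
  · exact base_case h (Or.inl ⟨p, k, hp, hm⟩)
  · rcases hq with rfl | rfl | rfl | rfl | rfl
    · exact base_case h (Or.inr (Or.inl ⟨a, b, c, hm⟩))
    · exact base_case h (Or.inr (Or.inr (Or.inl ⟨a, b, c, hm⟩)))
    · by_cases h4 : 4 ∣ m
      · by_cases h11 : 11 ∣ m
        · exact exists_132 (gru_132 h (h44 (Nat.Coprime.mul_dvd_of_dvd_of_dvd (by norm_num) h4 h11)))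
            hm
        · exact base_case h (Or.inr (Or.inl ⟨a, b, 0, by
            simpa using dvd_of_not_dvd (by norm_num) h11 hm⟩))
      · refine base_case h (Or.inr (Or.inr (Or.inr (Or.inl ⟨b, c, ?_⟩))))
        have := dvd_two_mul (n := 3 ^ b * 11 ^ c) h4 (by rw [← mul_assoc]; exact hm)
          (odd_pow_mul (by norm_num))
        rwa [← mul_assoc] at this
    · by_cases h4 : 4 ∣ m
      · by_cases h13 : 13 ∣ m
        · exact exists_156 (gru_156 h (h52 (Nat.Coprime.mul_dvd_of_dvd_of_dvd (by norm_num) h4 h13)))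
            hm
        · exact base_case h (Or.inr (Or.inl ⟨a, b, 0, by
            simpa using dvd_of_not_dvd (by norm_num) h13 hm⟩))
      · refine base_case h (Or.inr (Or.inr (Or.inr (Or.inr ⟨b, c, ?_⟩))))
        have := dvd_two_mul (n := 3 ^ b * 13 ^ c) h4 (by rw [← mul_assoc]; exact hm)
          (odd_pow_mul (by norm_num))
        rwa [← mul_assoc] at this
    · exact cover_17 h m h51 h68 hm
  · by_cases h7 : 7 ∣ m
    · by_cases h5 : 5 ∣ m
      · exact exists_140 (gru_140 h (h35 (Nat.Coprime.mul_dvd_of_dvd_of_dvd (by norm_num) h5 h7))) hm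
      · refine base_case h (Or.inr (Or.inr (Or.inl ⟨a, 0, c, ?_⟩)))
        have e : 2 ^ a * 5 ^ b * 7 ^ c = (2 ^ a * 7 ^ c) * 5 ^ b := by ring
        rw [e] at hm
        simpa using dvd_of_not_dvd (by norm_num) h5 hm
    · refine base_case h (Or.inr (Or.inl ⟨a, 0, b, ?_⟩))
      simpa using dvd_of_not_dvd (by norm_num) h7 hm
  · by_cases h7 : 7 ∣ m
    · by_cases h5 : 5 ∣ m
      · exact exists_210 (gru_210 h (h35 (Nat.Coprime.mul_dvd_of_dvd_of_dvd (by norm_num) h5 h7))) hm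
      · refine base_case h (Or.inr (Or.inr (Or.inl ⟨1, b, d, ?_⟩)))
        have e : 2 * 3 ^ b * 5 ^ c * 7 ^ d = (2 * 3 ^ b * 7 ^ d) * 5 ^ c := by ring
        rw [e] at hm
        simpa using dvd_of_not_dvd (by norm_num) h5 hm
    · refine base_case h (Or.inr (Or.inl ⟨1, b, c, ?_⟩))
      simpa using dvd_of_not_dvd (by norm_num) h7 hm
  · by_cases h19 : 19 ∣ m
    · by_cases h3 : 3 ∣ m
      · exact exists_114 (gru_114 h (h57 (Nat.Coprime.mul_dvd_of_dvd_of_dvd (by norm_num) h3 h19)))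
          hm
      · refine base_case h (Or.inl ⟨19, c, by norm_num, ?_⟩)
        have e : 2 * 3 ^ b * 19 ^ c = (2 * 19 ^ c) * 3 ^ b := by ring
        rw [e] at hm
        exact dvd_of_not_dvd (by norm_num) h3 hm
    · exact base_case h (Or.inl ⟨3, b, by norm_num, dvd_of_not_dvd (by norm_num) h19 hm⟩)

/-- Main theorem with the uniruled fourfolds. -/
theorem mainU (m : ℕ) (hm : CoveredDegree' m) (𝒜 : Multiset ℚ → Prop) (h : CycleSystem 𝒜)
    (hU : ContainsUniruled m 𝒜) (s : Multiset ℚ) (hs : IsChar s) (hd : HasDegree m s)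
    (ht : TateType m s) : 𝒜 s := by
  obtain ⟨M, hmM, hM3, hM2, hM, E, hE, hR⟩ := cover_exists h m hU hm
  haveI := hM
  refine of_rigid' M hM3 hM2 E 𝒜 h hE hR s hs ?_ ?_
  · intro a ha
    obtain ⟨k, hk⟩ := hd a ha
    obtain ⟨c, rfl⟩ := hmM
    refine ⟨c * k, ?_⟩
    push_cast
    rw [← hk]
    ring
  · intro t htM
    exact ht t (Nat.Coprime.coprime_dvd_right hmM htM)

end Pool.Agent.FT
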