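import Mathlib

/-! # Tate classes on Fermat varieties: the definitions used in the statement

`X = X_m^n` is the Fermat variety `x_0^m + ... + x_{n+1}^m = 0` of degree `m` and dimension `n`.
The primitive part of its middle cohomology is the direct sum of lines `V(a)` indexed by the
`a = (a_0, ..., a_{n+1})`, `a_i ∈ (1/m)ℤ/ℤ`, `a_i ≠ 0`, `∑ a_i = 0`; the group `μ_m^{n+2}` acts
on `V(a)` through the character `a`.  We encode `a`, up to permutation of the coordinates, by
the multiset of the representatives of the `a_i` in `(0,1)`.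

The Frobenius elements act on `V(a)` by Jacobi sums (Weil), and by Stickelberger's theorem the line
`V(a)` consists of Tate classes if and only if `n` is even and `a` is of *Tate type* (`TateType`
below); besides the class of a linear section these lines span all Tate classes in the middle
degree.  The lines spanned by classes of algebraic cycles have the properties collected in
`CycleSystem` and `ContainsUniruled`. -/

set_option autoImplicit false

namespace Pool.Agent.FT

/-- A *Fermat character*: a finite multiset of rationals in `(0,1)` with integral sum. -/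
def IsChar (s : Multiset ℚ) : Prop :=
  (∀ a ∈ s, 0 < a ∧ a < 1) ∧ ∃ k : ℤ, s.sum = k

/-- `s` has degree `m`: all its entries lie in `(1/m)ℤ` (so that `s`, with `n + 2` entries,
indexes a line `V(s)` in the cohomology of the Fermat variety of degree `m` and dimension `n`). -/
def HasDegree (m : ℕ) (s : Multiset ℚ) : Prop :=
  ∀ a ∈ s, ∃ k : ℤ, (m : ℚ) * a = k

/-- `s` is of *Tate type* in degree `m`: `∑_{a ∈ s} ⟨t a⟩ = |s| / 2` for all `t` prime to `m`,
`⟨x⟩` the fractional part. -/
def TateType (m : ℕ) (s : Multiset ℚ) : Prop :=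
  ∀ t : ℕ, t.Coprime m → (s.map fun a => Int.fract ((t : ℚ) * a)).sum = (s.card : ℚ) / 2

/-- `𝒜` is closed under juxtaposition.  (Shioda, *The Hodge conjecture for Fermat varieties*,
Math. Ann. 245 (1979): the correspondence between `X_m^r × X_m^s` and `X_m^{r+s+2}` inducing
`V(s) ⊗ V(t) ≅ V(s + t)`.) -/
def JoinClosed (𝒜 : Multiset ℚ → Prop) : Prop :=
  ∀ s t : Multiset ℚ, 𝒜 s → 𝒜 t → 𝒜 (s + t)

/-- `𝒜` is closed under `a ↦ 1 - a`.  (The space of algebraic classes is defined over `ℚ`, and
complex conjugation of the coefficients maps `V(s)` to `V(1 - s)`.) -/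
def ConjClosed (𝒜 : Multiset ℚ → Prop) : Prop :=
  ∀ s : Multiset ℚ, 𝒜 s → 𝒜 (s.map fun a => 1 - a)

/-- A complementary pair `{a, 1 - a}` may be cancelled from a member of `𝒜`.  (Shioda 1979: the
correspondence of `JoinClosed` with the zero-dimensional `X_m^0`, read in the other direction.) -/
def PairCancel (𝒜 : Multiset ℚ → Prop) : Prop :=
  ∀ (s : Multiset ℚ) (a : ℚ), 0 < a → a < 1 → 𝒜 (s + {a, 1 - a}) → 𝒜 s

/-- `𝒜` contains the four-term characters of Tate type.  (Fermat surfaces: the Lefschetz theorem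
on `(1,1)`-classes.) -/
def ContainsSurfaces (𝒜 : Multiset ℚ → Prop) : Prop :=
  ∀ (m : ℕ) (s : Multiset ℚ), 0 < m → IsChar s → HasDegree m s → TateType m s →
    s.card = 4 → 𝒜 s

/-- `𝒜` contains the characters `{⟨a⟩, ⟨a + 1/p⟩, ..., ⟨a + (p-1)/p⟩, ⟨-p a⟩}`, `p ≥ 5` prime,
`p a ∉ ℤ`.  (Aoki, *Some new algebraic cycles on Fermat varieties*, J. Math. Soc. Japan 39
(1987).) -/
def ContainsAoki (𝒜 : Multiset ℚ → Prop) : Prop :=
  ∀ p : ℕ, p.Prime → 5 ≤ p → ∀ a : ℚ, 0 < a → a < 1 → (¬ ∃ k : ℤ, (p : ℚ) * a = k) →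
    𝒜 ((Multiset.range p).map (fun j : ℕ => Int.fract (a + (j : ℚ) / p)) +
      {Int.fract (-((p : ℚ) * a))})

/-- Five known properties of the set of characters `s` whose line `V(s)` is spanned by classes of
algebraic cycles (the empty multiset being admitted). -/
structure CycleSystem (𝒜 : Multiset ℚ → Prop) : Prop where
  join : JoinClosed 𝒜
  conj : ConjClosed 𝒜
  cancel : PairCancel 𝒜
  surface : ContainsSurfaces 𝒜
  aoki : ContainsAoki 𝒜

/-- `𝒜` contains those of six explicit characters `c_35, c_44, c_51, c_52, c_57, c_68` whose index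
divides `m`.

The first five are carried by *uniruled fourfolds*, quotients of `X_70^4`, respectively of a product
of two Fermat surfaces (the first four and the last four entries), so they belong to `𝒜` by the
theorem of Conte and Murre (*The Hodge conjecture for fourfolds admitting a covering by rational
curves*, Math. Ann. 238 (1978)).  The fourfolds are dominated by the following weighted complete
intersections, in which the sum of the weights exceeds the sum of the degrees by `1` or `2`: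

* `c_35`: `X_10 ⊂ P(1,1,1,2,1,5)`:
  `a³c²f + b⁷ce² + ac²e²f + d⁵ + a³e²f + f² = 0`;
* `c_44`: `X_{22,16} ⊂ P(2,2,9,7,13,4,3)`:
  `a²c² + b¹¹ + ce + ade = 0`, `cd + eg + f⁴ + dg³ = 0`;
* `c_52`: `X_{14,26} ⊂ P(8,11,3,6,2,5,7)`:
  `ac² + ad + bc + g² = 0`, `cd³f + e¹³ + bf³ + abg = 0`;
* `c_51`: `X_{75,40} ⊂ P(14,23,25,26,1,10,17)`:
  `afg³ + a³bf + bd² + c³ = 0`, `ad + be¹⁷ + f⁴ + bg = 0`;
* `c_57`: `X_{36,19} ⊂ P(9,7,18,5,1,6,10)`:
  `a²bdf + abd⁴ + fg³ + c² = 0`, `b²d + e¹⁹ + bf² + ag = 0`.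

(`∑ v_i a_i` is an integer for the exponent vector `v` of each variable, so that this complete
intersection dominates the quotient of Fermat varieties on which the character lives; being a
complete intersection with negative canonical degree it is uniruled by Miyaoka and Mori.)

The character `c_68`, together with the pair `{1/2, 1/2}`, is `u + (1 - v)` with
`u = (16, 29, 34, 57 | 37, 49, 50) / 68` and `v = (7, 34, 47, 48 | 35, 42, 59) / 68`; `V(u)` and
`V(v)` live in `H³` of quotients of a product of a Fermat surface and a Fermat curve which are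
uniruled threefolds, being dominated by `X_22 ⊂ P(1,4,11,5,2)`:
`a¹⁷d + c² - (b³ + d²e)(d² + be³) = 0`, and `X_18 ⊂ P(5,9,1,3,1)`:
`a³d + b² + ad²(d + e³)²e + c¹⁷e = 0`; the `H³` of a uniruled threefold comes from curves, so that
Hodge classes in the tensor product of two such `H³` are algebraic by Lefschetz' theorem. -/
def ContainsUniruled (m : ℕ) (𝒜 : Multiset ℚ → Prop) : Prop :=
  (35 ∣ m → 𝒜 (({1, 20, 24, 42, 61, 62} : Multiset ℚ).map fun x => x / 70)) ∧
  (44 ∣ m → 𝒜 (({1, 8, 37, 42, 5, 9, 33, 41} : Multiset ℚ).map fun x => x / 44)) ∧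
  (52 ∣ m → 𝒜 (({1, 5, 17, 29, 33, 36, 41, 46} : Multiset ℚ).map fun x => x / 52)) ∧
  (51 ∣ m → 𝒜 (({1, 13, 20, 68, 62, 72, 73, 99} : Multiset ℚ).map fun x => x / 102)) ∧
  (57 ∣ m → 𝒜 (({1, 13, 43, 57, 61, 90, 92, 99} : Multiset ℚ).map fun x => x / 114)) ∧
  (68 ∣ m → 𝒜 (({9, 16, 20, 21, 26, 29, 33, 37, 49, 50, 57, 61} : Multiset ℚ).map
    fun x => x / 68))

/-- `s` is *generated* in degree `m`: it belongs to every cycle system containing the additional
characters whose index divides `m`, i.e. to the least such system. -/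
def Generated (m : ℕ) (s : Multiset ℚ) : Prop :=
  ∀ 𝒜 : Multiset ℚ → Prop, CycleSystem 𝒜 → ContainsUniruled m 𝒜 → 𝒜 s

/-- The degrees covered by the theorem. -/
def CoveredDegree (m : ℕ) : Prop :=
  (0 < m ∧ m ≤ 54) ∨
  (∃ p k : ℕ, p.Prime ∧ m ∣ 2 * p ^ k) ∨
  (∃ q a b c : ℕ, (q = 5 ∨ q = 7 ∨ q = 11 ∨ q = 13 ∨ q = 17) ∧ m ∣ 2 ^ a * 3 ^ b * q ^ c) ∨
  (∃ a b c : ℕ, m ∣ 2 ^ a * 5 ^ b * 7 ^ c) ∨
  (∃ a b c : ℕ, m ∣ 2 * 3 ^ a * 5 ^ b * 7 ^ c) ∨
  (∃ a b : ℕ, m ∣ 2 * 3 ^ a * 19 ^ b)

end Pool.Agent.FT
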