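import Pool.Agent.Lib_helper78.FT.Defs

/-! # Block C: the induction step for the rigidity of odd distributions -/

set_option autoImplicit false

open Finset

namespace Pool.Agent.FT

lemma sum_range_mul {Q : Type*} [AddCommMonoid Q] (a b : ℕ) (F : ℕ → Q) :
    ∑ j ∈ range (a * b), F j = ∑ i ∈ range a, ∑ l ∈ range b, F (i + a * l) := by
  induction b with
  | zero => simp
  | succ b ih =>
    rw [Nat.mul_succ, Finset.sum_range_add, ih]
    simp_rw [Finset.sum_range_succ]
    rw [Finset.sum_add_distrib]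
    congr 1
    exact Finset.sum_congr rfl fun i _ => by rw [add_comm]

section basic

variable {N : ℕ} {Q : Type*} [AddCommGroup Q] {f : ℤ → Q}

lemma OddDist.per_mulZ (h : OddDist N f) (x k : ℤ) : f (x + k * N) = f x := by
  have hnat : ∀ (k : ℕ) (x : ℤ), f (x + k * N) = f x := by
    intro k
    induction k with
    | zero => intro x; simp
    | succ k ih =>
      intro x
      have : x + ((k + 1 : ℕ) : ℤ) * N = (x + k * N) + N := by push_cast; ring
      rw [this, h.per, ih]
  rcases Int.eq_nat_or_neg k with ⟨n, rfl | rfl⟩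
  · exact hnat n x
  · have := hnat n (x + -(n : ℤ) * N)
    rw [← this]
    congr 1
    ring

lemma OddDist.congr (h : OddDist N f) {x y : ℤ} (hxy : (N : ℤ) ∣ x - y) : f x = f y := by
  obtain ⟨k, hk⟩ := hxy
  have : x = y + k * N := by linarith
  rw [this, h.per_mulZ]

lemma OddDist.dist_pow (h : OddDist N f) (q : ℕ) (hq : q.Prime) (k : ℕ) :
    ∀ n : ℕ, N = q ^ k * n → ∀ y : ℤ, ∑ j ∈ range (q ^ k), f (y + j * n) = f ((q : ℤ) ^ k * y) := by
  induction k with
  | zero =>
    intro n hn y
    simp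
  | succ k ih =>
    intro n hn y
    have h1 : N = q ^ k * (q * n) := by rw [hn]; ring
    have h2 : N = q * (q ^ k * n) := by rw [hn]; ring
    have e : q ^ (k + 1) = q * q ^ k := by ring
    rw [e, sum_range_mul]
    have h3 : ∀ i ∈ range q, ∑ l ∈ range (q ^ k), f (y + ((i + q * l : ℕ) : ℤ) * n)
        = f ((q : ℤ) ^ k * y + i * ((q ^ k * n : ℕ) : ℤ)) := by
      intro i _
      have h4 := ih (q * n) h1 (y + i * n)
      have h5 : (q : ℤ) ^ k * (y + i * n) = (q : ℤ) ^ k * y + i * ((q ^ k * n : ℕ) : ℤ) := by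
        push_cast; ring
      rw [← h5, ← h4]
      refine Finset.sum_congr rfl fun l _ => ?_
      congr 1
      push_cast
      ring
    rw [Finset.sum_congr rfl h3, h.dist q hq (q ^ k * n) h2]
    congr 1
    ring

/-- Norm relation: splitting off the multiples of `q` in a fibre. -/
lemma OddDist.norm_rel (h : OddDist N f) (q : ℕ) (hq : q.Prime) (a n : ℕ) (ha : 1 ≤ a)
    (hN : N = q ^ a * n) (hqn : q.Coprime n) (x : ℤ) :
    ∃ z : ℤ, (q : ℤ) ∣ z ∧ (n : ℤ) ∣ z - x ∧
      ∑ j ∈ (range (q ^ a)).filter (fun j : ℕ => ¬ (q : ℤ) ∣ x + j * n), f (x + j * n)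
        = f ((q : ℤ) ^ a * x) - f ((q : ℤ) ^ (a - 1) * z) := by
  -- the index j0
  have hcop : IsCoprime (q : ℤ) (n : ℤ) := by exact_mod_cast hqn.isCoprime
  obtain ⟨u, v, huv⟩ := hcop
  -- u q + v n = 1
  set j0 : ℕ := ((-x * v) % q).toNat with hj0
  have hq0 : (0 : ℤ) < q := by exact_mod_cast hq.pos
  have hj0' : (j0 : ℤ) = (-x * v) % q := by
    rw [hj0, Int.toNat_of_nonneg (Int.emod_nonneg _ hq0.ne')]
  have hj0lt : j0 < q := by
    have := Int.emod_lt_of_pos (-x * v) hq0
    rw [← hj0'] at this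
    exact_mod_cast this
  have hdvd0 : (q : ℤ) ∣ x + j0 * n := by
    have h1 : (q : ℤ) ∣ (-x * v) - j0 := by
      rw [hj0']; exact Int.dvd_self_sub_emod
    obtain ⟨c, hc⟩ := h1
    refine ⟨u * x - c * n, ?_⟩
    have : (j0 : ℤ) = -x * v - q * c := by linarith
    rw [this]
    linear_combination (-x) * huv
  refine ⟨x + j0 * n, hdvd0, ⟨j0, by ring⟩, ?_⟩
  have hdvd : ∀ j : ℕ, (q : ℤ) ∣ x + j * n ↔ (q : ℤ) ∣ (j : ℤ) - j0 := by
    intro j
    have e : x + j * n = (x + j0 * n) + ((j : ℤ) - j0) * n := by ring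
    rw [e, dvd_add_right hdvd0]
    constructor
    · intro hd
      have hc' : IsCoprime (q : ℤ) (n : ℤ) := ⟨u, v, huv⟩
      exact hc'.dvd_of_dvd_mul_right hd
    · intro hd
      exact Dvd.dvd.mul_right hd _
  have hsum := h.dist_pow q hq a n hN x
  rw [← Finset.sum_filter_add_sum_filter_not (range (q ^ a))
    (fun j : ℕ => (q : ℤ) ∣ x + j * n)] at hsum
  have hb : q ^ a = q * q ^ (a - 1) := by
    rw [← pow_succ']; congr 1; omega
  have hN' : N = q ^ (a - 1) * (q * n) := by rw [hN, hb]; ring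
  have hsum2 := h.dist_pow q hq (a - 1) (q * n) hN' (x + j0 * n)
  have hsum3 : ∑ j ∈ (range (q ^ a)).filter (fun j : ℕ => (q : ℤ) ∣ x + j * n), f (x + j * n)
      = ∑ i ∈ range (q ^ (a - 1)), f (x + j0 * n + i * ((q * n : ℕ) : ℤ)) := by
    symm
    refine Finset.sum_nbij (fun i => j0 + q * i) ?_ ?_ ?_ ?_
    · intro i hi
      rw [Finset.mem_filter, Finset.mem_range]
      rw [Finset.mem_range] at hi
      constructor
      · rw [hb]
        calc j0 + q * i < q + q * i := by omega
          _ = q * (i + 1) := by ring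
          _ ≤ q * q ^ (a - 1) := Nat.mul_le_mul_left _ hi
      · rw [hdvd]
        push_cast
        exact ⟨i, by ring⟩
    · intro i _ i' _ hii
      have : q * i = q * i' := by simpa using hii
      exact Nat.eq_of_mul_eq_mul_left hq.pos this
    · intro j hj
      rw [Finset.mem_coe, Finset.mem_filter, Finset.mem_range, hdvd] at hj
      obtain ⟨hj1, c, hc⟩ := hj
      have hc0 : 0 ≤ c := by
        by_contra hneg
        push Not at hneg
        have : (q : ℤ) * c ≤ q * (-1) := by
          apply mul_le_mul_of_nonneg_left _ hq0.le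
          omega
        have hj0z : (j0 : ℤ) < q := by exact_mod_cast hj0lt
        have hjz : (0 : ℤ) ≤ j := by positivity
        linarith
      obtain ⟨c', rfl⟩ := Int.eq_ofNat_of_zero_le hc0
      have hj' : j = j0 + q * c' := by
        have : (j : ℤ) = j0 + q * c' := by linarith
        exact_mod_cast this
      refine ⟨c', ?_, hj'.symm⟩
      rw [Finset.mem_coe, Finset.mem_range]
      rw [hj', hb] at hj1
      by_contra hge
      push Not at hge
      have := Nat.mul_le_mul_left q hge
      omega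
    · intro i _
      congr 1
      push_cast
      ring
  rw [hsum3, hsum2] at hsum
  rw [← hsum]
  abel

end basic

end Pool.Agent.FT
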