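import Pool.Agent.Lib_helper78.FT.Step

/-! # Block C, part 2: vanishing of an odd distribution -/

set_option autoImplicit false

open Finset

namespace Pool.Agent.FT

/-- half-system condition at `p` -/
def PCond (p : ℕ) (x : ℤ) : Prop := if p = 2 then x % 4 = 1 else 2 * (x % p) < p

/-- the full power of `q` in `g` -/
def fp (g q : ℕ) : ℕ := q ^ (g.factorization q)

def TCond (g : ℕ) (x : ℤ) : Prop :=
  ∀ q : ℕ, q.Prime → q ∣ g → ((fp g q : ℕ) : ℤ) ∣ x ∨ (¬ (q : ℤ) ∣ x ∧ ¬ ((fp g q : ℕ) : ℤ) ∣ x - 1)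

def Sat (g : ℕ) (x : ℤ) : Prop :=
  ∀ q : ℕ, q.Prime → q ∣ g → (q : ℤ) ∣ x → ((fp g q : ℕ) : ℤ) ∣ x

noncomputable def supp (g : ℕ) (x : ℤ) : Finset ℕ :=
  g.primeFactors.filter fun q : ℕ => ¬ (q : ℤ) ∣ x

noncomputable def ones (g : ℕ) (x : ℤ) : Finset ℕ :=
  g.primeFactors.filter fun q : ℕ => ((fp g q : ℕ) : ℤ) ∣ x - 1

lemma fp_dvd (g q : ℕ) : fp g q ∣ g := Nat.ordProj_dvd g q

lemma dvd_fp {g q : ℕ} (hg : g ≠ 0) (hq : q.Prime) (hqg : q ∣ g) : q ∣ fp g q := by
  unfold fp
  apply dvd_pow_self
  exact (hq.factorization_pos_of_dvd hg hqg).ne'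

/-- congruence modulo `h` preserves everything at primes whose full power divides `h` -/
lemma dvd_iff_of_cong {d x y h : ℤ} (hd : d ∣ h) (hxy : h ∣ x - y) : d ∣ x ↔ d ∣ y := by
  have h1 : d ∣ x - y := hd.trans hxy
  constructor
  · intro hx
    have := dvd_sub hx h1
    simpa using this
  · intro hy
    have := dvd_add h1 hy
    simpa using this

lemma dvd_sub_one_iff_of_cong {d x y h : ℤ} (hd : d ∣ h) (hxy : h ∣ x - y) :
    d ∣ x - 1 ↔ d ∣ y - 1 := by
  apply dvd_iff_of_cong hd
  have : x - 1 - (y - 1) = x - y := by ring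
  rwa [this]

lemma PCond_congr {p : ℕ} {x y h : ℤ} (h1 : (p : ℤ) ∣ h) (h2 : p = 2 → (4 : ℤ) ∣ h)
    (hxy : h ∣ x - y) (hx : PCond p x) : PCond p y := by
  unfold PCond at *
  split_ifs at * with hp
  · have : (4 : ℤ) ∣ x - y := (h2 hp).trans hxy
    omega
  · have h3 : (p : ℤ) ∣ x - y := h1.trans hxy
    have h4 : x % p = y % p :=
      Int.emod_eq_emod_iff_emod_sub_eq_zero.2 (Int.emod_eq_zero_of_dvd h3)
    rw [← h4]; exact hx

lemma PCond_neg {p : ℕ} (hp : p.Prime) {x : ℤ} (hx : ¬ (p : ℤ) ∣ x) (h : ¬ PCond p x) :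
    PCond p (-x) := by
  unfold PCond at *
  split_ifs at * with hp2
  · subst hp2
    push_cast at hx
    omega
  · have hp0 : (0 : ℤ) < p := by exact_mod_cast hp.pos
    have h1 : (-x) % p = p - x % p := by
      have h2 : x % p ≠ 0 := fun h0 => hx (Int.dvd_of_emod_eq_zero h0)
      have h3 := Int.emod_nonneg x hp0.ne'
      have h4 := Int.emod_lt_of_pos x hp0
      have h5 : -x = (p - x % p) + p * (-(x / p) - 1) := by
        have := Int.emod_add_mul_ediv x p
        linear_combination this
      rw [h5, Int.add_mul_emod_self_left]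
      exact Int.emod_eq_of_lt (by omega) (by omega)
    rw [h1]
    have hodd : (p : ℤ) % 2 = 1 := by
      have := hp.eq_two_or_odd
      rcases this with h' | h'
      · exact absurd h' hp2
      · exact_mod_cast h'
    omega

lemma emod_eq_of_cong {d x y h : ℤ} (hd : d ∣ h) (hxy : h ∣ x - y) : x % d = y % d :=
  Int.emod_eq_emod_iff_emod_sub_eq_zero.2 (Int.emod_eq_zero_of_dvd (hd.trans hxy))

lemma supp_congr {g : ℕ} {x y : ℤ} (h : ∀ q : ℕ, q.Prime → q ∣ g → ((q : ℤ) ∣ x ↔ (q : ℤ) ∣ y)) :
    supp g x = supp g y := by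
  unfold supp
  apply Finset.filter_congr
  intro q hq
  rw [Nat.mem_primeFactors] at hq
  rw [h q hq.1 hq.2.1]

section vanish

variable {N p e g : ℕ} (hN : N = p ^ e * g) (hp : p.Prime) (he : 2 ≤ e) (h2 : p ≠ 2 ∨ 3 ≤ e)
  (hpg : p.Coprime g) (hg : g ≠ 0) {Q : Type*} [AddCommGroup Q] {f : ℤ → Q} (hf : OddDist N f)
  (hp0 : ∀ x, f (p * x) = 0)
  (hred : ∀ x : ℤ, ¬ (p : ℤ) ∣ x → PCond p x → (p : ℤ) ^ (e - 1) ≤ x % (p : ℤ) ^ e →
    TCond g x → f x = 0)

include hN hp he h2 hpg hg hf hp0 hred

/-- S1a: saturated, `PCond`, not distinguished. -/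
lemma vanish_a (n : ℕ)
    (IH : ∀ y : ℤ, Sat g y → ¬ (p : ℤ) ∣ y → (supp g y).card < n → f y = 0) :
    ∀ k : ℕ, ∀ x : ℤ, Sat g x → ¬ (p : ℤ) ∣ x → (supp g x).card = n → PCond p x →
      (p : ℤ) ^ (e - 1) ≤ x % (p : ℤ) ^ e → (ones g x).card = k → f x = 0 := by
  intro k
  induction k using Nat.strong_induction_on with
  | _ k ihk =>
  intro x hS hpx hn hP hD hk
  by_cases hone : (ones g x) = ∅
  · -- no ones : TCond
    apply hred x hpx hP hD
    intro q hq hqg
    by_cases hqx : (q : ℤ) ∣ x
    · exact Or.inl (hS q hq hqg hqx)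
    · refine Or.inr ⟨hqx, fun h1 => ?_⟩
      have : q ∈ ones g x := by
        unfold ones
        rw [Finset.mem_filter, Nat.mem_primeFactors]
        exact ⟨⟨hq, hqg, hg⟩, h1⟩
      rw [hone] at this
      exact absurd this (Finset.notMem_empty q)
  · obtain ⟨q, hqo⟩ := Finset.nonempty_iff_ne_empty.2 hone
    have hqo' := hqo
    unfold ones at hqo'
    rw [Finset.mem_filter, Nat.mem_primeFactors] at hqo'
    obtain ⟨⟨hq, hqg, _⟩, hq1⟩ := hqo'
    set a : ℕ := g.factorization q with ha
    have ha1 : 1 ≤ a := hq.factorization_pos_of_dvd hg hqg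
    have hfp : fp g q = q ^ a := rfl
    set g' : ℕ := g / q ^ a with hg'
    have hgg' : g = q ^ a * g' := (Nat.ordProj_mul_ordCompl_eq_self g q).symm
    have hqg' : q.Coprime g' := Nat.coprime_ordCompl hq hg
    have hqp : q ≠ p := by
      rintro rfl
      have := Nat.Coprime.eq_one_of_dvd hpg hqg
      exact hq.one_lt.ne' this
    have hqpc : q.Coprime (p ^ e) := Nat.Coprime.pow_right _ ((Nat.coprime_primes hq hp).2 hqp)
    set h : ℕ := p ^ e * g' with hh
    have hNh : N = q ^ a * h := by rw [hN, hh, hgg']; ring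
    have hqh : q.Coprime h := Nat.Coprime.mul_right hqpc hqg'
    have hq1x : ¬ (q : ℤ) ∣ x := by
      intro hqx
      have h1 : (q : ℤ) ∣ ((fp g q : ℕ) : ℤ) := by exact_mod_cast dvd_fp hg hq hqg
      have h2 : (q : ℤ) ∣ x - (x - 1) := dvd_sub hqx (h1.trans hq1)
      have h3 : (q : ℤ) ∣ 1 := by simpa using h2
      have := Int.isUnit_iff.1 (isUnit_of_dvd_one h3)
      have hq2 : (2 : ℤ) ≤ q := by exact_mod_cast hq.two_le
      omega
    -- facts on full powers dividing h
    have hfull : ∀ r : ℕ, r.Prime → r ∣ g → r ≠ q → ((fp g r : ℕ) : ℤ) ∣ (h : ℤ) := by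
      intro r hr hrg hrq
      have h1 : fp g r ∣ q ^ a * g' := hgg' ▸ fp_dvd g r
      have h2 : (fp g r).Coprime (q ^ a) := by
        unfold fp
        exact Nat.Coprime.pow _ _ ((Nat.coprime_primes hr hq).2 hrq)
      have h3 : fp g r ∣ g' := h2.dvd_of_dvd_mul_left h1
      exact_mod_cast h3.mul_left _
    have hph : (p : ℤ) ∣ (h : ℤ) := by
      have : p ∣ h := (dvd_pow_self p (by omega)).mul_right _
      exact_mod_cast this
    have hpeh : (p : ℤ) ^ e ∣ (h : ℤ) := by
      have : p ^ e ∣ h := dvd_mul_right _ _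
      exact_mod_cast this
    have h4h : p = 2 → (4 : ℤ) ∣ (h : ℤ) := by
      intro hp2
      have h1 : (4 : ℤ) ∣ (p : ℤ) ^ e := by
        rw [hp2]
        have : (2 : ℤ) ^ 2 ∣ 2 ^ e := pow_dvd_pow 2 he
        simpa using this
      exact h1.trans hpeh
    obtain ⟨z, hqz, hzx, hsum⟩ := hf.norm_rel q hq a h ha1 hNh hqh x
    -- the right-hand side vanishes
    have hA : f ((q : ℤ) ^ a * x) = 0 := by
      apply IH
      · intro r hr hrg hrx
        by_cases hrq : r = q
        · subst hrq
          rw [hfp]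
          exact ⟨x, by push_cast; ring⟩
        · have h1 : (r : ℤ) ∣ x := by
            have hc : IsCoprime (r : ℤ) ((q : ℤ) ^ a) := by
              have : r.Coprime (q ^ a) := Nat.Coprime.pow_right _ ((Nat.coprime_primes hr hq).2 hrq)
              exact_mod_cast this.isCoprime
            exact hc.dvd_of_dvd_mul_left hrx
          exact (hS r hr hrg h1).mul_left _
      · intro hpq
        apply hpx
        have hc : IsCoprime (p : ℤ) ((q : ℤ) ^ a) := by
          have : p.Coprime (q ^ a) :=
            Nat.Coprime.pow_right _ ((Nat.coprime_primes hp hq).2 (Ne.symm hqp))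
          exact_mod_cast this.isCoprime
        exact hc.dvd_of_dvd_mul_left hpq
      · rw [← hn]
        apply Finset.card_lt_card
        rw [Finset.ssubset_iff_of_subset]
        · refine ⟨q, ?_, ?_⟩
          · unfold supp
            rw [Finset.mem_filter, Nat.mem_primeFactors]
            exact ⟨⟨hq, hqg, hg⟩, hq1x⟩
          · unfold supp
            rw [Finset.mem_filter]
            rintro ⟨_, h1⟩
            apply h1
            exact (dvd_pow_self (q : ℤ) (by omega)).mul_right _
        · intro r hr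
          unfold supp at *
          rw [Finset.mem_filter] at *
          exact ⟨hr.1, fun h1 => hr.2 (h1.mul_left _)⟩
    have hB : f ((q : ℤ) ^ (a - 1) * z) = 0 := by
      have hzdvd : ∀ r : ℕ, r.Prime → r ∣ g → r ≠ q → ((r : ℤ) ∣ (q : ℤ) ^ (a - 1) * z ↔ (r : ℤ) ∣ x) := by
        intro r hr hrg hrq
        have hc : IsCoprime (r : ℤ) ((q : ℤ) ^ (a - 1)) := by
          have : r.Coprime (q ^ (a - 1)) :=
            Nat.Coprime.pow_right _ ((Nat.coprime_primes hr hq).2 hrq)
          exact_mod_cast this.isCoprime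
        have hrh : (r : ℤ) ∣ (h : ℤ) := by
          have : (r : ℤ) ∣ ((fp g r : ℕ) : ℤ) := by exact_mod_cast dvd_fp hg hr hrg
          exact this.trans (hfull r hr hrg hrq)
        rw [← dvd_iff_of_cong hrh hzx]
        exact ⟨fun h1 => hc.dvd_of_dvd_mul_left h1, fun h1 => h1.mul_left _⟩
      apply IH
      · intro r hr hrg hrx
        by_cases hrq : r = q
        · subst hrq
          rw [hfp]
          obtain ⟨c, rfl⟩ := hqz
          refine ⟨c, ?_⟩
          have : (r : ℤ) ^ a = (r : ℤ) ^ (a - 1) * r := by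
            rw [← pow_succ]; congr 1; omega
          push_cast
          rw [this]; ring
        · have h1 : (r : ℤ) ∣ x := (hzdvd r hr hrg hrq).1 hrx
          have h2 := hS r hr hrg h1
          exact ((dvd_iff_of_cong (hfull r hr hrg hrq) hzx).2 h2).mul_left _
      · intro hpq
        apply hpx
        have hc : IsCoprime (p : ℤ) ((q : ℤ) ^ (a - 1)) := by
          have : p.Coprime (q ^ (a - 1)) :=
            Nat.Coprime.pow_right _ ((Nat.coprime_primes hp hq).2 (Ne.symm hqp))
          exact_mod_cast this.isCoprime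
        exact (dvd_iff_of_cong hph hzx).1 (hc.dvd_of_dvd_mul_left hpq)
      · rw [← hn]
        apply Finset.card_lt_card
        rw [Finset.ssubset_iff_of_subset]
        · refine ⟨q, ?_, ?_⟩
          · unfold supp
            rw [Finset.mem_filter, Nat.mem_primeFactors]
            exact ⟨⟨hq, hqg, hg⟩, hq1x⟩
          · unfold supp
            rw [Finset.mem_filter]
            rintro ⟨_, h1⟩
            exact h1 (hqz.mul_left _)
        · intro r hr
          unfold supp at *
          rw [Finset.mem_filter, Nat.mem_primeFactors] at *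
          refine ⟨hr.1, fun h1 => ?_⟩
          by_cases hrq : r = q
          · subst hrq; exact hr.2 (hqz.mul_left _)
          · exact hr.2 ((hzdvd r hr.1.1 hr.1.2.1 hrq).2 h1)
    rw [hA, hB, sub_zero] at hsum
    -- isolate the term j = 0
    have h0mem : 0 ∈ (range (q ^ a)).filter (fun j : ℕ => ¬ (q : ℤ) ∣ x + j * h) := by
      rw [Finset.mem_filter, Finset.mem_range]
      refine ⟨pow_pos hq.pos a, ?_⟩
      simpa using hq1x
    rw [← Finset.add_sum_erase _ _ h0mem] at hsum
    have hothers : ∑ j ∈ ((range (q ^ a)).filter (fun j : ℕ => ¬ (q : ℤ) ∣ x + j * h)).erase 0,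
        f (x + j * h) = 0 := by
      apply Finset.sum_eq_zero
      intro j hj
      rw [Finset.mem_erase, Finset.mem_filter, Finset.mem_range] at hj
      obtain ⟨hj0, hjlt, hjq⟩ := hj
      have hcong : (h : ℤ) ∣ (x + j * h) - x := ⟨j, by ring⟩
      have hcong' : (h : ℤ) ∣ x - (x + j * h) := ⟨-j, by ring⟩
      have hdv : ∀ r : ℕ, r.Prime → r ∣ g → ((r : ℤ) ∣ x + j * h ↔ (r : ℤ) ∣ x) := by
        intro r hr hrg
        by_cases hrq : r = q
        · subst hrq; exact ⟨fun h1 => absurd h1 hjq, fun h1 => absurd h1 hq1x⟩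
        · have : (r : ℤ) ∣ ((fp g r : ℕ) : ℤ) := by exact_mod_cast dvd_fp hg hr hrg
          exact dvd_iff_of_cong (this.trans (hfull r hr hrg hrq)) hcong
      have hqa : ¬ ((fp g q : ℕ) : ℤ) ∣ (x + j * h) - 1 := by
        intro h1
        have h3 : ((fp g q : ℕ) : ℤ) ∣ ((x + j * h) - 1) - (x - 1) := dvd_sub h1 hq1
        have h4 : (x + j * h) - 1 - (x - 1) = (j : ℤ) * h := by ring
        rw [h4, hfp] at h3
        have h5 : q ^ a ∣ j * h := by exact_mod_cast h3
        have h6 : (q ^ a).Coprime h := Nat.Coprime.pow_left _ hqh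
        have h7 := h6.dvd_of_dvd_mul_right h5
        have := Nat.le_of_dvd (Nat.pos_of_ne_zero hj0) h7
        omega
      refine ihk (ones g (x + j * h)).card ?_ (x + j * h) ?_ ?_ ?_ ?_ ?_ rfl
      · rw [← hk]
        apply Finset.card_lt_card
        rw [Finset.ssubset_iff_of_subset]
        · refine ⟨q, hqo, ?_⟩
          unfold ones
          rw [Finset.mem_filter]
          rintro ⟨_, h1⟩
          exact hqa h1
        · intro r hr
          unfold ones at *
          rw [Finset.mem_filter, Nat.mem_primeFactors] at *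
          refine ⟨hr.1, ?_⟩
          by_cases hrq : r = q
          · subst hrq; exact absurd hr.2 hqa
          · exact (dvd_sub_one_iff_of_cong (hfull r hr.1.1 hr.1.2.1 hrq) hcong).1 hr.2
      · intro r hr hrg hrx
        by_cases hrq : r = q
        · subst hrq; exact absurd hrx hjq
        · have h1 := (hdv r hr hrg).1 hrx
          exact (dvd_iff_of_cong (hfull r hr hrg hrq) hcong).2 (hS r hr hrg h1)
      · rw [dvd_iff_of_cong hph hcong]; exact hpx
      · rw [← hn, supp_congr hdv]
      · exact PCond_congr hph h4h hcong' hP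
      · rw [emod_eq_of_cong hpeh hcong]; exact hD
    rw [hothers, add_zero] at hsum
    simpa using hsum

/-- S1b: drop the distinguished condition. -/
lemma vanish_b (n : ℕ)
    (IH : ∀ y : ℤ, Sat g y → ¬ (p : ℤ) ∣ y → (supp g y).card < n → f y = 0)
    (x : ℤ) (hS : Sat g x) (hpx : ¬ (p : ℤ) ∣ x) (hn : (supp g x).card = n) (hP : PCond p x) :
    f x = 0 := by
  by_cases hD : (p : ℤ) ^ (e - 1) ≤ x % (p : ℤ) ^ e
  · exact vanish_a hN hp he h2 hpg hg hf hp0 hred n IH _ x hS hpx hn hP hD rfl
  push Not at hD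
  set m : ℕ := p ^ (e - 1) * g with hm
  have hpe : p ^ e = p * p ^ (e - 1) := by rw [← pow_succ']; congr 1; omega
  have hNm : N = p * m := by rw [hN, hm, hpe]; ring
  have hsum := hf.dist p hp m hNm x
  rw [hp0 x] at hsum
  have h0mem : 0 ∈ range p := Finset.mem_range.2 hp.pos
  rw [← Finset.add_sum_erase _ _ h0mem] at hsum
  have hpm : (p : ℤ) ∣ (m : ℤ) := by
    have : p ∣ m := (dvd_pow_self p (by omega)).mul_right _
    exact_mod_cast this
  have h4m : p = 2 → (4 : ℤ) ∣ (m : ℤ) := by
    intro hp2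
    have he3 : 3 ≤ e := by rcases h2 with h | h; exact absurd hp2 h; exact h
    have h1 : (4 : ℤ) ∣ (p : ℤ) ^ (e - 1) := by
      rw [hp2]
      have : (2 : ℤ) ^ 2 ∣ 2 ^ (e - 1) := pow_dvd_pow 2 (by omega)
      simpa using this
    have h3 : (p : ℤ) ^ (e - 1) ∣ (m : ℤ) := by
      have : p ^ (e - 1) ∣ m := dvd_mul_right _ _
      exact_mod_cast this
    exact h1.trans h3
  have hgm : (g : ℤ) ∣ (m : ℤ) := by
    have : g ∣ m := dvd_mul_left _ _
    exact_mod_cast this
  have hothers : ∑ j ∈ (range p).erase 0, f (x + j * m) = 0 := by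
    apply Finset.sum_eq_zero
    intro j hj
    rw [Finset.mem_erase, Finset.mem_range] at hj
    obtain ⟨hj0, hjlt⟩ := hj
    have hcong : (m : ℤ) ∣ (x + j * m) - x := ⟨j, by ring⟩
    have hcong' : (m : ℤ) ∣ x - (x + j * m) := ⟨-j, by ring⟩
    have hfull : ∀ r : ℕ, ((fp g r : ℕ) : ℤ) ∣ (m : ℤ) := by
      intro r
      have : ((fp g r : ℕ) : ℤ) ∣ (g : ℤ) := by exact_mod_cast fp_dvd g r
      exact this.trans hgm
    have hdv : ∀ r : ℕ, r.Prime → r ∣ g → ((r : ℤ) ∣ x + j * m ↔ (r : ℤ) ∣ x) := by
      intro r hr hrg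
      have : (r : ℤ) ∣ (g : ℤ) := by exact_mod_cast hrg
      exact dvd_iff_of_cong (this.trans hgm) hcong
    refine vanish_a hN hp he h2 hpg hg hf hp0 hred n IH _ (x + j * m) ?_ ?_ ?_ ?_ ?_ rfl
    · intro r hr hrg hrx
      exact (dvd_iff_of_cong (hfull r) hcong).2 (hS r hr hrg ((hdv r hr hrg).1 hrx))
    · rw [dvd_iff_of_cong hpm hcong]; exact hpx
    · rw [← hn, supp_congr hdv]
    · exact PCond_congr hpm h4m hcong' hP
    · -- the residue modulo `p ^ e` is large
      have hpos : (0 : ℤ) < (p : ℤ) ^ (e - 1) := by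
        have : (0 : ℤ) < p := by exact_mod_cast hp.pos
        positivity
      have hpeZ : (p : ℤ) ^ e = p * (p : ℤ) ^ (e - 1) := by exact_mod_cast hpe
      set r := x % (p : ℤ) ^ e with hr
      set r' := (x + j * m) % (p : ℤ) ^ e with hr'
      by_contra hlt
      push Not at hlt
      have hppos : (0 : ℤ) < (p : ℤ) ^ e := by
        have : (0 : ℤ) < p := by exact_mod_cast hp.pos
        positivity
      have hr0 : 0 ≤ r := Int.emod_nonneg _ hppos.ne'
      have hr0' : 0 ≤ r' := Int.emod_nonneg _ hppos.ne'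
      -- r' - r is divisible by p^(e-1), so r = r'
      have hd1 : (p : ℤ) ^ (e - 1) ∣ r' - r := by
        have a1 : (p : ℤ) ^ e ∣ (x + j * m) - r' := Int.dvd_self_sub_emod
        have a2 : (p : ℤ) ^ e ∣ x - r := Int.dvd_self_sub_emod
        have a3 : (p : ℤ) ^ (e - 1) ∣ (p : ℤ) ^ e := pow_dvd_pow _ (by omega)
        have a4 : (p : ℤ) ^ (e - 1) ∣ (m : ℤ) := by
          have : p ^ (e - 1) ∣ m := dvd_mul_right _ _
          exact_mod_cast this
        have a5 : r' - r = (j : ℤ) * m - ((x + j * m) - r') + (x - r) := by ring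
        rw [a5]
        exact dvd_add (dvd_sub (a4.mul_left _) (a3.trans a1)) (a3.trans a2)
      have heq : r' = r := by
        obtain ⟨c, hc⟩ := hd1
        have : c = 0 := by
          by_contra hc0
          rcases lt_or_gt_of_ne hc0 with h | h
          · have : (p : ℤ) ^ (e - 1) * c ≤ (p : ℤ) ^ (e - 1) * (-1) :=
              mul_le_mul_of_nonneg_left (by omega) hpos.le
            linarith
          · have : (p : ℤ) ^ (e - 1) * 1 ≤ (p : ℤ) ^ (e - 1) * c :=
              mul_le_mul_of_nonneg_left (by omega) hpos.le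
            linarith
        rw [this, mul_zero] at hc
        linarith
      have hd2 : (p : ℤ) ^ e ∣ (j : ℤ) * m := by
        have a1 : (p : ℤ) ^ e ∣ (x + j * m) - r' := Int.dvd_self_sub_emod
        have a2 : (p : ℤ) ^ e ∣ x - r := Int.dvd_self_sub_emod
        have a3 : (j : ℤ) * m = ((x + j * m) - r') - (x - r) := by rw [heq]; ring
        rw [a3]
        exact dvd_sub a1 a2
      have hd3 : p ^ e ∣ j * m := by exact_mod_cast hd2
      have hd4 : p * p ^ (e - 1) ∣ (j * g) * p ^ (e - 1) := by
        rw [← hpe]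
        have : j * g * p ^ (e - 1) = j * m := by rw [hm]; ring
        rwa [this]
      have hd5 : p ∣ j * g := Nat.dvd_of_mul_dvd_mul_right (pow_pos hp.pos _) hd4
      have hd6 : p ∣ j := hpg.dvd_of_dvd_mul_right hd5
      have := Nat.le_of_dvd (Nat.pos_of_ne_zero hj0) hd6
      omega
  rw [hothers, add_zero] at hsum
  simpa using hsum

/-- S1: all saturated `x` prime to `p`. -/
lemma vanish_sat : ∀ n : ℕ, ∀ x : ℤ, Sat g x → ¬ (p : ℤ) ∣ x → (supp g x).card = n → f x = 0 := by
  intro n
  induction n using Nat.strong_induction_on with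
  | _ n ih =>
  intro x hS hpx hn
  have IH : ∀ y : ℤ, Sat g y → ¬ (p : ℤ) ∣ y → (supp g y).card < n → f y = 0 :=
    fun y hy hpy hlt => ih _ hlt y hy hpy rfl
  by_cases hP : PCond p x
  · exact vanish_b hN hp he h2 hpg hg hf hp0 hred n IH x hS hpx hn hP
  · have h1 := vanish_b hN hp he h2 hpg hg hf hp0 hred n IH (-x) ?_ ?_ ?_ (PCond_neg hp hpx hP)
    · rw [hf.neg, neg_eq_zero] at h1
      exact h1
    · intro r hr hrg hrx
      rw [dvd_neg] at hrx ⊢
      exact hS r hr hrg hrx
    · rwa [dvd_neg]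
    · rw [← hn]
      congr 1
      exact supp_congr fun r _ _ => dvd_neg

/-- S2 + S3: everything vanishes. -/
lemma vanish_all : ∀ x : ℤ, f x = 0 := by
  have key : ∀ n : ℕ, ∀ x : ℤ, Int.gcd x g = n → ¬ (p : ℤ) ∣ x → f x = 0 := by
    intro n
    induction n using Nat.strong_induction_on with
    | _ n ih =>
    intro x hn hpx
    by_cases hS : Sat g x
    · exact vanish_sat hN hp he h2 hpg hg hf hp0 hred _ x hS hpx rfl
    · unfold Sat at hS
      push Not at hS
      obtain ⟨q, hq, hqg, hqx, hqn⟩ := hS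
      obtain ⟨y, rfl⟩ := hqx
      have hqN : q ∣ N := by rw [hN]; exact hqg.mul_left _
      obtain ⟨n', hn'⟩ := hqN
      rw [← hf.dist q hq n' hn' y]
      apply Finset.sum_eq_zero
      intro j _
      have hqy : (q : ℤ) * (y + j * n') = q * y + j * N := by rw [hn']; push_cast; ring
      have hpN : (p : ℤ) ∣ (N : ℤ) := by
        have : p ∣ N := by rw [hN]; exact (dvd_pow_self p (by omega)).mul_right _
        exact_mod_cast this
      have hgN : (g : ℤ) ∣ (N : ℤ) := by
        have : g ∣ N := by rw [hN]; exact dvd_mul_left _ _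
        exact_mod_cast this
      refine ih (Int.gcd (y + j * n') g) ?_ _ rfl ?_
      · -- the gcd decreases
        set d := Int.gcd (y + j * n') g with hd
        have hdg : d ∣ g := by
          have := Int.gcd_dvd_right (a := y + j * n') (b := (g : ℤ))
          exact_mod_cast this
        have hdy : (d : ℤ) ∣ y + j * n' := Int.gcd_dvd_left _ _
        have hd0 : d ≠ 0 := fun h0 => hg (by rw [h0] at hdg; exact zero_dvd_iff.1 hdg)
        have hnd : ¬ fp g q ∣ d := by
          intro h1
          apply hqn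
          have h3 : ((fp g q : ℕ) : ℤ) ∣ y + j * n' := by
            have : ((fp g q : ℕ) : ℤ) ∣ (d : ℤ) := by exact_mod_cast h1
            exact this.trans hdy
          have h4 : ((fp g q : ℕ) : ℤ) ∣ q * y + j * N := by
            rw [← hqy]; exact h3.mul_left _
          have h5 : ((fp g q : ℕ) : ℤ) ∣ (j : ℤ) * N := by
            have : ((fp g q : ℕ) : ℤ) ∣ (g : ℤ) := by exact_mod_cast fp_dvd g q
            exact (this.trans hgN).mul_left _
          have h6 := dvd_sub h4 h5
          simpa using h6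
        have hqd : q * d ∣ g := by
          rw [← Nat.factorization_le_iff_dvd (Nat.mul_ne_zero hq.ne_zero hd0) hg,
            Nat.factorization_mul hq.ne_zero hd0]
          intro r
          rw [Finsupp.add_apply, hq.factorization]
          have hle := (Nat.factorization_le_iff_dvd hd0 hg).2 hdg r
          by_cases hrq : r = q
          · subst hrq
            rw [Finsupp.single_eq_same]
            have : d.factorization r < g.factorization r := by
              by_contra hge
              push Not at hge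
              apply hnd
              unfold fp
              exact (hq.pow_dvd_iff_le_factorization hd0).2 hge
            omega
          · rw [Finsupp.single_eq_of_ne hrq]
            omega
        have hqdx : ((q * d : ℕ) : ℤ) ∣ (q : ℤ) * y := by
          have h3 : ((q * d : ℕ) : ℤ) ∣ q * y + j * N := by
            rw [← hqy]; push_cast; exact mul_dvd_mul_left _ hdy
          have h4 : ((q * d : ℕ) : ℤ) ∣ (j : ℤ) * N := by
            have : ((q * d : ℕ) : ℤ) ∣ (g : ℤ) := by exact_mod_cast hqd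
            exact (this.trans hgN).mul_left _
          have h6 := dvd_sub h3 h4
          simpa using h6
        have hqdn : q * d ∣ n := by
          rw [← hn]
          have := Int.dvd_coe_gcd hqdx (by exact_mod_cast hqd : ((q * d : ℕ) : ℤ) ∣ (g : ℤ))
          exact_mod_cast this
        have hn0 : 0 < n := by
          rw [← hn]
          exact Int.gcd_pos_of_ne_zero_right _ (by exact_mod_cast hg)
        have h7 := Nat.le_of_dvd hn0 hqdn
        have h8 : 2 * d ≤ q * d := Nat.mul_le_mul_right _ hq.two_le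
        have h9 : 0 < d := Nat.pos_of_ne_zero hd0
        omega
      · intro h1
        apply hpx
        have h3 : (p : ℤ) ∣ q * y + j * N := by rw [← hqy]; exact h1.mul_left _
        have h4 := dvd_sub h3 (hpN.mul_left (j : ℤ))
        simpa using h4
  intro x
  by_cases hpx : (p : ℤ) ∣ x
  · obtain ⟨y, rfl⟩ := hpx
    exact hp0 y
  · exact key _ x rfl hpx

end vanish

end Pool.Agent.FT
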